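import Mathlib
import Pool.Agent.EE7.Defs

/-!
# UQO: common definitions (MP_870c49_nt, explicit classes on `E × E`, `E = ℂ / Λ`)

`Λ = ℤ + ℤ τ`, `τ` an arbitrary point of the upper half plane (class `Lt`: every file has
`variable [Lt]`, so that `om = τ` and all functions of the lattice keep short names).
* points of the lattice: `xx n = n.1 + n.2 τ`; frequencies: `mm n = n.1 - n.2 τ̄` (the dual lattice),
  characters `ch n u = exp (cc (mm n u - conj))`, `cc = π / Im τ`;
  `ch n (s + t τ) = exp (2 π i (n.1 t + n.2 s))`.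
* `P = ℘`, `P1 = ℘'`, `Z` the doubly periodic zeta function; `Z` has Fourier coefficients
  `-1 / conj (mm n)`.
The lattice independent objects (`cj`, the torus `E` in real coordinates, `rep`, `BW`, `D1`, `D2`,
`D11`, `wl`, `AI`) are those of `EE7`.
-/

open MeasureTheory

namespace UQO

export EE7 (cj E rep wl BW D1 D2 D11 AI)

/-- a point of the upper half plane -/
class Lt where
  tau : ℂ
  pos : 0 < tau.im

noncomputable section

variable [Lt]

/-- the second period -/
abbrev om : ℂ := Lt.tau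

/-- its conjugate -/
def ob : ℂ := cj om

/-- the lattice point `n.1 + n.2 om` -/
def xx (n : ℤ × ℤ) : ℂ := (n.1 : ℂ) + (n.2 : ℂ) * om

/-- the point `n.1 - n.2 ob` of the dual lattice -/
def mm (n : ℤ × ℤ) : ℂ := (n.1 : ℂ) - (n.2 : ℂ) * ob

/-- the constant `π / Im τ` -/
def cc : ℝ := Real.pi / (om : ℂ).im

/-- Weierstrass `℘` -/
def P (u : ℂ) : ℂ := Pool.Agent.EllSch.wp 1 om u

/-- its derivative -/
def P1 (u : ℂ) : ℂ := Pool.Agent.EllSch.wq 1 om u

/-- `u` is not in the lattice -/
def Ofl (u : ℂ) : Prop := Pool.Agent.EllSch.Off 1 om u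

open Classical in
/-- the doubly periodic (non holomorphic) zeta function; it is `0` on the lattice -/
def Z (u : ℂ) : ℂ :=
  if Ofl u then
    Pool.Agent.EllSch.wz 1 om u - (Pool.Agent.EllSch.eta1 1 om - cc) * u - cc * cj u
  else 0

/-- periodicity with respect to the lattice -/
def Per {A : Type*} (F : ℂ → A) : Prop := ∀ (u : ℂ) (n : ℤ × ℤ), F (u + xx n) = F u

/-- the characters of `ℂ / Λ` -/
def ch (n : ℤ × ℤ) (u : ℂ) : ℂ := Complex.exp (cc * (mm n * u - cj (mm n * u)))

/-- the representative of a point of the torus in the fundamental cell -/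
def cu (x : E) : ℂ := (rep x.1 : ℂ) + (rep x.2 : ℂ) * om

/-- the projection `ℂ → E` -/
def pr (u : ℂ) : E :=
  (((u.re - u.im / (om : ℂ).im * (om : ℂ).re : ℝ) : UnitAddCircle),
    ((u.im / (om : ℂ).im : ℝ) : UnitAddCircle))

/-- Fourier coefficient -/
def fc (F : ℂ → ℂ) (n : ℤ × ℤ) : ℂ := ∫ x : E, F (cu x) * ch (-n) (cu x)

/-- Fourier coefficients on `E × E` -/
def fcc (F : E × E → ℂ) (k : (ℤ × ℤ) × (ℤ × ℤ)) : ℂ :=
  ∫ q : E × E, F q * (ch (-k.1) (cu q.1) * ch (-k.2) (cu q.2))

end

end UQO
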