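import Mathlib
import Pool.Agent.UQO.Defs
import Pool.Agent.EllSch.Lattice

/-!
# UQO/Bas: elementary facts on `om`, `xx`, `mm`, `cc`
-/

open Pool.Agent.EllSch (Ind lat)

namespace UQO

lemma cj_add (a b : ℂ) : cj (a + b) = cj a + cj b := map_add _ a b
lemma cj_sub (a b : ℂ) : cj (a - b) = cj a - cj b := map_sub _ a b
lemma cj_mul (a b : ℂ) : cj (a * b) = cj a * cj b := map_mul _ a b
lemma cj_neg (a : ℂ) : cj (-a) = -cj a := map_neg _ a
lemma cj_cj (a : ℂ) : cj (cj a) = a := Complex.conj_conj a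
lemma cj_div (a b : ℂ) : cj (a / b) = cj a / cj b := map_div₀ _ a b
lemma cj_pow (a : ℂ) (k : ℕ) : cj (a ^ k) = cj a ^ k := map_pow _ a k
lemma cj_zero : cj 0 = 0 := map_zero _
lemma cj_one : cj 1 = 1 := map_one _
lemma cj_two : cj 2 = 2 := map_ofNat _ 2
lemma cj_eq_zero {a : ℂ} : cj a = 0 ↔ a = 0 := by simp [cj]
lemma cj_int (k : ℤ) : cj (k : ℂ) = k := map_intCast (starRingEnd ℂ) k
lemma cj_real (r : ℝ) : cj (r : ℂ) = r := Complex.conj_ofReal r
lemma norm_cj (a : ℂ) : ‖cj a‖ = ‖a‖ := RCLike.norm_conj a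
lemma cj_re (a : ℂ) : (cj a).re = a.re := Complex.conj_re a
lemma cj_im (a : ℂ) : (cj a).im = -a.im := Complex.conj_im a

variable [Lt]

lemma om_pos : 0 < (om : ℂ).im := Lt.pos

lemma om_im_ne : (om : ℂ).im ≠ 0 := om_pos.ne'

lemma cj_om : cj om = ob := rfl

lemma cj_ob : cj ob = om := cj_cj om

lemma ob_re : (ob : ℂ).re = (om : ℂ).re := cj_re om

lemma ob_im : (ob : ℂ).im = -(om : ℂ).im := cj_im om

lemma ind : Ind 1 om := by
  unfold Ind
  rw [Complex.one_re, Complex.one_im]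
  simp only [one_mul, zero_mul, sub_zero]
  exact om_im_ne

lemma xx_def (n : ℤ × ℤ) : xx n = (n.1 : ℂ) + (n.2 : ℂ) * om := rfl

lemma mm_def (n : ℤ × ℤ) : mm n = (n.1 : ℂ) - (n.2 : ℂ) * ob := rfl

lemma cj_mm (n : ℤ × ℤ) : cj (mm n) = (n.1 : ℂ) - (n.2 : ℂ) * om := by
  rw [mm_def, cj_sub, cj_mul, cj_int, cj_int, cj_ob]

lemma cj_mm_xx (n : ℤ × ℤ) : cj (mm n) = xx (n.1, -n.2) := by
  rw [cj_mm, xx_def]
  push_cast
  ring

lemma cj_xx_mm (n : ℤ × ℤ) : cj (xx n) = mm (n.1, -n.2) := by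
  rw [xx_def, mm_def, cj_add, cj_mul, cj_int, cj_int, cj_om]
  push_cast
  ring

lemma cj_xx (n : ℤ × ℤ) : cj (xx n) = (n.1 : ℂ) + (n.2 : ℂ) * ob := by
  rw [xx_def, cj_add, cj_mul, cj_int, cj_int, cj_om]

lemma lat_eq (n : ℤ × ℤ) : lat 1 om n = xx n := by
  rw [lat, xx_def, mul_one]

lemma ofl_iff (u : ℂ) : Ofl u ↔ ∀ n, u ≠ xx n := by
  unfold Ofl Pool.Agent.EllSch.Off
  simp only [lat_eq]

lemma not_ofl_iff (u : ℂ) : ¬ Ofl u ↔ ∃ n, u = xx n := by
  rw [ofl_iff]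
  push Not
  rfl

lemma xx_zero : xx 0 = 0 := by
  simp [xx_def]

lemma xx_add (n m : ℤ × ℤ) : xx (n + m) = xx n + xx m := by
  simp only [xx_def, Prod.fst_add, Prod.snd_add]
  push_cast
  ring

lemma xx_neg (n : ℤ × ℤ) : xx (-n) = -xx n := by
  simp only [xx_def, Prod.fst_neg, Prod.snd_neg]
  push_cast
  ring

lemma xx_sub (n m : ℤ × ℤ) : xx (n - m) = xx n - xx m := by
  rw [sub_eq_add_neg, xx_add, xx_neg, sub_eq_add_neg]

lemma mm_zero : mm 0 = 0 := by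
  simp [mm_def]

lemma mm_add (n m : ℤ × ℤ) : mm (n + m) = mm n + mm m := by
  simp only [mm_def, Prod.fst_add, Prod.snd_add]
  push_cast
  ring

lemma mm_neg (n : ℤ × ℤ) : mm (-n) = -mm n := by
  simp only [mm_def, Prod.fst_neg, Prod.snd_neg]
  push_cast
  ring

lemma mm_sub (n m : ℤ × ℤ) : mm (n - m) = mm n - mm m := by
  rw [sub_eq_add_neg, mm_add, mm_neg, sub_eq_add_neg]

lemma xx_re (n : ℤ × ℤ) : (xx n).re = n.1 + n.2 * (om : ℂ).re := by
  simp [xx_def]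

lemma xx_im (n : ℤ × ℤ) : (xx n).im = n.2 * (om : ℂ).im := by
  simp [xx_def]

lemma mm_re (n : ℤ × ℤ) : (mm n).re = n.1 - n.2 * (om : ℂ).re := by
  simp [mm_def, ob_re, ob_im]

lemma mm_im (n : ℤ × ℤ) : (mm n).im = n.2 * (om : ℂ).im := by
  simp [mm_def, ob_re, ob_im]

lemma xx_inj : Function.Injective xx := by
  intro n m h
  have h2 := congrArg Complex.im h
  have h1 := congrArg Complex.re h
  rw [xx_im, xx_im] at h2
  rw [xx_re, xx_re] at h1
  have h7 := om_im_ne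
  have e2 : (n.2 : ℝ) = m.2 := mul_right_cancel₀ h7 h2
  have e1 : (n.1 : ℝ) = m.1 := by
    rw [e2] at h1
    linarith
  exact Prod.ext (by exact_mod_cast e1) (by exact_mod_cast e2)

lemma xx_eq_zero {n : ℤ × ℤ} : xx n = 0 ↔ n = 0 := by
  constructor
  · intro h
    exact xx_inj (by rw [h, xx_zero])
  · rintro rfl
    exact xx_zero

lemma mm_inj : Function.Injective mm := by
  intro n m h
  have h2 := congrArg Complex.im h
  have h1 := congrArg Complex.re h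
  rw [mm_im, mm_im] at h2
  rw [mm_re, mm_re] at h1
  have h7 := om_im_ne
  have e2 : (n.2 : ℝ) = m.2 := mul_right_cancel₀ h7 h2
  have e1 : (n.1 : ℝ) = m.1 := by
    rw [e2] at h1
    linarith
  exact Prod.ext (by exact_mod_cast e1) (by exact_mod_cast e2)

lemma mm_eq_zero {n : ℤ × ℤ} : mm n = 0 ↔ n = 0 := by
  constructor
  · intro h
    exact mm_inj (by rw [h, mm_zero])
  · rintro rfl
    exact mm_zero

lemma cc_pos : 0 < cc := by
  unfold cc
  have := om_pos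
  have := Real.pi_pos
  positivity

lemma cc_ne : (cc : ℂ) ≠ 0 := by exact_mod_cast cc_pos.ne'

lemma om_sub_ob : om - ob = 2 * ((om : ℂ).im : ℂ) * Complex.I := by
  apply Complex.ext
  · simp [ob_re]
  · simp [ob_im]
    ring

/-- `cc (om - ob) = 2 π i` -/
lemma cc_mul : (cc : ℂ) * (om - ob) = 2 * Real.pi * Complex.I := by
  rw [om_sub_ob, cc]
  have h7 : (((om : ℂ).im : ℝ) : ℂ) ≠ 0 := by
    exact_mod_cast om_im_ne
  push_cast
  field_simp

lemma om_sub_ob_ne : om - ob ≠ 0 := by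
  intro h
  have h5 := cc_mul
  rw [h, mul_zero] at h5
  exact Complex.two_pi_I_ne_zero h5.symm

end UQO
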