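import Mathlib
import Pool.Agent.UQO.Bas

/-!
# UQO/Tor: the torus `E = ℂ / Λ`, the maps `pr : ℂ → E`, `cu : E → ℂ`, the characters

`u = s + t om` with `t = u.im / om.im`, `s = u.re - t om.re`; `pr (cu x) = x`, `pr u = pr w` iff
`u - w` is in the lattice. `ch n (s + t om) = exp (2 π i (n.2 s + n.1 t))`.
-/

open MeasureTheory Set

namespace UQO

variable [Lt]

theorem Tor_re (s t : ℝ) : ((s : ℂ) + (t : ℂ) * om).re = s + t * (om : ℂ).re := by
  rw [Complex.add_re, Complex.ofReal_re, Complex.re_ofReal_mul]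

theorem Tor_im (s t : ℝ) : ((s : ℂ) + (t : ℂ) * om).im = t * (om : ℂ).im := by
  rw [Complex.add_im, Complex.ofReal_im, Complex.im_ofReal_mul]
  ring

theorem Tor_t (s t : ℝ) : ((s : ℂ) + (t : ℂ) * om).im / (om : ℂ).im = t := by
  rw [Tor_im]
  exact mul_div_cancel_right₀ _ om_im_ne

theorem Tor_s (s t : ℝ) : ((s : ℂ) + (t : ℂ) * om).re -
    ((s : ℂ) + (t : ℂ) * om).im / (om : ℂ).im * (om : ℂ).re = s := by
  rw [Tor_t, Tor_re]
  ring

theorem Tor_decomp (u : ℂ) :
    (((u.re - u.im / (om : ℂ).im * (om : ℂ).re : ℝ) : ℂ) +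
      ((u.im / (om : ℂ).im : ℝ) : ℂ) * om) = u := by
  apply Complex.ext
  · rw [Tor_re]
    ring
  · rw [Tor_im]
    exact div_mul_cancel₀ _ om_im_ne

theorem pr_cu (x : E) : pr (cu x) = x := by
  unfold pr cu
  rw [Tor_s, Tor_t]
  refine Prod.ext ?_ ?_
  · exact AddCircle.coe_equivIco
  · exact AddCircle.coe_equivIco

theorem pr_st (s t : ℝ) : pr ((s : ℂ) + (t : ℂ) * om) = ((s : UnitAddCircle), (t : UnitAddCircle)) := by
  unfold pr
  rw [Tor_s, Tor_t]

theorem pr_add (u w : ℂ) : pr (u + w) = pr u + pr w := by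
  unfold pr
  refine Prod.ext ?_ ?_
  · simp only [Prod.mk_add_mk]
    rw [← AddCircle.coe_add]
    congr 1
    rw [Complex.add_re, Complex.add_im]
    ring
  · simp only [Prod.mk_add_mk]
    rw [← AddCircle.coe_add]
    congr 1
    rw [Complex.add_im]
    ring

theorem Tor_pr_zero : pr 0 = 0 := by
  have h := pr_add 0 0
  rw [add_zero] at h
  exact (add_eq_left.1 h.symm)

theorem pr_neg (u : ℂ) : pr (-u) = -pr u := by
  rw [eq_neg_iff_add_eq_zero, ← pr_add, neg_add_cancel, Tor_pr_zero]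

theorem pr_sub (u w : ℂ) : pr (u - w) = pr u - pr w := by
  rw [sub_eq_add_neg, pr_add, pr_neg, ← sub_eq_add_neg]

theorem Tor_xx (n : ℤ × ℤ) : xx n = (((n.1 : ℝ)) : ℂ) + (((n.2 : ℝ)) : ℂ) * om := by
  rw [xx_def]
  push_cast
  rfl

theorem Tor_int (k : ℤ) : (((k : ℝ)) : UnitAddCircle) = 0 :=
  (AddCircle.coe_eq_zero_iff (1 : ℝ)).2 ⟨k, by simp⟩

theorem pr_xx (n : ℤ × ℤ) : pr (xx n) = 0 := by
  rw [Tor_xx, pr_st, Tor_int, Tor_int]
  rfl

theorem pr_eq_iff {u w : ℂ} : pr u = pr w ↔ ∃ n, u = w + xx n := by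
  constructor
  · intro h
    have h0 : pr (u - w) = 0 := by
      rw [pr_sub, h, sub_self]
    rw [← Tor_decomp (u - w), pr_st] at h0
    have h1 := congrArg Prod.fst h0
    have h2 := congrArg Prod.snd h0
    obtain ⟨a, ha⟩ := (AddCircle.coe_eq_zero_iff (1 : ℝ)).1 h1
    obtain ⟨b, hb⟩ := (AddCircle.coe_eq_zero_iff (1 : ℝ)).1 h2
    refine ⟨(a, b), ?_⟩
    rw [Tor_xx]
    have ha' : (a : ℝ) = (u - w).re - (u - w).im / (om : ℂ).im * (om : ℂ).re := by
      rw [← ha]
      simp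
    have hb' : (b : ℝ) = (u - w).im / (om : ℂ).im := by
      rw [← hb]
      simp
    have h3 := Tor_decomp (u - w)
    rw [← ha', ← hb'] at h3
    show u = w + (((a : ℝ) : ℂ) + ((b : ℝ) : ℂ) * om)
    rw [h3]
    ring
  · rintro ⟨n, rfl⟩
    rw [pr_add, pr_xx, add_zero]

/-- the real coordinates as a homeomorphism -/
noncomputable def Tor_homeo : ℂ ≃ₜ ℝ × ℝ where
  toFun u := (u.re - u.im / (om : ℂ).im * (om : ℂ).re, u.im / (om : ℂ).im)
  invFun p := (p.1 : ℂ) + (p.2 : ℂ) * om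
  left_inv u := Tor_decomp u
  right_inv p := Prod.ext (Tor_s p.1 p.2) (Tor_t p.1 p.2)
  continuous_toFun := by fun_prop
  continuous_invFun := by fun_prop

theorem Tor_pr_eq : pr = (Prod.map ((↑) : ℝ → UnitAddCircle) ((↑) : ℝ → UnitAddCircle)) ∘
    Tor_homeo := rfl

theorem continuous_pr : Continuous pr := by
  rw [Tor_pr_eq]
  exact ((AddCircle.continuous_mk' 1).prodMap (AddCircle.continuous_mk' 1)).comp
    Tor_homeo.continuous

theorem Tor_open : IsOpenMap pr := by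
  rw [Tor_pr_eq]
  exact (IsOpenMap.prodMap QuotientAddGroup.isOpenMap_coe QuotientAddGroup.isOpenMap_coe).comp
    Tor_homeo.isOpenMap

theorem per_pr {A : Type*} {F : ℂ → A} (hF : Per F) (u : ℂ) : F (cu (pr u)) = F u := by
  obtain ⟨n, hn⟩ := pr_eq_iff.1 (pr_cu (pr u))
  rw [hn, hF]

theorem Tor_per {A : Type*} {F : ℂ → A} (hF : Per F) {u w : ℂ} (h : pr u = pr w) : F u = F w := by
  obtain ⟨n, hn⟩ := pr_eq_iff.1 h
  rw [hn, hF]

theorem per_cu_add {A : Type*} {F : ℂ → A} (hF : Per F) (x y : E) :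
    F (cu (x + y)) = F (cu x + cu y) :=
  Tor_per hF (by rw [pr_cu, pr_add, pr_cu, pr_cu])

theorem per_cu_sub {A : Type*} {F : ℂ → A} (hF : Per F) (x y : E) :
    F (cu (x - y)) = F (cu x - cu y) :=
  Tor_per hF (by rw [pr_cu, pr_sub, pr_cu, pr_cu])

theorem per_cu_neg {A : Type*} {F : ℂ → A} (hF : Per F) (x : E) :
    F (cu (-x)) = F (-cu x) :=
  Tor_per hF (by rw [pr_cu, pr_neg, pr_cu])

theorem per_cu_add_pr {A : Type*} {F : ℂ → A} (hF : Per F) (x : E) (a : ℂ) :
    F (cu (x + pr a)) = F (cu x + a) :=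
  Tor_per hF (by rw [pr_cu, pr_add, pr_cu])

theorem measurable_cu : Measurable cu := by
  have h : Measurable rep := by
    unfold rep
    exact measurable_subtype_coe.comp (AddCircle.measurableEquivIco 1 0).measurable
  unfold cu
  exact (Complex.measurable_ofReal.comp (h.comp measurable_fst)).add
    ((Complex.measurable_ofReal.comp (h.comp measurable_snd)).mul_const om)

theorem continuousAt_cu {A : Type*} [TopologicalSpace A] {F : ℂ → A} (hF : Per F) {x : E}
    (h : ContinuousAt F (cu x)) : ContinuousAt (fun y : E => F (cu y)) x := by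
  have h1 : nhds x = Filter.map pr (nhds (cu x)) := by
    have h2 := Tor_open.map_nhds_eq (continuous_pr.continuousAt (x := cu x))
    rw [h2, pr_cu]
  unfold ContinuousAt
  rw [h1, Filter.tendsto_map'_iff]
  have h3 : (fun y : E => F (cu y)) ∘ pr = F := by
    funext u
    exact per_pr hF u
  rw [h3]
  exact h

theorem Tor_sub (n : ℤ × ℤ) (s t : ℝ) :
    mm n * ((s : ℂ) + (t : ℂ) * om) - cj (mm n * ((s : ℂ) + (t : ℂ) * om)) =
      (om - ob) * (n.2 * s + n.1 * t) := by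
  rw [cj_mul, cj_add, cj_mul, cj_real, cj_real, cj_om, cj_mm, mm_def]
  ring

theorem ch_st (n : ℤ × ℤ) (s t : ℝ) : ch n ((s : ℂ) + (t : ℂ) * om) =
    Complex.exp (2 * Real.pi * Complex.I * (n.2 * s + n.1 * t)) := by
  unfold ch
  rw [Tor_sub, ← mul_assoc, cc_mul]

theorem ch_add (n : ℤ × ℤ) (u w : ℂ) : ch n (u + w) = ch n u * ch n w := by
  unfold ch
  rw [← Complex.exp_add, mul_add, cj_add]
  congr 1
  ring

theorem Tor_ch_xx (n m : ℤ × ℤ) : ch n (xx m) = 1 := by
  rw [Tor_xx m, ch_st, Complex.exp_eq_one_iff]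
  refine ⟨n.2 * m.1 + n.1 * m.2, ?_⟩
  push_cast
  ring

theorem ch_per (n : ℤ × ℤ) : Per (ch n) := by
  intro u m
  rw [ch_add, Tor_ch_xx, mul_one]

theorem ch_arg_neg (n : ℤ × ℤ) (u : ℂ) : ch n (-u) = ch (-n) u := by
  unfold ch
  rw [mm_neg, mul_neg, neg_mul]

theorem ch_idx_add (n m : ℤ × ℤ) (u : ℂ) : ch (n + m) u = ch n u * ch m u := by
  unfold ch
  rw [← Complex.exp_add, mm_add, add_mul, cj_add]
  congr 1
  ring

theorem ch_idx_zero (u : ℂ) : ch 0 u = 1 := by
  unfold ch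
  rw [mm_zero, zero_mul, cj_zero, sub_self, mul_zero, Complex.exp_zero]

theorem Tor_exp_cj (z : ℂ) : Complex.exp (cc * (-z - cj (-z))) = cj (Complex.exp (cc * (z - cj z))) := by
  unfold cj
  rw [← Complex.exp_conj]
  congr 1
  rw [map_mul, map_sub, Complex.conj_conj, Complex.conj_ofReal, map_neg]
  ring

theorem ch_idx_neg (n : ℤ × ℤ) (u : ℂ) : ch (-n) u = cj (ch n u) := by
  unfold ch
  rw [mm_neg, neg_mul, Tor_exp_cj]

theorem norm_ch (n : ℤ × ℤ) (u : ℂ) : ‖ch n u‖ = 1 := by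
  unfold ch
  rw [Complex.norm_exp, Complex.re_ofReal_mul, Complex.sub_re, cj, Complex.conj_re, sub_self,
    mul_zero, Real.exp_zero]

theorem ch_mul_neg (n : ℤ × ℤ) (u : ℂ) : ch n u * ch (-n) u = 1 := by
  rw [← ch_idx_add, add_neg_cancel, ch_idx_zero]

theorem Tor_exp_int (k : ℤ) : Complex.exp (Real.pi * Complex.I * k) = if Even k then 1 else -1 := by
  split_ifs with h
  · obtain ⟨r, hr⟩ := h
    rw [Complex.exp_eq_one_iff]
    refine ⟨r, ?_⟩
    rw [hr]
    push_cast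
    ring
  · rw [Int.not_even_iff_odd] at h
    obtain ⟨r, hr⟩ := h
    rw [hr]
    have h1 : (Real.pi * Complex.I * ((2 * r + 1 : ℤ) : ℂ)) =
        Real.pi * Complex.I + r * (2 * Real.pi * Complex.I) := by
      push_cast
      ring
    rw [h1, Complex.exp_add, Complex.exp_int_mul_two_pi_mul_I, Complex.exp_pi_mul_I, mul_one]

theorem Tor_ch_cont (n : ℤ × ℤ) : Continuous (ch n) := by
  unfold ch cj
  fun_prop

theorem continuous_ch_cu (n : ℤ × ℤ) : Continuous (fun x : E => ch n (cu x)) :=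
  continuous_iff_continuousAt.2 fun _ => continuousAt_cu (ch_per n) (Tor_ch_cont n).continuousAt

theorem ch_hasFDeriv (n : ℤ × ℤ) (u : ℂ) :
    HasFDerivAt (ch n) (wl (cc * mm n * ch n u) (-(cc * cj (mm n) * ch n u))) u := by
  have h1 : HasFDerivAt (fun u : ℂ => (cc : ℂ) * (mm n * u - cj (mm n * u)))
      (wl (cc * mm n) (-(cc * cj (mm n)))) u := by
    have h2 : (fun u : ℂ => (cc : ℂ) * (mm n * u - cj (mm n * u))) =
        (wl (cc * mm n) (-(cc * cj (mm n))) : ℂ → ℂ) := by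
      funext u
      simp only [wl, cj, map_mul, _root_.add_apply, _root_.smul_apply,
        ContinuousLinearMap.id_apply, smul_eq_mul, ContinuousLinearEquiv.coe_coe,
        Complex.conjCLE_apply]
      ring
    rw [h2]
    exact (wl (cc * mm n) (-(cc * cj (mm n)))).hasFDerivAt
  have h3 := h1.cexp
  have h4 : wl (cc * mm n * ch n u) (-(cc * cj (mm n) * ch n u)) =
      Complex.exp ((cc : ℂ) * (mm n * u - cj (mm n * u))) • wl (cc * mm n) (-(cc * cj (mm n))) := by
    ext h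
    · simp only [wl, ch, _root_.add_apply, _root_.smul_apply,
        ContinuousLinearMap.id_apply, smul_eq_mul, ContinuousLinearEquiv.coe_coe]
      ring
  rw [h4]
  exact h3

/-- the map `(s, t) ↦ s + t om` from the cell `(0,1]²` to `E` preserves the measure -/
theorem mp_cell : MeasurePreserving
    (fun p : ℝ × ℝ => (((p.1 : ℝ) : UnitAddCircle), ((p.2 : ℝ) : UnitAddCircle)))
    ((volume.restrict (Ioc (0:ℝ) 1)).prod (volume.restrict (Ioc (0:ℝ) 1)))
    (volume : Measure E) := by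
  have h := UnitAddCircle.measurePreserving_mk 0
  rw [zero_add] at h
  exact h.prod h

theorem Tor_exists (n : ℤ × ℤ) (hn : n ≠ 0) : ∃ a : ℂ, ch n a = -1 := by
  by_cases h2 : n.2 = 0
  · have h1 : n.1 ≠ 0 := fun h1 => hn (Prod.ext h1 h2)
    have h1' : ((n.1 : ℤ) : ℂ) ≠ 0 := by exact_mod_cast h1
    refine ⟨(((0 : ℝ)) : ℂ) + (((1 / (2 * n.1) : ℝ)) : ℂ) * om, ?_⟩
    rw [ch_st, h2, ← Complex.exp_pi_mul_I]
    congr 1
    push_cast
    field_simp
    ring
  · have h2' : ((n.2 : ℤ) : ℂ) ≠ 0 := by exact_mod_cast h2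
    refine ⟨(((1 / (2 * n.2) : ℝ)) : ℂ) + (((0 : ℝ)) : ℂ) * om, ?_⟩
    rw [ch_st, ← Complex.exp_pi_mul_I]
    congr 1
    push_cast
    field_simp
    ring

theorem integral_ch (n : ℤ × ℤ) : ∫ x : E, ch n (cu x) = if n = 0 then 1 else 0 := by
  split_ifs with h
  · rw [h]
    simp only [ch_idx_zero]
    rw [integral_const]
    have h1 : (volume : Measure E).real univ = 1 := by
      rw [Measure.volume_eq_prod, Measure.real, ← univ_prod_univ, Measure.prod_prod]
      simp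
    rw [h1, one_smul]
  · obtain ⟨a, ha⟩ := Tor_exists n h
    haveI : (volume : Measure E).IsAddLeftInvariant := by
      rw [Measure.volume_eq_prod]
      infer_instance
    have h1 : ∫ x : E, ch n (cu (x + pr a)) = ∫ x : E, ch n (cu x) := by
      simp only [add_comm _ (pr a)]
      exact integral_add_left_eq_self (μ := (volume : Measure E)) (fun x => ch n (cu x)) (pr a)
    have h2 : ∫ x : E, ch n (cu (x + pr a)) = -∫ x : E, ch n (cu x) := by
      rw [← integral_neg]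
      congr 1
      funext x
      rw [per_cu_add_pr (ch_per n), ch_add, ha, mul_neg, mul_one]
    rw [h2] at h1
    exact CharZero.neg_eq_self_iff.1 h1

end UQO
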