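import Mathlib
import Pool.Agent.UQO.Bas
import Pool.Agent.EllSch.Zeta
import Pool.Agent.EllSch.Add
import Pool.Agent.EllSch.Fix.Legendre

/-!
# UQO/ZBas: the periodic zeta function `Z`

`Z(u) = ζ(u) - (η₁ - cc) u - cc ū` for `u ∉ Λ`, `Z = 0` on `Λ`; `cc = π / Im om`.

PROOF. *Periodicity.* For `u ∉ O`: `ζ(u + xx n) = ζ(u) + n.1 η₁ + n.2 η₂` (`wz_add_lat` in
EllSch/Zeta, `eta`), and the linear terms change by `-(η₁ - cc)(n.1 + n.2 om) - cc (n.1 + n.2 ob)`.
The sum is `n.2 (η₂ - om η₁ + cc (om - ob)) = n.2 (η₂ - om η₁ + 2πi)` by `cc_mul`, and Legendre's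
relation says `det 1 om = η₂ - om η₁ = -2πi` (EllSch/Fix/Legendre: `det_tau` is
`det τ 1 = 2πi`; exchanging the two periods changes the sign of `det`; or `det_sq`-type lemmas; `om` has
positive imaginary part; the exchange of the two periods is a reindexing `Prod.swap` of the
series `wz`, hence `eta1 b a = eta2 a b` and so on).
*Odd*: `wz_neg`. `Z_two`: if `2 u ∈ O` then `Z(-u) = Z(u)` by periodicity, so `Z u = 0`.
*Derivative*: `hasDerivAt_wz : ζ' = -℘`, restricted to a real derivative, and `cj` is real linear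
with derivative `conjCLE`; near `u ∉ O` the function `Z` is the first branch (`isOpen_off`).
*Bounds near 0*: `tendsto_wz_sub` (`ζ(u) - 1/u → 0`), `tendsto_wp_sub` in EllSch/Add.
*Measurability*: `Z`, `P`, `P1` are continuous on the open set `{u | Ofl u}` and constant on its
complement (a closed countable set); e.g. `measurable_of_continuousOn_compl_singleton`-like
argument: `Measurable.ite`/`piecewise` with `ContinuousOn.measurable_piecewise`.
-/

open Filter Topology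

namespace UQO

variable [Lt]

/-- Legendre's relation for the periods `1, om` -/
lemma ZBas_leg : Pool.Agent.EllSch.eta2 1 om - om * Pool.Agent.EllSch.eta1 1 om =
    -(2 * Real.pi * Complex.I) := by
  have him : 0 < (om : ℂ).im := om_pos
  have h1 : Pool.Agent.EllSch.det om 1 = 2 * Real.pi * Complex.I :=
    Pool.Agent.EllSch.Legendre.det_tau ⟨om, him⟩
  have h2 : Pool.Agent.EllSch.det om (-1) = Pool.Agent.EllSch.det (-om) 1 := by
    have := Pool.Agent.EllSch.Legendre.det_smul (a := -om) (b := 1) (c := -1) (by norm_num)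
    simpa using this
  rw [Pool.Agent.EllSch.Legendre.det_neg_left, h1] at h2
  have e1 := Pool.Agent.EllSch.eta1_change (a := 1) (b := om) (p := 0) (q := 1) (r := -1) (s := 0)
    ind (by norm_num)
  have e2 := Pool.Agent.EllSch.eta2_change (a := 1) (b := om) (p := 0) (q := 1) (r := -1) (s := 0)
    ind (by norm_num)
  have a1 : ((0 : ℤ) : ℂ) * 1 + ((1 : ℤ) : ℂ) * om = om := by push_cast; ring
  have a2 : ((-1 : ℤ) : ℂ) * 1 + ((0 : ℤ) : ℂ) * om = -1 := by push_cast; ring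
  rw [a1, a2] at e1 e2
  push_cast at e1 e2
  unfold Pool.Agent.EllSch.det at h2
  rw [e1, e2] at h2
  linear_combination h2

lemma ZBas_ofl_add (u : ℂ) (n : ℤ × ℤ) : Ofl (u + xx n) ↔ Ofl u := by
  unfold Ofl
  rw [← lat_eq]
  exact Pool.Agent.EllSch.off_add_lat n

lemma ZBas_ofl_neg (u : ℂ) : Ofl (-u) ↔ Ofl u := Pool.Agent.EllSch.off_neg

lemma ZBas_open : IsOpen {u : ℂ | Ofl u} := Pool.Agent.EllSch.isOpen_off ind

lemma ZBas_pos {u : ℂ} (h : Ofl u) : Z u =
    Pool.Agent.EllSch.wz 1 om u - (Pool.Agent.EllSch.eta1 1 om - cc) * u - cc * cj u := by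
  unfold Z
  rw [if_pos h]

theorem Z_per : Per Z := by
  intro u n
  have hO := ZBas_ofl_add u n
  by_cases h : Ofl u
  · rw [ZBas_pos (hO.2 h), ZBas_pos h]
    have h1 := Pool.Agent.EllSch.wz_add_lat ind h n
    rw [lat_eq] at h1
    rw [h1, cj_add, cj_xx]
    unfold Pool.Agent.EllSch.eta
    rw [xx_def]
    have hL := ZBas_leg
    have hc := cc_mul
    linear_combination (n.2 : ℂ) * hL + (n.2 : ℂ) * hc
  · unfold Z
    rw [if_neg (fun h' => h (hO.1 h')), if_neg h]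

theorem Z_neg (u : ℂ) : Z (-u) = -Z u := by
  have hO := ZBas_ofl_neg u
  by_cases h : Ofl u
  · rw [ZBas_pos (hO.2 h), ZBas_pos h, Pool.Agent.EllSch.wz_neg, cj_neg]
    ring
  · unfold Z
    rw [if_neg (fun h' => h (hO.1 h')), if_neg h, neg_zero]

theorem Z_lat {u : ℂ} (h : ¬ Ofl u) : Z u = 0 := by
  unfold Z
  rw [if_neg h]

theorem Z_two {u : ℂ} (h : ¬ Ofl (2 * u)) : Z u = 0 := by
  obtain ⟨n, hn⟩ := (not_ofl_iff _).1 h
  have h1 := Z_per (-u) n
  have h2 : -u + xx n = u := by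
    rw [← hn]
    ring
  rw [h2, Z_neg] at h1
  linear_combination h1 / 2

theorem Z_deriv {u : ℂ} (hu : Ofl u) :
    HasFDerivAt Z (wl (-P u - (Pool.Agent.EllSch.eta1 1 om - cc)) (-cc)) u := by
  have h1 : HasDerivAt (fun w => Pool.Agent.EllSch.wz 1 om w -
      (Pool.Agent.EllSch.eta1 1 om - cc) * w) (-P u - (Pool.Agent.EllSch.eta1 1 om - cc)) u := by
    have h := (Pool.Agent.EllSch.hasDerivAt_wz ind hu).sub
      ((hasDerivAt_id u).const_mul (Pool.Agent.EllSch.eta1 1 om - cc))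
    rw [mul_one] at h
    exact h
  have h2 := h1.complexToReal_fderiv
  have h3 : HasFDerivAt (fun w : ℂ => (cc : ℂ) * cj w)
      ((cc : ℂ) • (Complex.conjCLE : ℂ →L[ℝ] ℂ)) u :=
    (Complex.conjCLE.hasFDerivAt (x := u)).const_smul (cc : ℂ)
  have h4 := h2.sub h3
  have h5 : Z =ᶠ[𝓝 u] fun w => Pool.Agent.EllSch.wz 1 om w -
      (Pool.Agent.EllSch.eta1 1 om - cc) * w - (cc : ℂ) * cj w := by
    filter_upwards [ZBas_open.mem_nhds hu] with w hw
    exact ZBas_pos hw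
  refine (h4.congr_of_eventuallyEq h5).congr_fderiv ?_
  unfold wl
  ext
  · simp
    ring

lemma ZBas_eventually : ∀ᶠ u in 𝓝[≠] (0 : ℂ), Ofl u := Pool.Agent.EllSch.Basic.eventually_off ind 0

lemma ZBas_bound {f : ℂ → ℂ} (h : Tendsto f (𝓝[≠] 0) (𝓝 0)) :
    ∃ C r : ℝ, 0 < r ∧ ∀ u : ℂ, u ≠ 0 → ‖u‖ < r → ‖f u‖ ≤ C := by
  have h1 : ∀ᶠ u in 𝓝[≠] (0 : ℂ), ‖f u‖ < 1 := by
    have h2 := h.norm
    rw [norm_zero] at h2
    exact h2.eventually (gt_mem_nhds one_pos)
  rw [eventually_nhdsWithin_iff, Metric.eventually_nhds_iff] at h1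
  obtain ⟨r, hr, h3⟩ := h1
  refine ⟨1, r, hr, fun u hu hur => (h3 ?_ hu).le⟩
  rwa [dist_zero_right]

theorem Z_near : ∃ C r : ℝ, 0 < r ∧ ∀ u : ℂ, u ≠ 0 → ‖u‖ < r → ‖Z u - 1 / u‖ ≤ C := by
  apply ZBas_bound (f := fun u => Z u - 1 / u)
  have h1 := Pool.Agent.EllSch.Add.tendsto_wz_sub ind
  have h2 : Tendsto (fun u : ℂ => (Pool.Agent.EllSch.eta1 1 om - cc) * u + cc * cj u)
      (𝓝[≠] 0) (𝓝 0) := by
    have h3 : Continuous (fun u : ℂ => (Pool.Agent.EllSch.eta1 1 om - cc) * u + cc * cj u) := by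
      have : Continuous (fun u : ℂ => cj u) := Complex.continuous_conj
      fun_prop
    have h4 := (h3.tendsto 0).mono_left (nhdsWithin_le_nhds (s := {0}ᶜ))
    simpa using h4
  have h5 := h1.sub h2
  rw [sub_zero] at h5
  refine h5.congr' ?_
  filter_upwards [ZBas_eventually] with u hu
  rw [ZBas_pos hu]
  ring

theorem P_near : ∃ C r : ℝ, 0 < r ∧ ∀ u : ℂ, u ≠ 0 → ‖u‖ < r → ‖P u - 1 / u ^ 2‖ ≤ C :=
  ZBas_bound (Pool.Agent.EllSch.Add.tendsto_wp_sub ind)

open Classical in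
lemma ZBas_meas {f : ℂ → ℂ} (h : ∀ u, Ofl u → ContinuousAt f u) (c : ℂ)
    (h0 : ∀ u, ¬ Ofl u → f u = c) : Measurable f := by
  have h1 : ContinuousOn f {u | Ofl u} := fun u hu => (h u hu).continuousWithinAt
  have h2 : ContinuousOn f {u | Ofl u}ᶜ :=
    continuousOn_const.congr (f := fun _ => c) fun u hu => h0 u hu
  have h3 := h1.measurable_piecewise h2 ZBas_open.measurableSet
  rwa [Set.piecewise_same] at h3

theorem Z_meas : Measurable Z :=
  ZBas_meas (fun _ hu => (Z_deriv hu).continuousAt) 0 fun _ hu => Z_lat hu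

theorem P_meas : Measurable P := by
  apply ZBas_meas (fun u hu => (Pool.Agent.EllSch.hasDerivAt_wp ind hu).continuousAt) (P 0)
  intro u hu
  obtain ⟨n, rfl⟩ := (not_ofl_iff _).1 hu
  have := Pool.Agent.EllSch.wp_add_lat ind 0 n
  rw [lat_eq, zero_add] at this
  exact this

theorem P1_meas : Measurable P1 := by
  apply ZBas_meas (fun u hu => (Pool.Agent.EllSch.hasDerivAt_wq ind hu).continuousAt) (P1 0)
  intro u hu
  obtain ⟨n, rfl⟩ := (not_ofl_iff _).1 hu
  have := Pool.Agent.EllSch.wq_add_lat ind 0 n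
  rw [lat_eq, zero_add] at this
  exact this

end UQO
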