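import Mathlib
import Pool.Agent.UQO.ZBas
import Pool.Agent.UQO.Tor

/-!
# UQO/ZInt: bounds and integrability of `Z` on the torus

PROOF. For `x : E` let `s, t ∈ [-1/2, 1/2]` be representatives of `x.1`, `x.2` with `|s| = ‖x.1‖`,
`|t| = ‖x.2‖` (`UnitAddCircle.norm_eq`: `s = r - round r`), `u = s + t om`; `Z (cu x) = Z u` by
periodicity. `|s| + |t| ≤ c |u|` (`ZInt_norm_ge`). The only
lattice point in the compact set `K = {s + t om : |s|, |t| ≤ 1/2}` is `0`, so `Z` is bounded on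
`K ∩ {|u| ≥ r}` (continuity, `Z_deriv`), and `|Z u| ≤ 1/|u| + C` for `|u| < r` (`Z_near`). As
`‖x.1‖ + ‖x.2‖ ≤ 1` this gives `Z_bound`; `P_bound` in the same way.
`norm_int`: `1/(a + b) ≤ a^(-1/2) b^(-1/2)` for `a, b > 0`, and `‖x.1‖^(-1/2)` is integrable on
`UnitAddCircle` (in the coordinate `s ∈ (-1/2, 1/2]`: `|s|^(-1/2)`), product of integrable functions;
points with `x.1 = 0` or `x.2 = 0` form a null set.
`Z_int2`: let `δ > 0` be the distance in `E` of `pr (-a)` and `pr (-b)`; at each `x` at least one of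
`x + pr a`, `x + pr b` has `‖·.1‖ + ‖·.2‖ ≥ δ/2`, where `|Z| ≤ 2 C/δ`; so the product is
`≤ (2C/δ) (|Z(cu x + a)| + |Z(cu x + b)|)`.
-/

open MeasureTheory Set

namespace UQO

variable [Lt]

/-- a representative of smallest absolute value -/
lemma ZInt_rep (a : UnitAddCircle) : ∃ r : ℝ, (r : UnitAddCircle) = a ∧ |r| = ‖a‖ ∧ |r| ≤ 1 / 2 := by
  obtain ⟨r, rfl⟩ := QuotientAddGroup.mk_surjective a
  refine ⟨r - round r, ?_, ?_, abs_sub_round r⟩
  · rw [AddCircle.coe_sub]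
    have h : (((round r : ℤ) : ℝ) : UnitAddCircle) = 0 := by
      rw [AddCircle.coe_eq_zero_iff]
      exact ⟨round r, by simp⟩
    rw [h, sub_zero]
  · exact (UnitAddCircle.norm_eq (x := r)).symm

/-- the constant of `ZInt_norm_ge` -/
noncomputable def ZInt_c : ℝ := 1 + (|(om : ℂ).re| + 1) / (om : ℂ).im

lemma ZInt_c_pos : 0 < ZInt_c := by
  have h := om_pos
  have h2 := abs_nonneg (om : ℂ).re
  unfold ZInt_c
  positivity

lemma ZInt_norm_ge (s t : ℝ) : |s| + |t| ≤ ZInt_c * ‖(s : ℂ) + (t : ℂ) * om‖ := by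
  set u : ℂ := (s : ℂ) + (t : ℂ) * om with hu
  have hy := om_pos
  have h1 : |t| * (om : ℂ).im ≤ ‖u‖ := by
    have h := Complex.abs_im_le_norm u
    rw [hu, Tor_im, abs_mul, abs_of_pos hy] at h
    exact h
  have h2 : |s + t * (om : ℂ).re| ≤ ‖u‖ := by
    have h := Complex.abs_re_le_norm u
    rw [hu, Tor_re] at h
    exact h
  have h3 : |t| ≤ ‖u‖ / (om : ℂ).im := by
    rw [le_div_iff₀ hy]
    exact h1
  have h4 : |s| ≤ ‖u‖ + |t| * |(om : ℂ).re| := by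
    have h5 : |s| ≤ |s + t * (om : ℂ).re| + |t * (om : ℂ).re| := by
      have := abs_sub (s + t * (om : ℂ).re) (t * (om : ℂ).re)
      rwa [add_sub_cancel_right] at this
    rw [abs_mul] at h5
    linarith
  have h6 : |t| * |(om : ℂ).re| ≤ ‖u‖ / (om : ℂ).im * |(om : ℂ).re| :=
    mul_le_mul_of_nonneg_right h3 (abs_nonneg _)
  have h7 : ZInt_c * ‖u‖ = ‖u‖ + ‖u‖ / (om : ℂ).im * |(om : ℂ).re| + ‖u‖ / (om : ℂ).im := by
    unfold ZInt_c
    ring
  rw [h7]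
  linarith

/-- a point of the symmetric cell which is in the lattice is `0` -/
lemma ZInt_cell {s t : ℝ} (hs : |s| ≤ 1 / 2) (ht : |t| ≤ 1 / 2)
    (h : (s : ℂ) + (t : ℂ) * om ≠ 0) : Ofl ((s : ℂ) + (t : ℂ) * om) := by
  rw [ofl_iff]
  intro n hn
  apply h
  have h2 := congrArg Complex.im hn
  have h1 := congrArg Complex.re hn
  rw [Tor_im, xx_im] at h2
  rw [Tor_re, xx_re] at h1
  have e2 : t = n.2 := mul_right_cancel₀ om_im_ne h2
  have e1 : s = n.1 := by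
    rw [e2] at h1
    linarith
  have f1 : n.1 = 0 := by
    rw [e1] at hs
    have : |(n.1 : ℝ)| < 1 := by linarith
    have : |n.1| < 1 := by exact_mod_cast this
    exact Int.abs_lt_one_iff.mp this
  have f2 : n.2 = 0 := by
    rw [e2] at ht
    have : |(n.2 : ℝ)| < 1 := by linarith
    have : |n.2| < 1 := by exact_mod_cast this
    exact Int.abs_lt_one_iff.mp this
  rw [e1, e2, f1, f2]
  simp

/-- the compact cell -/
def ZInt_K (r : ℝ) : Set ℂ :=
  (fun p : ℝ × ℝ => (p.1 : ℂ) + (p.2 : ℂ) * om) '' (Icc (-(1 / 2)) (1 / 2) ×ˢ Icc (-(1 / 2)) (1 / 2)) ∩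
    {u | r ≤ ‖u‖}

lemma ZInt_K_compact (r : ℝ) : IsCompact (ZInt_K r) := by
  refine IsCompact.inter_right ?_ (isClosed_le continuous_const continuous_norm)
  refine (isCompact_Icc.prod isCompact_Icc).image ?_
  fun_prop

lemma ZInt_mem {s t r : ℝ} (hs : |s| ≤ 1 / 2) (ht : |t| ≤ 1 / 2)
    (h : r ≤ ‖(s : ℂ) + (t : ℂ) * om‖) : (s : ℂ) + (t : ℂ) * om ∈ ZInt_K r :=
  ⟨⟨(s, t), ⟨abs_le.mp hs, abs_le.mp ht⟩, rfl⟩, h⟩

lemma ZInt_K_ofl {r : ℝ} (hr : 0 < r) {u : ℂ} (hu : u ∈ ZInt_K r) : Ofl u := by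
  obtain ⟨⟨⟨s, t⟩, ⟨h1, h2⟩, rfl⟩, h3⟩ := hu
  refine ZInt_cell (abs_le.mpr h1) (abs_le.mpr h2) ?_
  intro h0
  have h4 : r ≤ ‖(s : ℂ) + (t : ℂ) * om‖ := h3
  rw [h0, norm_zero] at h4
  linarith

/-- general bound: `F` periodic, continuous off the lattice, `O(|u|^(-k))` at `0` -/
lemma ZInt_gen {F : ℂ → ℂ} (hP : Per F) (hc : ∀ u, Ofl u → ContinuousAt F u) (k : ℕ)
    {C0 r : ℝ} (hr : 0 < r)
    (h0 : ∀ u : ℂ, u ≠ 0 → ‖u‖ < r → ‖F u - 1 / u ^ k‖ ≤ C0) :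
    ∃ C : ℝ, 0 ≤ C ∧ ∀ x : E, x ≠ 0 → ‖F (cu x)‖ ≤ C / (‖x.1‖ + ‖x.2‖) ^ k := by
  have hcont : ContinuousOn F (ZInt_K r) := fun u hu =>
    (hc u (ZInt_K_ofl hr hu)).continuousWithinAt
  obtain ⟨M, hM⟩ := (ZInt_K_compact r).exists_bound_of_continuousOn hcont
  have hcp := ZInt_c_pos
  refine ⟨ZInt_c ^ k + |C0| + |M|, by positivity, fun x hx => ?_⟩
  obtain ⟨s, hs, hs1, hs2⟩ := ZInt_rep x.1
  obtain ⟨t, ht, ht1, ht2⟩ := ZInt_rep x.2
  set u : ℂ := (s : ℂ) + (t : ℂ) * om with hu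
  have hpr : pr u = x := by
    rw [hu, pr_st, hs, ht]
  have hF : F (cu x) = F u := by rw [← hpr]; exact per_pr hP u
  have hd0 : 0 < ‖x.1‖ + ‖x.2‖ := by
    by_contra hneg
    push Not at hneg
    have a1 := norm_nonneg x.1
    have a2 := norm_nonneg x.2
    apply hx
    exact Prod.ext (norm_eq_zero.mp (by linarith)) (norm_eq_zero.mp (by linarith))
  have hd1 : ‖x.1‖ + ‖x.2‖ ≤ 1 := by rw [← hs1, ← ht1]; linarith
  set d : ℝ := ‖x.1‖ + ‖x.2‖ with hd
  have hdk0 : 0 < d ^ k := pow_pos hd0 k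
  have hdk1 : d ^ k ≤ 1 := pow_le_one₀ hd0.le hd1
  have hge : d ≤ ZInt_c * ‖u‖ := by
    have := ZInt_norm_ge s t
    rw [hs1, ht1] at this
    exact this
  have hu0 : 0 < ‖u‖ := by
    by_contra hc
    have h0' : ‖u‖ = 0 := le_antisymm (not_lt.1 hc) (norm_nonneg _)
    rw [h0', mul_zero] at hge
    linarith
  rw [hF, le_div_iff₀ hdk0]
  rcases lt_or_ge ‖u‖ r with h | h
  · have h1 := h0 u (norm_pos_iff.mp hu0) h
    have h2 : ‖F u‖ ≤ C0 + 1 / ‖u‖ ^ k := by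
      have h3 : ‖F u‖ ≤ ‖F u - 1 / u ^ k‖ + ‖1 / u ^ k‖ := by
        have := norm_add_le (F u - 1 / u ^ k) (1 / u ^ k)
        rwa [sub_add_cancel] at this
      rw [norm_div, norm_one, norm_pow] at h3
      linarith
    have h4 : (1 / ‖u‖ ^ k) * d ^ k ≤ ZInt_c ^ k := by
      rw [div_mul_eq_mul_div, one_mul, div_le_iff₀ (pow_pos hu0 k), ← mul_pow]
      exact pow_le_pow_left₀ hd0.le hge k
    have h5 : C0 * d ^ k ≤ |C0| := by
      calc C0 * d ^ k ≤ |C0| * d ^ k := mul_le_mul_of_nonneg_right (le_abs_self _) hdk0.le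
        _ ≤ |C0| * 1 := mul_le_mul_of_nonneg_left hdk1 (abs_nonneg _)
        _ = |C0| := mul_one _
    calc ‖F u‖ * d ^ k ≤ (C0 + 1 / ‖u‖ ^ k) * d ^ k := mul_le_mul_of_nonneg_right h2 hdk0.le
      _ = C0 * d ^ k + (1 / ‖u‖ ^ k) * d ^ k := by ring
      _ ≤ |C0| + ZInt_c ^ k := add_le_add h5 h4
      _ ≤ ZInt_c ^ k + |C0| + |M| := by linarith [abs_nonneg M]
  · have h1 := hM u (ZInt_mem hs2 ht2 h)
    calc ‖F u‖ * d ^ k ≤ |M| * 1 := mul_le_mul (h1.trans (le_abs_self _)) hdk1 hdk0.le (abs_nonneg _)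
      _ ≤ ZInt_c ^ k + |C0| + |M| := by
          have : (0:ℝ) < ZInt_c ^ k := by positivity
          linarith [abs_nonneg C0]

theorem Z_bound : ∃ C : ℝ, 0 ≤ C ∧ ∀ x : E, x ≠ 0 → ‖Z (cu x)‖ ≤ C / (‖x.1‖ + ‖x.2‖) := by
  obtain ⟨C0, r, hr, h⟩ := Z_near
  obtain ⟨C, hC, hb⟩ := ZInt_gen Z_per (fun u hu => (Z_deriv hu).continuousAt) 1 hr
    (fun u h1 h2 => by rw [pow_one]; exact h u h1 h2)
  exact ⟨C, hC, fun x hx => by simpa using hb x hx⟩

lemma ZInt_P_per : Per P := by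
  intro u n
  have := Pool.Agent.EllSch.wp_add_lat ind u n
  rw [lat_eq] at this
  exact this

theorem P_bound : ∃ C : ℝ, 0 ≤ C ∧ ∀ x : E, x ≠ 0 → ‖P (cu x)‖ ≤ C / (‖x.1‖ + ‖x.2‖) ^ 2 := by
  obtain ⟨C0, r, hr, h⟩ := P_near
  exact ZInt_gen ZInt_P_per (fun u hu => (Pool.Agent.EllSch.hasDerivAt_wp ind hu).continuousAt) 2 hr h

lemma ZInt_abs_int : IntegrableOn (fun s : ℝ => |s| ^ (-(1 / 2) : ℝ)) (Ioc (-(1 / 2)) (1 / 2)) := by
  have h1 : IntervalIntegrable (fun s : ℝ => |s| ^ (-(1 / 2) : ℝ)) volume 0 (1 / 2) := by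
    have h := intervalIntegral.intervalIntegrable_rpow' (a := 0) (b := 1 / 2)
      (r := (-(1 / 2) : ℝ)) (by norm_num)
    refine h.congr ?_
    rw [uIoc_of_le (by norm_num)]
    intro s hs
    show s ^ (-(1 / 2) : ℝ) = |s| ^ (-(1 / 2) : ℝ)
    rw [abs_of_pos hs.1]
  have h2 : IntervalIntegrable (fun s : ℝ => |s| ^ (-(1 / 2) : ℝ)) volume (-(1 / 2)) 0 := by
    have h := (IntervalIntegrable.iff_comp_neg (by simp)).mp h1.symm
    simpa using h
  have h3 := h2.trans h1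
  rwa [intervalIntegrable_iff_integrableOn_Ioc_of_le (by norm_num)] at h3

lemma ZInt_circle_int : Integrable (fun a : UnitAddCircle => ‖a‖ ^ (-(1 / 2) : ℝ)) := by
  have hm : AEStronglyMeasurable (fun a : UnitAddCircle => ‖a‖ ^ (-(1 / 2) : ℝ)) volume :=
    (measurable_norm.pow_const _).aestronglyMeasurable
  rw [← (UnitAddCircle.measurePreserving_mk (-(1 / 2))).integrable_comp hm]
  have he : (-(1 / 2) : ℝ) + 1 = 1 / 2 := by norm_num
  rw [he]
  refine ZInt_abs_int.congr_fun ?_ measurableSet_Ioc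
  intro s hs
  show |s| ^ (-(1 / 2) : ℝ) = ‖(s : UnitAddCircle)‖ ^ (-(1 / 2) : ℝ)
  have : ‖(s : UnitAddCircle)‖ = |s| := by
    rw [AddCircle.norm_coe_eq_abs_iff _ one_ne_zero, abs_one]
    exact abs_le.mpr ⟨by linarith [hs.1], hs.2⟩
  rw [this]

lemma ZInt_ae_ne : ∀ᵐ a : UnitAddCircle, a ≠ 0 := by
  rw [ae_iff]
  have : {a : UnitAddCircle | ¬ a ≠ 0} = {0} := by ext a; simp
  rw [this, ← Metric.closedBall_zero, AddCircle.volume_closedBall]
  simp

theorem norm_int : Integrable (fun x : E => 1 / (‖x.1‖ + ‖x.2‖)) := by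
  have h := ZInt_circle_int.mul_prod ZInt_circle_int
  refine Integrable.mono' h ?_ ?_
  · have : Measurable (fun x : E => 1 / (‖x.1‖ + ‖x.2‖)) := by fun_prop
    exact this.aestronglyMeasurable
  · have h1 : ∀ᵐ x : E, x.1 ≠ 0 :=
      (Measure.quasiMeasurePreserving_fst (μ := (volume : Measure UnitAddCircle))
        (ν := (volume : Measure UnitAddCircle))).ae ZInt_ae_ne
    have h2 : ∀ᵐ x : E, x.2 ≠ 0 :=
      (Measure.quasiMeasurePreserving_snd (μ := (volume : Measure UnitAddCircle))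
        (ν := (volume : Measure UnitAddCircle))).ae ZInt_ae_ne
    filter_upwards [h1, h2] with x hx1 hx2
    have a1 : 0 < ‖x.1‖ := norm_pos_iff.mpr hx1
    have a2 : 0 < ‖x.2‖ := norm_pos_iff.mpr hx2
    rw [Real.norm_eq_abs, abs_of_pos (by positivity), Real.rpow_neg a1.le, Real.rpow_neg a2.le,
      ← mul_inv, one_div]
    refine inv_anti₀ (by positivity) ?_
    rw [← Real.sqrt_eq_rpow, ← Real.sqrt_eq_rpow]
    have b1 := Real.sq_sqrt a1.le
    have b2 := Real.sq_sqrt a2.le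
    nlinarith [sq_nonneg (√‖x.1‖ - √‖x.2‖), Real.sqrt_nonneg ‖x.1‖, Real.sqrt_nonneg ‖x.2‖]

/-- the bound of `Z_bound` holds everywhere -/
lemma ZInt_bound : ∃ C : ℝ, 0 ≤ C ∧ ∀ x : E, ‖Z (cu x)‖ ≤ C / (‖x.1‖ + ‖x.2‖) := by
  obtain ⟨C, hC, h⟩ := Z_bound
  refine ⟨C, hC, fun x => ?_⟩
  rcases eq_or_ne x 0 with rfl | hx
  · have h0 : ¬ Ofl (cu 0) := by
      rw [not_ofl_iff]
      have : pr (cu 0) = pr 0 := by
        rw [pr_cu]
        have := pr_xx 0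
        rw [xx_zero] at this
        exact this.symm
      obtain ⟨n, hn⟩ := pr_eq_iff.mp this
      exact ⟨n, by rw [hn, zero_add]⟩
    rw [Z_lat h0]
    simp
  · exact h x hx

theorem Z_int : Integrable (fun x : E => Z (cu x)) := by
  obtain ⟨C, hC, h⟩ := ZInt_bound
  refine Integrable.mono' (norm_int.const_mul C) (Z_meas.comp measurable_cu).aestronglyMeasurable ?_
  refine Filter.Eventually.of_forall fun x => ?_
  rw [mul_one_div]
  exact h x

theorem Z_shift_int (a : ℂ) : Integrable (fun x : E => Z (cu x + a)) := by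
  have : (volume : Measure E).IsAddRightInvariant := by
    show ((volume : Measure UnitAddCircle).prod
      (volume : Measure UnitAddCircle)).IsAddRightInvariant
    infer_instance
  have h := Z_int.comp_add_right (pr a)
  refine h.congr (Filter.Eventually.of_forall fun x => ?_)
  exact per_cu_add_pr Z_per x a

theorem Z_int2 {a b : ℂ} (h : Ofl (a - b)) :
    Integrable (fun x : E => ‖Z (cu x + a)‖ * ‖Z (cu x + b)‖) := by
  obtain ⟨C, hC, hb⟩ := ZInt_bound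
  set y : E := pr (a - b) with hy
  have hy0 : y ≠ 0 := by
    intro h0
    have h1 : pr (a - b) = pr 0 := by
      have := pr_xx 0
      rw [xx_zero] at this
      rw [this]
      exact h0
    obtain ⟨n, hn⟩ := pr_eq_iff.mp h1
    rw [zero_add] at hn
    exact (ofl_iff _).mp h n hn
  set δ : ℝ := ‖y.1‖ + ‖y.2‖ with hδ
  have hδ0 : 0 < δ := by
    by_contra hneg
    push Not at hneg
    have a1 := norm_nonneg y.1
    have a2 := norm_nonneg y.2
    apply hy0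
    exact Prod.ext (norm_eq_zero.mp (by linarith)) (norm_eq_zero.mp (by linarith))
  have hi := (((Z_shift_int a).norm.add (Z_shift_int b).norm).const_mul (2 * C / δ))
  have hm : AEStronglyMeasurable (fun x : E => ‖Z (cu x + a)‖ * ‖Z (cu x + b)‖) volume :=
    (Z_shift_int a).norm.aestronglyMeasurable.mul (Z_shift_int b).norm.aestronglyMeasurable
  refine Integrable.mono' hi hm (Filter.Eventually.of_forall fun x => ?_)
  rw [Real.norm_eq_abs, abs_of_nonneg (by positivity)]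
  show ‖Z (cu x + a)‖ * ‖Z (cu x + b)‖ ≤ 2 * C / δ * (‖Z (cu x + a)‖ + ‖Z (cu x + b)‖)
  have ea : Z (cu (x + pr a)) = Z (cu x + a) := per_cu_add_pr Z_per x a
  have eb : Z (cu (x + pr b)) = Z (cu x + b) := per_cu_add_pr Z_per x b
  have ba := hb (x + pr a)
  have bb := hb (x + pr b)
  rw [ea] at ba
  rw [eb] at bb
  have hsum : δ ≤ (‖(x + pr a).1‖ + ‖(x + pr a).2‖) + (‖(x + pr b).1‖ + ‖(x + pr b).2‖) := by
    have e : y = (x + pr a) - (x + pr b) := by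
      rw [hy, pr_sub]; abel
    have e1 : ‖y.1‖ ≤ ‖(x + pr a).1‖ + ‖(x + pr b).1‖ := by
      rw [e, Prod.fst_sub]; exact norm_sub_le _ _
    have e2 : ‖y.2‖ ≤ ‖(x + pr a).2‖ + ‖(x + pr b).2‖ := by
      rw [e, Prod.snd_sub]; exact norm_sub_le _ _
    rw [hδ]
    linarith
  have na := norm_nonneg (Z (cu x + a))
  have nb := norm_nonneg (Z (cu x + b))
  have hcd : 0 ≤ 2 * C / δ := by positivity
  rcases le_total (δ / 2) (‖(x + pr a).1‖ + ‖(x + pr a).2‖) with h1 | h1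
  · have h2 : ‖Z (cu x + a)‖ ≤ 2 * C / δ := by
      refine ba.trans ?_
      rw [div_le_div_iff₀ (by linarith) hδ0]
      nlinarith
    nlinarith [mul_le_mul_of_nonneg_right h2 nb, mul_nonneg hcd na]
  · have h1' : δ / 2 ≤ ‖(x + pr b).1‖ + ‖(x + pr b).2‖ := by linarith
    have h2 : ‖Z (cu x + b)‖ ≤ 2 * C / δ := by
      refine bb.trans ?_
      rw [div_le_div_iff₀ (by linarith) hδ0]
      nlinarith
    nlinarith [mul_le_mul_of_nonneg_left h2 na, mul_nonneg hcd nb]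

end UQO
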