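import Mathlib
import Pool.Agent.UQO.Tor
import Pool.Agent.EE7.TorAe

/-!
# UQO/TorAe: null sets and shears of the torus

PROOF. `ae_cu`: `{x | cu x ∈ S}` is contained in the countable set `pr '' S` (`pr (cu x) = x`), and
the Haar measure of `E` has no atoms (product of `UnitAddCircle`s). `ae_gen`: by Fubini
(`MeasureTheory.Measure.ae_prod_iff`-type lemmas, the set of non generic `q` is measurable, or
null-measurable: it is a finite union of preimages under measurable maps of the countable set
`pr '' {h | 2 h ∈ O}` (four points): `2 cu x ∈ O` iff `x ∈ pr '' (half periods)`,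
`2 (cu x + cu y) ∈ O` iff `x + y ∈` the same four points, and so on). For a fixed `x` each
condition excludes countably many `y`. Shears: `(x, y) ↦ (x, x + y)` preserves the product of Haar
measures (`measurePreserving_prod_add` or similar), translations and `x ↦ -x` preserve the
measure; `(x, y) ↦ (x + y, x - y)` is a continuous surjective endomorphism of the compact group
`E × E` (surjective because `E` is divisible), so it preserves the Haar probability measure
(`AddMonoidHom.measurePreserving`, the additive form of `MonoidHom.measurePreserving`).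
-/

open MeasureTheory Set

namespace UQO

variable [Lt]

theorem TorAe_ofl (u : ℂ) : Ofl (2 * u) ↔ pr u + pr u ≠ 0 := by
  have h1 : pr u + pr u = pr (2 * u) := by
    rw [two_mul, pr_add]
  have h2 : ¬ Ofl (2 * u) ↔ pr u + pr u = 0 := by
    rw [h1, ← Tor_pr_zero, pr_eq_iff, not_ofl_iff]
    simp only [zero_add]
  rw [← not_iff_not, h2, not_not]

theorem ofl_two_cu (x : E) : Ofl (2 * cu x) ↔ x + x ≠ 0 := by
  rw [TorAe_ofl, pr_cu]


theorem ae_cu {S : Set ℂ} (hS : S.Countable) : ∀ᵐ x : E, cu x ∉ S := by
  have h := (hS.image pr).ae_notMem (volume : Measure E)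
  filter_upwards [h] with x hx hc
  exact hx ⟨cu x, hc, pr_cu x⟩

theorem ae_two : ∀ᵐ x : E, Ofl (2 * cu x) := by
  have hS : (Set.range (fun n : ℤ × ℤ => xx n / 2)).Countable := Set.countable_range _
  filter_upwards [ae_cu hS] with x hx
  by_contra hc
  rw [not_ofl_iff] at hc
  obtain ⟨n, hn⟩ := hc
  refine hx ⟨n, ?_⟩
  show xx n / 2 = cu x
  rw [← hn]
  ring

export EE7 (mp_shear mp_swap mp_neg2 mp_shift TorAe_qfst TorAe_qsnd TorAe_hom TorAe_cont
  TorAe_surj TorAe_mp mp_t2)

/-- generic points: none of `u`, `v`, `u + v`, `u - v` is a half period -/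
def Gen (u v : ℂ) : Prop :=
  Ofl (2 * u) ∧ Ofl (2 * v) ∧ Ofl (2 * (u + v)) ∧ Ofl (2 * (u - v))

theorem ae_gen : ∀ᵐ q : E × E, Gen (cu q.1) (cu q.2) := by
  have h1 := TorAe_qfst.ae ae_two
  have h2 := TorAe_qsnd.ae ae_two
  have h3 := (TorAe_qsnd.comp mp_shear.quasiMeasurePreserving).ae ae_two
  have h4 := ((TorAe_qsnd.comp mp_shear.quasiMeasurePreserving).comp
    mp_neg2.quasiMeasurePreserving).ae ae_two
  filter_upwards [h1, h2, h3, h4] with q g1 g2 g3 g4
  refine ⟨g1, g2, ?_, ?_⟩
  · rw [TorAe_ofl, pr_add, pr_cu, pr_cu]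
    have := (ofl_two_cu _).1 g3
    exact this
  · rw [TorAe_ofl, pr_sub, pr_cu, pr_cu]
    have := (ofl_two_cu _).1 g4
    simpa [Function.comp, sub_eq_add_neg] using this

end UQO
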