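import Mathlib
import Pool.Agent.EE7.Fej
import Pool.Agent.UQO.Tor

/-!
# UQO/Fej: Fejér kernels on `E` in terms of the characters of the lattice

The kernel is that of EE7/Fej; `fourier p x.1 · fourier q x.2 = ch n (cu x)` with
`n.2 = p`, `n.1 = q` (`ch_st`).
-/

open MeasureTheory Set Filter Topology

namespace UQO

export EE7 (Fej_e Fej_e_rep Fej_k Fej_c Fej_ai Fej_c_le Fej_c_nonneg Fej_c_lim Fej_c_out Fej_sum
  ai_int ai_tendsto ai_prod)

variable [Lt]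

theorem Fej_ch (n : ℤ × ℤ) (x : E) : ch n (cu x) = Fej_e n.2 x.1 * Fej_e n.1 x.2 := by
  unfold cu
  rw [ch_st, Fej_e_rep, Fej_e_rep, ← Complex.exp_add]
  congr 1
  ring

theorem exists_kernel : ∃ (K : ℕ → E → ℝ) (s : ℕ → Finset (ℤ × ℤ)) (κ : ℕ → ℤ × ℤ → ℝ),
    AI K ∧ (∀ N n, 0 ≤ κ N n ∧ κ N n ≤ 1) ∧ (∀ n, Tendsto (fun N => κ N n) atTop (𝓝 1)) ∧
    (∀ N n, n ∉ s N → κ N n = 0) ∧
    ∀ N x, ((K N x : ℝ) : ℂ) = ∑ n ∈ s N, (κ N n : ℂ) * ch n (cu x) := by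
  refine ⟨fun N x => Fej_k N x.1 * Fej_k N x.2,
    fun N => (Finset.Icc (-(N : ℤ)) N ×ˢ Finset.Icc (-(N : ℤ)) N).image (fun q => (q.2, q.1)),
    fun N n => Fej_c N n.2 * Fej_c N n.1, ai_prod Fej_ai Fej_ai, fun N n => ⟨?_, ?_⟩,
    fun n => ?_, fun N n hn => ?_, fun N x => ?_⟩
  · exact mul_nonneg (Fej_c_nonneg _ _) (Fej_c_nonneg _ _)
  · exact mul_le_one₀ (Fej_c_le _ _) (Fej_c_nonneg _ _) (Fej_c_le _ _)
  · have := (Fej_c_lim n.2).mul (Fej_c_lim n.1)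
    rwa [mul_one] at this
  · by_cases h1 : n.2 ∈ Finset.Icc (-(N : ℤ)) N
    · by_cases h2 : n.1 ∈ Finset.Icc (-(N : ℤ)) N
      · exfalso
        apply hn
        rw [Finset.mem_image]
        exact ⟨(n.2, n.1), Finset.mem_product.2 ⟨h1, h2⟩, rfl⟩
      · show Fej_c N n.2 * Fej_c N n.1 = 0
        rw [Fej_c_out N _ h2, mul_zero]
    · show Fej_c N n.2 * Fej_c N n.1 = 0
      rw [Fej_c_out N _ h1, zero_mul]
  · rw [Finset.sum_image]
    · rw [Complex.ofReal_mul, Fej_sum, Fej_sum, Finset.sum_mul_sum, ← Finset.sum_product']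
      refine Finset.sum_congr rfl fun q _ => ?_
      rw [Fej_ch]
      push_cast
      ring
    · intro q _ r _ h
      have h1 := congrArg Prod.fst h
      have h2 := congrArg Prod.snd h
      exact Prod.ext h2 h1

end UQO
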