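import Mathlib
import Pool.Agent.UQO.Tor

/-!
# UQO/Green: Green's formula on the torus

`F` is periodic and real differentiable outside a countable set, with `dF = A du + B dū`.

PROOF. By `mp_cell`, `∫ x : E, G (cu x) = ∫_{s ∈ (0,1]} ∫_{t ∈ (0,1]} G (s + t om)` for periodic `G`
with integrable `G ∘ cu` (`per_pr`, `pr_st`, Fubini `integral_prod`, both orders).
Line in direction `1`: for all but countably many `t` the line `{s + t om}` does not meet `S`
(`t = Im u / Im om` for `u` in the countable set `S`), and for a.e. `t` the functions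
`s ↦ A (s + t om)`, `B (s + t om)` are integrable on `(0,1]` (Fubini). For such `t`,
`g(s) = F (s + t om)` has derivative `A + B` at every `s`, so
`∫₀¹ (A + B)(s + t om) ds = g 1 - g 0 = 0` (`intervalIntegral.integral_eq_sub_of_hasDerivAt`;
`xx (1, 0) = 1`). Integrate over `t`: `∫ A + ∫ B = 0`.
Line in direction `om`: `h(t) = F (s + t om)` has derivative `om A + ob B`, so
`om ∫ A + ob ∫ B = 0` (`xx (0, 1) = om`). As `om ≠ ob`, both integrals vanish.
`green_ch`: apply `green` to `F · ch (-n)`: by `ch_hasFDeriv` its derivative is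
`wl (A ch - cc xx n F ch) (B ch + cc cj (xx n) F ch)`, `|ch| = 1`.
(The product rule for `wl`: `HasFDerivAt.mul`.)
-/

open MeasureTheory Set

namespace UQO

variable [Lt]

theorem Green_cell {G : ℂ → ℂ} (hG : Per G) (s t : ℝ) :
    G (cu ((s : UnitAddCircle), (t : UnitAddCircle))) = G ((s : ℂ) + (t : ℂ) * om) := by
  rw [← pr_st, per_pr hG]

theorem Green_int {G : ℂ → ℂ} (hG : Per G) (iG : Integrable (fun x : E => G (cu x))) :
    Integrable (fun p : ℝ × ℝ => G ((p.1 : ℂ) + (p.2 : ℂ) * om))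
      ((volume.restrict (Ioc (0:ℝ) 1)).prod (volume.restrict (Ioc (0:ℝ) 1))) := by
  have h := (mp_cell.integrable_comp iG.aestronglyMeasurable).2 iG
  have h1 : ((fun x : E => G (cu x)) ∘
      (fun p : ℝ × ℝ => (((p.1 : ℝ) : UnitAddCircle), ((p.2 : ℝ) : UnitAddCircle)))) =
      (fun p : ℝ × ℝ => G ((p.1 : ℂ) + (p.2 : ℂ) * om)) := by
    funext p
    exact Green_cell hG p.1 p.2
  rw [h1] at h
  exact h

theorem Green_eq {G : ℂ → ℂ} (hG : Per G) (iG : Integrable (fun x : E => G (cu x))) :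
    ∫ x : E, G (cu x) = ∫ p : ℝ × ℝ, G ((p.1 : ℂ) + (p.2 : ℂ) * om)
      ∂((volume.restrict (Ioc (0:ℝ) 1)).prod (volume.restrict (Ioc (0:ℝ) 1))) := by
  have h := integral_map (μ := (volume.restrict (Ioc (0:ℝ) 1)).prod (volume.restrict (Ioc (0:ℝ) 1)))
    mp_cell.measurable.aemeasurable (f := fun x : E => G (cu x))
    (by rw [mp_cell.map_eq]; exact iG.aestronglyMeasurable)
  rw [mp_cell.map_eq] at h
  rw [h]
  congr 1
  funext p
  exact Green_cell hG p.1 p.2

theorem Green_wl (A B h : ℂ) : wl A B h = A * h + B * cj h := by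
  simp only [wl, cj, _root_.add_apply, _root_.smul_apply,
    ContinuousLinearMap.id_apply, smul_eq_mul, ContinuousLinearEquiv.coe_coe,
    Complex.conjCLE_apply]

theorem Green_one {F A B : ℂ → ℂ} {S : Set ℂ} (hF : Per F)
    (hd : ∀ u, u ∉ S → HasFDerivAt F (wl (A u) (B u)) u) (t : ℝ)
    (ht : ∀ s : ℝ, (s : ℂ) + (t : ℂ) * om ∉ S)
    (iA : Integrable (fun s : ℝ => A ((s : ℂ) + (t : ℂ) * om)) (volume.restrict (Ioc (0:ℝ) 1)))
    (iB : Integrable (fun s : ℝ => B ((s : ℂ) + (t : ℂ) * om)) (volume.restrict (Ioc (0:ℝ) 1))) :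
    ∫ s in Ioc (0:ℝ) 1, (A ((s : ℂ) + (t : ℂ) * om) + B ((s : ℂ) + (t : ℂ) * om)) = 0 := by
  rw [← intervalIntegral.integral_of_le zero_le_one]
  have hder : ∀ s ∈ uIcc (0:ℝ) 1, HasDerivAt (fun s : ℝ => F ((s : ℂ) + (t : ℂ) * om))
      (A ((s : ℂ) + (t : ℂ) * om) + B ((s : ℂ) + (t : ℂ) * om)) s := by
    intro s _
    have h1 : HasDerivAt (fun s : ℝ => (s : ℂ) + (t : ℂ) * om) 1 s :=
      (Complex.ofRealCLM.hasDerivAt (x := s)).add_const _
    have h2 := (hd _ (ht s)).comp_hasDerivAt s h1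
    rw [Green_wl, mul_one, cj_one, mul_one] at h2
    exact h2
  rw [intervalIntegral.integral_eq_sub_of_hasDerivAt hder]
  · have h := hF ((((0:ℝ)) : ℂ) + (t : ℂ) * om) (1, 0)
    have hx : xx (1, 0) = 1 := by
      rw [xx_def]
      push_cast
      ring
    rw [hx] at h
    rw [← h]
    push_cast
    ring_nf
  · rw [intervalIntegrable_iff_integrableOn_Ioc_of_le zero_le_one]
    exact iA.add iB

theorem Green_two {F A B : ℂ → ℂ} {S : Set ℂ} (hF : Per F)
    (hd : ∀ u, u ∉ S → HasFDerivAt F (wl (A u) (B u)) u) (s : ℝ)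
    (hs : ∀ t : ℝ, (s : ℂ) + (t : ℂ) * om ∉ S)
    (iA : Integrable (fun t : ℝ => A ((s : ℂ) + (t : ℂ) * om)) (volume.restrict (Ioc (0:ℝ) 1)))
    (iB : Integrable (fun t : ℝ => B ((s : ℂ) + (t : ℂ) * om)) (volume.restrict (Ioc (0:ℝ) 1))) :
    ∫ t in Ioc (0:ℝ) 1, (om * A ((s : ℂ) + (t : ℂ) * om) + ob * B ((s : ℂ) + (t : ℂ) * om)) = 0 := by
  rw [← intervalIntegral.integral_of_le zero_le_one]
  have hder : ∀ t ∈ uIcc (0:ℝ) 1, HasDerivAt (fun t : ℝ => F ((s : ℂ) + (t : ℂ) * om))
      (om * A ((s : ℂ) + (t : ℂ) * om) + ob * B ((s : ℂ) + (t : ℂ) * om)) t := by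
    intro t _
    have h0 : HasDerivAt (fun t : ℝ => (t : ℂ) * om) (1 * om) t :=
      (Complex.ofRealCLM.hasDerivAt (x := t)).mul_const _
    have h1 : HasDerivAt (fun t : ℝ => (s : ℂ) + (t : ℂ) * om) (1 * om) t :=
      h0.const_add _
    have h2 := (hd _ (hs t)).comp_hasDerivAt t h1
    rw [one_mul, Green_wl, cj_om, mul_comm _ om, mul_comm _ ob] at h2
    exact h2
  rw [intervalIntegral.integral_eq_sub_of_hasDerivAt hder]
  · have h := hF ((s : ℂ) + (((0:ℝ)) : ℂ) * om) (0, 1)
    have hx : xx (0, 1) = om := by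
      rw [xx_def]
      push_cast
      ring
    rw [hx] at h
    rw [← h]
    push_cast
    ring_nf
  · rw [intervalIntegrable_iff_integrableOn_Ioc_of_le zero_le_one]
    exact (iA.const_mul om).add (iB.const_mul ob)

theorem Green_cnt {S : Set ℂ} (hS : S.Countable) (f : ℂ → ℝ) :
    ∀ᵐ t ∂(volume.restrict (Ioc (0:ℝ) 1)), ∀ u ∈ S, f u ≠ t := by
  have h := (hS.image f).ae_notMem (volume.restrict (Ioc (0:ℝ) 1))
  filter_upwards [h] with t ht u hu he
  exact ht ⟨u, hu, he⟩

theorem green {F A B : ℂ → ℂ} {S : Set ℂ} (hF : Per F) (hA : Per A) (hB : Per B)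
    (hS : S.Countable) (hd : ∀ u, u ∉ S → HasFDerivAt F (wl (A u) (B u)) u)
    (iA : Integrable (fun x : E => A (cu x))) (iB : Integrable (fun x : E => B (cu x))) :
    (∫ x : E, A (cu x)) = 0 ∧ (∫ x : E, B (cu x)) = 0 := by
  have jA := Green_int hA iA
  have jB := Green_int hB iB
  have h1 : (∫ x : E, A (cu x)) + (∫ x : E, B (cu x)) = 0 := by
    rw [Green_eq hA iA, Green_eq hB iB, ← integral_add jA jB]
    refine (integral_prod_symm _ (jA.add jB)).trans ?_
    simp only [Pi.add_apply]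
    have h : ∀ᵐ t : ℝ ∂(volume.restrict (Ioc (0:ℝ) 1)), (∫ s in Ioc (0:ℝ) 1,
        (A ((s : ℂ) + (t : ℂ) * om) + B ((s : ℂ) + (t : ℂ) * om))) = 0 := by
      filter_upwards [jA.prod_left_ae, jB.prod_left_ae, Green_cnt hS (fun u => u.im / (om : ℂ).im)]
        with t a1 a2 a3
      refine Green_one hF hd t (fun s hs => a3 _ hs (Tor_t s t)) a1 a2
    rw [integral_congr_ae h, integral_zero]
  have h2 : om * (∫ x : E, A (cu x)) + ob * (∫ x : E, B (cu x)) = 0 := by
    rw [Green_eq hA iA, Green_eq hB iB, ← integral_const_mul, ← integral_const_mul,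
      ← integral_add (jA.const_mul om) (jB.const_mul ob)]
    refine (integral_prod _ ((jA.const_mul om).add (jB.const_mul ob))).trans ?_
    simp only [Pi.add_apply]
    have h : ∀ᵐ s : ℝ ∂(volume.restrict (Ioc (0:ℝ) 1)), (∫ t in Ioc (0:ℝ) 1,
        (om * A ((s : ℂ) + (t : ℂ) * om) + ob * B ((s : ℂ) + (t : ℂ) * om))) = 0 := by
      filter_upwards [jA.prod_right_ae, jB.prod_right_ae,
        Green_cnt hS (fun u => u.re - u.im / (om : ℂ).im * (om : ℂ).re)] with s a1 a2 a3
      refine Green_two hF hd s (fun t ht => a3 _ ht (Tor_s s t)) a1 a2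
    rw [integral_congr_ae h, integral_zero]
  have h3 : (om - ob) * (∫ x : E, A (cu x)) = 0 := by
    linear_combination h2 - ob * h1
  have h4 : om - ob ≠ 0 := by
    intro h
    have h5 := cc_mul
    rw [h, mul_zero] at h5
    exact Complex.two_pi_I_ne_zero h5.symm
  have h5 : (∫ x : E, A (cu x)) = 0 := (mul_eq_zero.1 h3).resolve_left h4
  refine ⟨h5, ?_⟩
  rw [h5, zero_add] at h1
  exact h1

theorem Green_mul {G : ℂ → ℂ} (iG : Integrable (fun x : E => G (cu x))) (n : ℤ × ℤ) :
    Integrable (fun x : E => G (cu x) * ch n (cu x)) := by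
  have h := iG.bdd_mul (c := 1) (f := fun x : E => ch n (cu x))
    (continuous_ch_cu n).aestronglyMeasurable
    (Filter.Eventually.of_forall fun x => (norm_ch n (cu x)).le)
  refine h.congr (Filter.Eventually.of_forall fun x => ?_)
  exact mul_comm _ _

theorem green_ch {F A B : ℂ → ℂ} {S : Set ℂ} (hF : Per F) (hA : Per A) (hB : Per B)
    (hS : S.Countable) (hd : ∀ u, u ∉ S → HasFDerivAt F (wl (A u) (B u)) u)
    (iF : Integrable (fun x : E => F (cu x)))
    (iA : Integrable (fun x : E => A (cu x))) (iB : Integrable (fun x : E => B (cu x)))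
    (n : ℤ × ℤ) :
    fc A n = cc * mm n * fc F n ∧ fc B n = -(cc * cj (mm n) * fc F n) := by
  have kF := Green_mul iF (-n)
  have kA := Green_mul iA (-n)
  have kB := Green_mul iB (-n)
  have key := green (F := fun u => F u * ch (-n) u)
    (A := fun u => A u * ch (-n) u + (cc * mm (-n)) * (F u * ch (-n) u))
    (B := fun u => B u * ch (-n) u + (-(cc * cj (mm (-n)))) * (F u * ch (-n) u)) (S := S)
    (fun u m => by simp only [hF u m, ch_per (-n) u m])
    (fun u m => by simp only [hF u m, hA u m, ch_per (-n) u m])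
    (fun u m => by simp only [hF u m, hB u m, ch_per (-n) u m]) hS
    (fun u hu => by
      have h := (hd u hu).mul (ch_hasFDeriv (-n) u)
      refine h.congr_fderiv ?_
      ext1 z
      simp only [_root_.add_apply, _root_.smul_apply, Green_wl, smul_eq_mul]
      ring)
    (kA.add (kF.const_mul _)) (kB.add (kF.const_mul _))
  obtain ⟨k1, k2⟩ := key
  rw [integral_add kA (kF.const_mul _), integral_const_mul] at k1
  rw [integral_add kB (kF.const_mul _), integral_const_mul] at k2
  unfold fc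
  rw [mm_neg] at k1 k2
  rw [cj_neg] at k2
  constructor
  · linear_combination k1
  · linear_combination k2

end UQO
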