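import Mathlib
import Pool.Agent.UQO.Green
import Pool.Agent.UQO.ZInt

/-!
# UQO/LInt: integrability on the torus from local bounds

A measurable periodic function with `‖G u‖ ≤ C ‖u - s‖ ^ (-3/2)` near every point `s` (away from `s`)
is integrable on the torus.
-/

open MeasureTheory Set Filter Topology

namespace UQO

lemma LInt_one (s δ : ℝ) (hδ : 0 < δ) :
    IntegrableOn (fun x : ℝ => |x - s| ^ (-(3 / 4) : ℝ)) (Ioo (s - δ) (s + δ)) := by
  have h1 : IntervalIntegrable (fun x : ℝ => |x| ^ (-(3 / 4) : ℝ)) volume 0 δ := by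
    have h := intervalIntegral.intervalIntegrable_rpow' (a := 0) (b := δ)
      (r := (-(3 / 4) : ℝ)) (by norm_num)
    refine h.congr ?_
    rw [uIoc_of_le hδ.le]
    intro x hx
    show x ^ (-(3 / 4) : ℝ) = |x| ^ (-(3 / 4) : ℝ)
    rw [abs_of_pos hx.1]
  have h2 : IntervalIntegrable (fun x : ℝ => |x| ^ (-(3 / 4) : ℝ)) volume (-δ) 0 := by
    have h := (IntervalIntegrable.iff_comp_neg (by simp)).mp h1.symm
    simpa using h
  have h3 := h2.trans h1
  have h4 := h3.comp_sub_right s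
  rw [intervalIntegrable_iff_integrableOn_Ioo_of_le (by linarith)] at h4
  have e1 : -δ + s = s - δ := by ring
  have e2 : δ + s = s + δ := by ring
  rwa [e1, e2] at h4

lemma LInt_ae (s : ℝ) (μ : Measure ℝ) [NullSingletonClass μ] : ∀ᵐ x ∂μ, x ≠ s := by
  rw [ae_iff]
  have : {a : ℝ | ¬ a ≠ s} = {s} := by ext a; simp
  rw [this]
  exact measure_singleton s

lemma LInt_two (s t δ : ℝ) (hδ : 0 < δ) :
    Integrable (fun p : ℝ × ℝ => |p.1 - s| ^ (-(3 / 4) : ℝ) * |p.2 - t| ^ (-(3 / 4) : ℝ))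
      ((volume : Measure (ℝ × ℝ)).restrict
        (Ioo (s - δ) (s + δ) ×ˢ Ioo (t - δ) (t + δ))) := by
  rw [Measure.volume_eq_prod, ← Measure.prod_restrict]
  exact (LInt_one s δ hδ).mul_prod (LInt_one t δ hδ)

variable [Lt]

lemma LInt_loc {G : ℂ → ℂ} (hm : Measurable G) (s t : ℝ)
    (h : ∃ C r : ℝ, 0 < r ∧ ∀ u : ℂ, u ≠ (s : ℂ) + (t : ℂ) * om →
      ‖u - ((s : ℂ) + (t : ℂ) * om)‖ < r →
      ‖G u‖ ≤ C * ‖u - ((s : ℂ) + (t : ℂ) * om)‖ ^ (-(3 / 2) : ℝ)) :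
    IntegrableAtFilter (fun p : ℝ × ℝ => G ((p.1 : ℂ) + (p.2 : ℂ) * om)) (𝓝 (s, t)) := by
  obtain ⟨C, r, hr, hb⟩ := h
  have hc := ZInt_c_pos
  set δ : ℝ := r / (2 * (1 + ‖(om : ℂ)‖)) with hδd
  have hom := norm_nonneg (om : ℂ)
  have hδ : 0 < δ := by positivity
  refine ⟨Ioo (s - δ) (s + δ) ×ˢ Ioo (t - δ) (t + δ),
    prod_mem_nhds (Ioo_mem_nhds (by linarith) (by linarith))
      (Ioo_mem_nhds (by linarith) (by linarith)), ?_⟩
  have hmaj := (LInt_two s t δ hδ).const_mul (|C| * ZInt_c ^ (3 / 2 : ℝ))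
  refine Integrable.mono' hmaj ?_ ?_
  · refine Measurable.aestronglyMeasurable ?_
    exact hm.comp (by fun_prop)
  · have h1 : ∀ᵐ p : ℝ × ℝ, p.1 ≠ s :=
      (Measure.quasiMeasurePreserving_fst (μ := (volume : Measure ℝ))
        (ν := (volume : Measure ℝ))).ae (LInt_ae s volume)
    have h2 : ∀ᵐ p : ℝ × ℝ, p.2 ≠ t :=
      (Measure.quasiMeasurePreserving_snd (μ := (volume : Measure ℝ))
        (ν := (volume : Measure ℝ))).ae (LInt_ae t volume)
    rw [ae_restrict_iff' (measurableSet_Ioo.prod measurableSet_Ioo)]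
    filter_upwards [h1, h2] with p hp1 hp2 hp
    set a : ℝ := p.1 - s with ha
    set b : ℝ := p.2 - t with hb'
    have ha0 : a ≠ 0 := sub_ne_zero.2 hp1
    have hb0 : b ≠ 0 := sub_ne_zero.2 hp2
    have hpa : 0 < |a| := abs_pos.2 ha0
    have hpb : 0 < |b| := abs_pos.2 hb0
    have hal : |a| < δ := by
      rw [abs_lt]
      obtain ⟨⟨q1, q2⟩, -⟩ := hp
      constructor <;> linarith
    have hbl : |b| < δ := by
      rw [abs_lt]
      obtain ⟨-, ⟨q1, q2⟩⟩ := hp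
      constructor <;> linarith
    have e : ((p.1 : ℂ) + (p.2 : ℂ) * om) - ((s : ℂ) + (t : ℂ) * om) = (a : ℂ) + (b : ℂ) * om := by
      rw [ha, hb']
      push_cast
      ring
    have hge := ZInt_norm_ge a b
    have hpos : 0 < ‖(a : ℂ) + (b : ℂ) * om‖ := by
      by_contra hcon
      have h0 : ‖(a : ℂ) + (b : ℂ) * om‖ = 0 := le_antisymm (not_lt.1 hcon) (norm_nonneg _)
      rw [h0, mul_zero] at hge
      linarith
    have hlt : ‖(a : ℂ) + (b : ℂ) * om‖ < r := by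
      have k1 : ‖(a : ℂ) + (b : ℂ) * om‖ ≤ |a| + |b| * ‖(om : ℂ)‖ := by
        refine (norm_add_le _ _).trans (le_of_eq ?_)
        rw [norm_mul, Complex.norm_real, Complex.norm_real, Real.norm_eq_abs, Real.norm_eq_abs]
      have k2 : |a| + |b| * ‖(om : ℂ)‖ ≤ δ * (1 + ‖(om : ℂ)‖) := by
        nlinarith
      have k3 : δ * (1 + ‖(om : ℂ)‖) = r / 2 := by
        rw [hδd]
        field_simp
      linarith
    have hG := hb ((p.1 : ℂ) + (p.2 : ℂ) * om) (by
      intro hcon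
      rw [hcon, sub_self] at e
      rw [← e, norm_zero] at hpos
      exact lt_irrefl _ hpos) (by rw [e]; exact hlt)
    rw [e] at hG
    refine hG.trans ?_
    have hz : 0 ≤ ‖(a : ℂ) + (b : ℂ) * om‖ ^ (-(3 / 2) : ℝ) := Real.rpow_nonneg hpos.le _
    have s1 : C * ‖(a : ℂ) + (b : ℂ) * om‖ ^ (-(3 / 2) : ℝ) ≤
        |C| * ‖(a : ℂ) + (b : ℂ) * om‖ ^ (-(3 / 2) : ℝ) :=
      mul_le_mul_of_nonneg_right (le_abs_self C) hz
    refine s1.trans ?_
    rw [mul_assoc]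
    refine mul_le_mul_of_nonneg_left ?_ (abs_nonneg C)
    have s2 : ‖(a : ℂ) + (b : ℂ) * om‖ ^ (-(3 / 2) : ℝ) ≤
        ((|a| + |b|) / ZInt_c) ^ (-(3 / 2) : ℝ) := by
      refine Real.rpow_le_rpow_of_nonpos (by positivity) ?_ (by norm_num)
      rw [div_le_iff₀ hc]
      linarith
    refine s2.trans ?_
    rw [Real.div_rpow (by positivity) hc.le, Real.rpow_neg hc.le, div_inv_eq_mul, mul_comm]
    refine mul_le_mul_of_nonneg_left ?_ (Real.rpow_nonneg hc.le _)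
    have s3 : (|a| + |b|) ^ (-(3 / 2) : ℝ) =
        (|a| + |b|) ^ (-(3 / 4) : ℝ) * (|a| + |b|) ^ (-(3 / 4) : ℝ) := by
      rw [← Real.rpow_add (by positivity)]
      norm_num
    rw [s3]
    refine mul_le_mul ?_ ?_ (Real.rpow_nonneg (by positivity) _) (Real.rpow_nonneg hpa.le _)
    · exact Real.rpow_le_rpow_of_nonpos hpa (by linarith) (by norm_num)
    · exact Real.rpow_le_rpow_of_nonpos hpb (by linarith) (by norm_num)

/-- integrability on the torus from local bounds -/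
theorem int_of_local {G : ℂ → ℂ} (hP : Per G) (hm : Measurable G)
    (h : ∀ s : ℂ, ∃ C r : ℝ, 0 < r ∧ ∀ u : ℂ, u ≠ s → ‖u - s‖ < r →
      ‖G u‖ ≤ C * ‖u - s‖ ^ (-(3 / 2) : ℝ)) :
    Integrable (fun x : E => G (cu x)) := by
  have hmeas : AEStronglyMeasurable (fun x : E => G (cu x)) volume :=
    (hm.comp measurable_cu).aestronglyMeasurable
  refine (mp_cell.integrable_comp hmeas).1 ?_
  have he : (fun x : E => G (cu x)) ∘
      (fun p : ℝ × ℝ => (((p.1 : ℝ) : UnitAddCircle), ((p.2 : ℝ) : UnitAddCircle))) =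
      fun p : ℝ × ℝ => G ((p.1 : ℂ) + (p.2 : ℂ) * om) := by
    funext p
    exact Green_cell hP p.1 p.2
  rw [he]
  have hloc : LocallyIntegrable (fun p : ℝ × ℝ => G ((p.1 : ℂ) + (p.2 : ℂ) * om)) volume :=
    fun p => LInt_loc hm p.1 p.2 (h _)
  have h2 := hloc.integrableOn_isCompact
    ((isCompact_Icc (a := (0 : ℝ)) (b := 1)).prod (isCompact_Icc (a := (0 : ℝ)) (b := 1)))
  have h3 : IntegrableOn (fun p : ℝ × ℝ => G ((p.1 : ℂ) + (p.2 : ℂ) * om))
      (Ioc (0 : ℝ) 1 ×ˢ Ioc (0 : ℝ) 1) volume :=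
    h2.mono_set (prod_mono Ioc_subset_Icc_self Ioc_subset_Icc_self)
  rw [IntegrableOn, Measure.volume_eq_prod, ← Measure.prod_restrict] at h3
  exact h3

end UQO
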