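import Mathlib
import Pool.Agent.EE7.BWb
import Pool.Agent.EE7.BWc
import Pool.Agent.UQO.LInt

/-!
# UQO/Lap: the Laplace equation of `BW ∘ F` for a doubly periodic meromorphic function `F`

`Ell F S`: `F` is periodic, off the locally finite set `S` it is analytic with values `≠ 0, 1`; at every
point it is a simple `1`-point at most, or a pole, or regular.
`∂ (BW ∘ F) = Q = D1 (F) F'`, `∂̄ Q = D11 (F) |F'|²`, `∂ Q = D1 (F) F'' + D2 (F) F'²`, all of them are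
`O(‖u - s‖ ^ (-3/2))` near every point `s`. Green's formula twice gives the theorem `lap`.
-/

open MeasureTheory Set Filter Topology

namespace UQO

export EE7 (BW_bdd BW_cont BW_meas BW_deriv D1_deriv D1_bound D2_bound D11_bound D1_meas D2_meas
  D11_meas)

/-! ### local estimates for an analytic function -/

/-- exponents: `1 + |log x| ≤ C x ^ (-1/2)` -/
lemma Lap_log {x : ℝ} (h0 : 0 < x) (h1 : x ≤ 1) : 1 + |Real.log x| ≤ 3 * x ^ (-(1 / 2) : ℝ) := by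
  have h2 : Real.log x ≤ 0 := Real.log_nonpos h0.le h1
  rw [abs_of_nonpos h2]
  set y : ℝ := x ^ (-(1 / 2) : ℝ) with hy
  have hy0 : 0 < y := Real.rpow_pos_of_pos h0 _
  have h3 : Real.log y = -(1 / 2) * Real.log x := Real.log_rpow h0 _
  have h4 := Real.log_le_sub_one_of_pos hy0
  have h5 : 1 ≤ y := by
    rw [hy]
    exact Real.one_le_rpow_of_pos_of_le_one_of_nonpos h0 h1 (by norm_num)
  nlinarith

/-- the two local estimates for an analytic function which is not locally zero -/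
lemma Lap_an {f : ℂ → ℂ} {s : ℂ} (hf : AnalyticAt ℂ f s) (hz : ∀ᶠ u in 𝓝[≠] s, f u ≠ 0) :
    ∃ C : ℝ, 0 ≤ C ∧ ∀ᶠ u in 𝓝[≠] s, ‖deriv f u‖ ^ 2 ≤ C * ‖f u‖ * ‖u - s‖⁻¹ ∧
      |Real.log ‖f u‖| ≤ C * ‖u - s‖ ^ (-(1 / 2) : ℝ) := by
  have hnot : ¬∀ᶠ z in 𝓝 s, f z = 0 := by
    intro h
    have h2 : ∀ᶠ u in 𝓝[≠] s, f u = 0 := h.filter_mono nhdsWithin_le_nhds
    obtain ⟨u, hu1, hu2⟩ := (hz.and h2).exists
    exact hu1 hu2
  obtain ⟨k, g, hg, hg0, hfg⟩ := hf.exists_eventuallyEq_pow_smul_nonzero_iff.2 hnot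
  -- bounds for `g`
  have hgc : ContinuousAt g s := hg.continuousAt
  have hgn : 0 < ‖g s‖ := norm_pos_iff.2 hg0
  have hglo : ∀ᶠ u in 𝓝 s, ‖g s‖ / 2 < ‖g u‖ :=
    hgc.norm.eventually (lt_mem_nhds (by linarith))
  have hghi : ∀ᶠ u in 𝓝 s, ‖g u‖ < 2 * ‖g s‖ :=
    hgc.norm.eventually (gt_mem_nhds (by linarith))
  have hg'c : ContinuousAt (deriv g) s := hg.deriv.continuousAt
  have hg'hi : ∀ᶠ u in 𝓝 s, ‖deriv g u‖ < ‖deriv g s‖ + 1 :=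
    hg'c.norm.eventually (gt_mem_nhds (by linarith))
  have hder : ∀ᶠ u in 𝓝 s, deriv f u = k * (u - s) ^ (k - 1) * g u + (u - s) ^ k * deriv g u := by
    have h1 : ∀ᶠ u in 𝓝 s, ∀ᶠ w in 𝓝 u, f w = (w - s) ^ k • g w := hfg.eventually_nhds
    filter_upwards [h1, hg.eventually_analyticAt] with u hu hgu
    have h2 : f =ᶠ[𝓝 u] fun w => (w - s) ^ k * g w := by
      filter_upwards [hu] with w hw
      rw [hw, smul_eq_mul]
    rw [h2.deriv_eq]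
    have h3 : HasDerivAt (fun w : ℂ => (w - s) ^ k) (k * (u - s) ^ (k - 1)) u := by
      have := ((hasDerivAt_id u).sub_const s).fun_pow k
      simpa using this
    have h4 := h3.mul hgu.differentiableAt.hasDerivAt
    exact h4.deriv
  have hball : ∀ᶠ u in 𝓝 s, ‖u - s‖ < 1 := by
    have := Metric.ball_mem_nhds s one_pos
    filter_upwards [this] with u hu
    rwa [Metric.mem_ball, dist_eq_norm] at hu
  set M : ℝ := k * (2 * ‖g s‖) + (‖deriv g s‖ + 1) with hM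
  have hM0 : 0 < M := by positivity
  set C1 : ℝ := M ^ 2 * (2 / ‖g s‖) with hC1
  set C2 : ℝ := 3 * k + (|Real.log (‖g s‖ / 2)| + |Real.log (2 * ‖g s‖)|) with hC2
  have hC10 : 0 ≤ C1 := by positivity
  have hC20 : 0 ≤ C2 := by positivity
  refine ⟨C1 + C2, by positivity, ?_⟩
  have hne : ∀ᶠ u in 𝓝[≠] s, u ≠ s := eventually_mem_nhdsWithin
  have all := ((((hfg.and hglo).and hghi).and hg'hi).and hder).and hball
  filter_upwards [all.filter_mono nhdsWithin_le_nhds, hne] with u hu hus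
  obtain ⟨⟨⟨⟨⟨e1, e2⟩, e3⟩, e4⟩, e5⟩, e6⟩ := hu
  set d : ℝ := ‖u - s‖ with hd
  have hd0 : 0 < d := norm_pos_iff.2 (sub_ne_zero.2 hus)
  have hfn : ‖f u‖ = d ^ k * ‖g u‖ := by
    rw [e1, norm_smul, norm_pow]
  have hdk : 0 < d ^ k := pow_pos hd0 k
  constructor
  · -- first bound
    have hf'n : ‖deriv f u‖ * d ≤ M * d ^ k := by
      rw [e5]
      have t1 : ‖(k : ℂ) * (u - s) ^ (k - 1) * g u‖ * d ≤ k * (2 * ‖g s‖) * d ^ k := by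
        rw [norm_mul, norm_mul, norm_pow, Complex.norm_natCast]
        rcases Nat.eq_zero_or_pos k with hk | hk
        · subst hk
          simp
        · have : d ^ k = d ^ (k - 1) * d := by
            rw [← pow_succ, Nat.sub_add_cancel hk]
          rw [this]
          have hdk1 : 0 < d ^ (k - 1) := pow_pos hd0 _
          calc (k : ℝ) * d ^ (k - 1) * ‖g u‖ * d = k * ‖g u‖ * (d ^ (k - 1) * d) := by ring
            _ ≤ k * (2 * ‖g s‖) * (d ^ (k - 1) * d) := by gcongr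
      have t2 : ‖(u - s) ^ k * deriv g u‖ * d ≤ (‖deriv g s‖ + 1) * d ^ k := by
        rw [norm_mul, norm_pow]
        calc d ^ k * ‖deriv g u‖ * d ≤ d ^ k * (‖deriv g s‖ + 1) * 1 := by gcongr
          _ = (‖deriv g s‖ + 1) * d ^ k := by ring
      calc ‖(k : ℂ) * (u - s) ^ (k - 1) * g u + (u - s) ^ k * deriv g u‖ * d
          ≤ (‖(k : ℂ) * (u - s) ^ (k - 1) * g u‖ + ‖(u - s) ^ k * deriv g u‖) * d :=
            mul_le_mul_of_nonneg_right (norm_add_le _ _) hd0.le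
        _ = ‖(k : ℂ) * (u - s) ^ (k - 1) * g u‖ * d + ‖(u - s) ^ k * deriv g u‖ * d := by ring
        _ ≤ k * (2 * ‖g s‖) * d ^ k + (‖deriv g s‖ + 1) * d ^ k := add_le_add t1 t2
        _ = M * d ^ k := by rw [hM]; ring
    -- for `k = 0` a better bound without `d` is needed
    have hf'2 : ‖deriv f u‖ ^ 2 * d ≤ M ^ 2 * d ^ k := by
      rcases Nat.eq_zero_or_pos k with hk | hk
      · have hb : ‖deriv f u‖ ≤ M := by
          rw [e5, hk]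
          have : ‖((0 : ℕ) : ℂ) * (u - s) ^ (0 - 1) * g u + (u - s) ^ 0 * deriv g u‖ =
              ‖deriv g u‖ := by simp
          rw [this, hM, hk]
          simp only [Nat.cast_zero, zero_mul, zero_add]
          exact e4.le
        rw [hk, pow_zero, mul_one]
        have hn := norm_nonneg (deriv f u)
        calc ‖deriv f u‖ ^ 2 * d ≤ M ^ 2 * 1 := by gcongr
          _ = M ^ 2 := mul_one _
      · have h2 : (‖deriv f u‖ * d) ^ 2 ≤ (M * d ^ k) ^ 2 :=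
          pow_le_pow_left₀ (by positivity) hf'n 2
        have h3 : d ^ k ≤ d := by
          calc d ^ k ≤ d ^ 1 := pow_le_pow_of_le_one hd0.le e6.le hk
            _ = d := pow_one d
        have h4 : ‖deriv f u‖ ^ 2 * d * d ≤ M ^ 2 * d ^ k * d := by
          calc ‖deriv f u‖ ^ 2 * d * d = (‖deriv f u‖ * d) ^ 2 := by ring
            _ ≤ (M * d ^ k) ^ 2 := h2
            _ = M ^ 2 * d ^ k * d ^ k := by ring
            _ ≤ M ^ 2 * d ^ k * d := by gcongr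
        exact le_of_mul_le_mul_right h4 hd0
    rw [hfn]
    have hgu : ‖g s‖ / 2 ≤ ‖g u‖ := e2.le
    have h5 : M ^ 2 * d ^ k ≤ C1 * (d ^ k * ‖g u‖) := by
      have : M ^ 2 * d ^ k = C1 * (d ^ k * (‖g s‖ / 2)) := by
        rw [hC1]
        field_simp
      rw [this]
      gcongr
    rw [← div_eq_mul_inv, le_div_iff₀ hd0]
    have h6 : 0 ≤ d ^ k * ‖g u‖ := by positivity
    calc ‖deriv f u‖ ^ 2 * d ≤ M ^ 2 * d ^ k := hf'2
      _ ≤ C1 * (d ^ k * ‖g u‖) := h5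
      _ ≤ (C1 + C2) * (d ^ k * ‖g u‖) := by nlinarith
  · -- the logarithm
    have hg1 : 0 < ‖g u‖ := lt_trans (by positivity) e2
    rw [hfn, Real.log_mul hdk.ne' hg1.ne', Real.log_pow]
    have h1 := Lap_log hd0 e6.le
    have hlg : |Real.log ‖g u‖| ≤ |Real.log (‖g s‖ / 2)| + |Real.log (2 * ‖g s‖)| := by
      have k1 : Real.log (‖g s‖ / 2) ≤ Real.log ‖g u‖ := Real.log_le_log (by positivity) e2.le
      have k2 : Real.log ‖g u‖ ≤ Real.log (2 * ‖g s‖) := Real.log_le_log hg1 e3.le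
      rw [abs_le]
      constructor
      · have := neg_abs_le (Real.log (‖g s‖ / 2))
        have := abs_nonneg (Real.log (2 * ‖g s‖))
        linarith
      · have := le_abs_self (Real.log (2 * ‖g s‖))
        have := abs_nonneg (Real.log (‖g s‖ / 2))
        linarith
    have hy1 : 1 ≤ d ^ (-(1 / 2) : ℝ) :=
      Real.one_le_rpow_of_pos_of_le_one_of_nonpos hd0 e6.le (by norm_num)
    set y : ℝ := d ^ (-(1 / 2) : ℝ) with hy
    set G : ℝ := |Real.log (‖g s‖ / 2)| + |Real.log (2 * ‖g s‖)| with hG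
    have hG0 : 0 ≤ G := by positivity
    have hla : |(k : ℝ) * Real.log d + Real.log ‖g u‖| ≤ k * |Real.log d| + G := by
      refine (abs_add_le _ _).trans (add_le_add ?_ hlg)
      rw [abs_mul, Nat.abs_cast]
    have hk0 : (0 : ℝ) ≤ k := Nat.cast_nonneg k
    have h7 : (k : ℝ) * |Real.log d| ≤ 3 * k * y := by
      have : |Real.log d| ≤ 3 * y := by linarith
      nlinarith
    have h8 : G ≤ G * y := by nlinarith
    have h9 : 0 ≤ C1 * y := by positivity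
    rw [hC2]
    calc |(k : ℝ) * Real.log d + Real.log ‖g u‖| ≤ k * |Real.log d| + G := hla
      _ ≤ 3 * k * y + G * y := add_le_add h7 h8
      _ ≤ (C1 + (3 * k + G)) * y := by nlinarith

/-! ### elementary facts on the exponents -/

lemma Lap_exp {d : ℝ} (h0 : 0 < d) (h1 : d ≤ 1) : 1 ≤ d ^ (-(1 / 2) : ℝ) ∧
    d ^ (-(1 / 2) : ℝ) ≤ d⁻¹ ∧ d ^ (-(3 / 2) : ℝ) = d ^ (-(1 / 2) : ℝ) * d⁻¹ := by
  refine ⟨Real.one_le_rpow_of_pos_of_le_one_of_nonpos h0 h1 (by norm_num), ?_, ?_⟩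
  · rw [← Real.rpow_neg_one]
    exact Real.rpow_le_rpow_of_exponent_ge h0 h1 (by norm_num)
  · rw [← Real.rpow_neg_one, ← Real.rpow_add h0]
    norm_num

lemma Lap_nhds {F f : ℂ → ℂ} {s : ℂ} (h : F =ᶠ[𝓝[≠] s] f) :
    ∀ᶠ u in 𝓝[≠] s, F =ᶠ[𝓝 u] f := by
  filter_upwards [eventually_eventually_nhdsWithin.2 h, self_mem_nhdsWithin] with u hu hus
  rwa [IsOpen.nhdsWithin_eq isOpen_compl_singleton hus] at hu

lemma Lap_bdd {f : ℂ → ℂ} {s : ℂ} (h : ContinuousAt f s) :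
    ∀ᶠ u in 𝓝[≠] s, ‖f u‖ ≤ ‖f s‖ + 1 := by
  have h1 : ∀ᶠ u in 𝓝 s, ‖f u‖ < ‖f s‖ + 1 := h.norm.eventually (gt_mem_nhds (by linarith))
  exact (h1.mono fun u hu => hu.le).filter_mono nhdsWithin_le_nhds

lemma Lap_ball (s : ℂ) {r : ℝ} (hr : 0 < r) : ∀ᶠ u in 𝓝[≠] s, ‖u - s‖ ≤ r ∧ 0 < ‖u - s‖ := by
  have h1 : ∀ᶠ u in 𝓝 s, ‖u - s‖ ≤ r := by
    filter_upwards [Metric.ball_mem_nhds s hr] with u hu
    rw [Metric.mem_ball, dist_eq_norm] at hu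
    exact hu.le
  filter_upwards [h1.filter_mono nhdsWithin_le_nhds, self_mem_nhdsWithin] with u hu hus
  exact ⟨hu, norm_pos_iff.2 (sub_ne_zero.2 hus)⟩

/-- real inequalities of the regular case -/
lemma Lap_real {L a b x p q w C K M : ℝ} (hL : L ≤ K * p) (hK : 0 ≤ K)
    (ha0 : 0 ≤ a) (hb0 : 0 ≤ b) (hx : 0 ≤ x) (hp : 0 ≤ p) (hpw : p ≤ w) (hpq : p * q ≤ w)
    (hq : 0 ≤ q)
    (hC : 0 ≤ C) (hM : 0 ≤ M) (ha : a ≤ M) (hb : b ≤ M) (ha2 : a ^ 2 ≤ C * x * q) :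
    L * a ≤ K * (M + C) * ((1 + x) ^ 2 * w) ∧
    L * b ≤ K * (M + C) * ((1 + x) ^ 2 * w) ∧
    L * a ^ 2 ≤ K * (M + C) * (x * (1 + x) ^ 2 * w) := by
  have hx1 : 1 ≤ (1 + x) ^ 2 := by nlinarith
  have hw : 0 ≤ w := hp.trans hpw
  have key : ∀ c : ℝ, 0 ≤ c → c ≤ M → L * c ≤ K * (M + C) * ((1 + x) ^ 2 * w) := by
    intro c hc0 hc
    calc L * c ≤ (K * p) * M := mul_le_mul hL hc hc0 (by positivity)
      _ = K * M * (1 * p) := by ring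
      _ ≤ K * (M + C) * ((1 + x) ^ 2 * w) := by gcongr; linarith
  refine ⟨key a ha0 ha, key b hb0 hb, ?_⟩
  calc L * a ^ 2 ≤ (K * p) * (C * x * q) := mul_le_mul hL ha2 (by positivity) (by positivity)
    _ = K * C * (x * 1 * (p * q)) := by ring
    _ ≤ K * C * (x * (1 + x) ^ 2 * w) := by gcongr
    _ ≤ K * (M + C) * (x * (1 + x) ^ 2 * w) := by gcongr; linarith

/-- the local bounds, regular points -/
lemma Lap_reg {f : ℂ → ℂ} {s : ℂ} (hf : AnalyticAt ℂ f s) (hz : ∀ᶠ u in 𝓝[≠] s, f u ≠ 0)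
    (h1 : f s = 1 → deriv f s ≠ 0) :
    ∃ C : ℝ, 0 ≤ C ∧ ∀ᶠ u in 𝓝[≠] s,
      (1 + |Real.log ‖f u‖| + 1 / ‖1 - f u‖) * ‖deriv f u‖ ≤
        C * ((1 + ‖f u‖) ^ 2 * ‖u - s‖ ^ (-(3 / 2) : ℝ)) ∧
      (1 + |Real.log ‖f u‖| + 1 / ‖1 - f u‖) * ‖deriv (deriv f) u‖ ≤
        C * ((1 + ‖f u‖) ^ 2 * ‖u - s‖ ^ (-(3 / 2) : ℝ)) ∧
      (1 + |Real.log ‖f u‖| + 1 / ‖1 - f u‖) * ‖deriv f u‖ ^ 2 ≤
        C * (‖f u‖ * (1 + ‖f u‖) ^ 2 * ‖u - s‖ ^ (-(3 / 2) : ℝ)) := by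
  obtain ⟨C0, hC0, hloc⟩ := Lap_an hf hz
  have hf1 := Lap_bdd hf.deriv.continuousAt
  have hf2 := Lap_bdd hf.deriv.deriv.continuousAt
  have hn1 := norm_nonneg (deriv f s)
  have hn2 := norm_nonneg (deriv (deriv f) s)
  set M : ℝ := ‖deriv f s‖ + 1 + (‖deriv (deriv f) s‖ + 1) with hM
  have hM0 : 0 ≤ M := by positivity
  by_cases hs : f s = 1
  · -- a simple `1`-point
    have hd := h1 hs
    have hc0 : 0 < ‖deriv f s‖ := norm_pos_iff.2 hd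
    have hlo : ∀ᶠ u in 𝓝 s, ‖deriv f s‖ / 2 * ‖u - s‖ ≤ ‖1 - f u‖ := by
      have h2 := hf.differentiableAt.hasDerivAt.isLittleO
      have h3 := h2.def (show 0 < ‖deriv f s‖ / 2 by positivity)
      filter_upwards [h3] with u hu
      rw [smul_eq_mul] at hu
      have h4 : ‖(u - s) * deriv f s‖ ≤ ‖f u - f s‖ + ‖f u - f s - (u - s) * deriv f s‖ := by
        have e : (u - s) * deriv f s = (f u - f s) - (f u - f s - (u - s) * deriv f s) := by ring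
        calc ‖(u - s) * deriv f s‖ = ‖(f u - f s) - (f u - f s - (u - s) * deriv f s)‖ := by
              rw [← e]
          _ ≤ _ := norm_sub_le _ _
      rw [norm_mul, hs] at h4
      rw [hs] at hu
      have h5 : ‖f u - 1‖ = ‖1 - f u‖ := norm_sub_rev _ _
      rw [h5] at h4
      nlinarith
    have hhalf : ∀ᶠ u in 𝓝 s, 1 / 2 < ‖f u‖ := by
      refine hf.continuousAt.norm.eventually (lt_mem_nhds ?_)
      show 1 / 2 < ‖f s‖
      rw [hs, norm_one]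
      norm_num
    refine ⟨(1 + C0 + 2 / ‖deriv f s‖) * (M + 2 * M ^ 2), by positivity, ?_⟩
    filter_upwards [hloc, hf1, hf2, hlo.filter_mono nhdsWithin_le_nhds,
      hhalf.filter_mono nhdsWithin_le_nhds, Lap_ball s one_pos] with u k1 k2 k3 k4 k5 k6
    obtain ⟨hd1, hd0⟩ := k6
    obtain ⟨y1, y2, y3⟩ := Lap_exp hd0 hd1
    have he : 0 < ‖u - s‖⁻¹ := inv_pos.2 hd0
    have he1 : 1 ≤ ‖u - s‖⁻¹ := y1.trans y2
    have b1 : 1 / ‖1 - f u‖ ≤ 2 / ‖deriv f s‖ * ‖u - s‖⁻¹ := by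
      calc 1 / ‖1 - f u‖ ≤ 1 / (‖deriv f s‖ / 2 * ‖u - s‖) :=
            one_div_le_one_div_of_le (by positivity) k4
        _ = 2 / ‖deriv f s‖ * ‖u - s‖⁻¹ := by field_simp
    have hL : 1 + |Real.log ‖f u‖| + 1 / ‖1 - f u‖ ≤ (1 + C0 + 2 / ‖deriv f s‖) * ‖u - s‖⁻¹ := by
      have b2 : C0 * ‖u - s‖ ^ (-(1 / 2) : ℝ) ≤ C0 * ‖u - s‖⁻¹ := mul_le_mul_of_nonneg_left y2 hC0
      have b4 := k1.2
      nlinarith
    have hw : ‖u - s‖⁻¹ ≤ ‖u - s‖ ^ (-(3 / 2) : ℝ) := by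
      rw [y3]
      nlinarith
    refine Lap_real (q := 1) hL (by positivity) (norm_nonneg _) (norm_nonneg _)
      (norm_nonneg _) he.le hw (by rw [mul_one]; exact hw) zero_le_one (by positivity) hM0
      (by linarith) (by linarith) ?_
    have b5 : ‖deriv f u‖ ≤ M := by linarith
    have b6 : ‖deriv f u‖ ^ 2 ≤ M ^ 2 := pow_le_pow_left₀ (norm_nonneg _) b5 2
    calc ‖deriv f u‖ ^ 2 ≤ M ^ 2 := b6
      _ = 2 * M ^ 2 * (1 / 2) * 1 := by ring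
      _ ≤ 2 * M ^ 2 * ‖f u‖ * 1 := by gcongr
  · -- `f s ≠ 1`
    have hc0 : 0 < ‖1 - f s‖ := norm_pos_iff.2 (sub_ne_zero.2 (Ne.symm hs))
    have hlo : ∀ᶠ u in 𝓝 s, ‖1 - f s‖ / 2 < ‖1 - f u‖ := by
      have hc : ContinuousAt (fun u => 1 - f u) s := continuousAt_const.sub hf.continuousAt
      refine hc.norm.eventually (lt_mem_nhds ?_)
      show ‖1 - f s‖ / 2 < ‖1 - f s‖
      linarith
    refine ⟨(1 + C0 + 2 / ‖1 - f s‖) * (M + C0), by positivity, ?_⟩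
    filter_upwards [hloc, hf1, hf2, hlo.filter_mono nhdsWithin_le_nhds,
      Lap_ball s one_pos] with u k1 k2 k3 k4 k6
    obtain ⟨hd1, hd0⟩ := k6
    obtain ⟨y1, y2, y3⟩ := Lap_exp hd0 hd1
    have he : 0 < ‖u - s‖⁻¹ := inv_pos.2 hd0
    have he1 : 1 ≤ ‖u - s‖⁻¹ := y1.trans y2
    have b1 : 1 / ‖1 - f u‖ ≤ 2 / ‖1 - f s‖ := by
      calc 1 / ‖1 - f u‖ ≤ 1 / (‖1 - f s‖ / 2) :=
            one_div_le_one_div_of_le (by positivity) k4.le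
        _ = 2 / ‖1 - f s‖ := by field_simp
    have hL : 1 + |Real.log ‖f u‖| + 1 / ‖1 - f u‖ ≤
        (1 + C0 + 2 / ‖1 - f s‖) * ‖u - s‖ ^ (-(1 / 2) : ℝ) := by
      have b4 := k1.2
      have b7 : 2 / ‖1 - f s‖ ≤ 2 / ‖1 - f s‖ * ‖u - s‖ ^ (-(1 / 2) : ℝ) := by
        have : 0 ≤ 2 / ‖1 - f s‖ := by positivity
        nlinarith
      nlinarith
    refine Lap_real (q := ‖u - s‖⁻¹) hL (by positivity) (norm_nonneg _)
      (norm_nonneg _) (norm_nonneg _) (by linarith) ?_ (by rw [y3]) he.le hC0 hM0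
      (by linarith) (by linarith) k1.1
    rw [y3]
    nlinarith

/-- the local bounds at a pole: `F = 1 / g` -/
lemma Lap_pole {g : ℂ → ℂ} {s : ℂ} (hg : AnalyticAt ℂ g s) (hg0 : g s = 0)
    (hz : ∀ᶠ u in 𝓝[≠] s, g u ≠ 0) :
    ∃ C : ℝ, 0 ≤ C ∧ ∀ᶠ u in 𝓝[≠] s,
      (1 + |Real.log ‖(g u)⁻¹‖| + 1 / ‖1 - (g u)⁻¹‖) * ‖deriv (fun w => (g w)⁻¹) u‖ ≤
        C * ((1 + ‖(g u)⁻¹‖) ^ 2 * ‖u - s‖ ^ (-(3 / 2) : ℝ)) ∧
      (1 + |Real.log ‖(g u)⁻¹‖| + 1 / ‖1 - (g u)⁻¹‖) *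
          ‖deriv (deriv (fun w => (g w)⁻¹)) u‖ ≤
        C * ((1 + ‖(g u)⁻¹‖) ^ 2 * ‖u - s‖ ^ (-(3 / 2) : ℝ)) ∧
      (1 + |Real.log ‖(g u)⁻¹‖| + 1 / ‖1 - (g u)⁻¹‖) * ‖deriv (fun w => (g w)⁻¹) u‖ ^ 2 ≤
        C * (‖(g u)⁻¹‖ * (1 + ‖(g u)⁻¹‖) ^ 2 * ‖u - s‖ ^ (-(3 / 2) : ℝ)) := by
  obtain ⟨C0, hC0, hloc⟩ := Lap_an hg hz
  have hf1 := Lap_bdd hg.deriv.continuousAt
  have hf2 := Lap_bdd hg.deriv.deriv.continuousAt
  have hn1 := norm_nonneg (deriv g s)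
  have hn2 := norm_nonneg (deriv (deriv g) s)
  set M : ℝ := ‖deriv g s‖ + 1 + (‖deriv (deriv g) s‖ + 1) with hM
  have hM0 : 0 ≤ M := by positivity
  have hsm : ∀ᶠ u in 𝓝 s, ‖g u‖ < 1 / 2 := by
    refine hg.continuousAt.norm.eventually (gt_mem_nhds ?_)
    show ‖g s‖ < 1 / 2
    rw [hg0, norm_zero]
    norm_num
  have han : ∀ᶠ u in 𝓝[≠] s, AnalyticAt ℂ g u :=
    hg.eventually_analyticAt.filter_mono nhdsWithin_le_nhds
  -- the derivatives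
  have hd1 : ∀ᶠ u in 𝓝[≠] s, deriv (fun w => (g w)⁻¹) u = -deriv g u / g u ^ 2 := by
    filter_upwards [han, hz] with u h1 h2
    exact (h1.differentiableAt.hasDerivAt.inv h2).deriv
  have hd2 : ∀ᶠ u in 𝓝[≠] s, deriv (deriv (fun w => (g w)⁻¹)) u =
      -deriv (deriv g) u / g u ^ 2 + 2 * deriv g u ^ 2 / g u ^ 3 := by
    filter_upwards [han, hz, Lap_nhds hd1] with u h1 h2 h3
    rw [h3.deriv_eq]
    have k1 := h1.differentiableAt.hasDerivAt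
    have k2 := h1.deriv.differentiableAt.hasDerivAt
    have k3 := (k2.neg.div (k1.fun_pow 2) (pow_ne_zero 2 h2)).deriv
    refine k3.trans ?_
    rw [show (-deriv g) u = -deriv g u from rfl]
    field_simp
    ring
  refine ⟨(2 + C0) * (M + 3 * C0), by positivity, ?_⟩
  filter_upwards [hloc, hf1, hf2, hsm.filter_mono nhdsWithin_le_nhds, hz, hd1, hd2,
      Lap_ball s one_pos] with u k1 k2 k3 k4 k5 e1 e2 k6
  obtain ⟨hr1, hr0⟩ := k6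
  obtain ⟨y1, y2, y3⟩ := Lap_exp hr0 hr1
  rw [e1, e2, y3]
  set z : ℝ := ‖g u‖ with hzd
  set y : ℝ := ‖u - s‖ ^ (-(1 / 2) : ℝ) with hy
  set e : ℝ := ‖u - s‖⁻¹ with hed
  have hz0 : 0 < z := norm_pos_iff.2 k5
  have he : 0 < e := inv_pos.2 hr0
  have he1 : 1 ≤ e := y1.trans y2
  have hgi : ‖(g u)⁻¹‖ = z⁻¹ := norm_inv _
  have hlog : |Real.log ‖(g u)⁻¹‖| = |Real.log z| := by
    rw [hgi, Real.log_inv, abs_neg]
  have hone : 1 / ‖1 - (g u)⁻¹‖ ≤ 1 := by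
    have h2 : 2 ≤ z⁻¹ := by
      rw [le_inv_comm₀ (by norm_num) hz0]
      linarith
    have h3 : z⁻¹ - 1 ≤ ‖1 - (g u)⁻¹‖ := by
      have := norm_sub_norm_le (g u)⁻¹ 1
      rw [hgi, norm_one, norm_sub_rev] at this
      exact this
    rw [div_le_one (by linarith)]
    linarith
  have hL : 1 + |Real.log ‖(g u)⁻¹‖| + 1 / ‖1 - (g u)⁻¹‖ ≤ (2 + C0) * y := by
    rw [hlog]
    have := k1.2
    nlinarith
  have hL0 : 0 ≤ 1 + |Real.log ‖(g u)⁻¹‖| + 1 / ‖1 - (g u)⁻¹‖ := by positivity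
  set L : ℝ := 1 + |Real.log ‖(g u)⁻¹‖| + 1 / ‖1 - (g u)⁻¹‖ with hLd
  rw [hgi]
  have hzi : 0 < z⁻¹ := inv_pos.2 hz0
  have hx1 : z⁻¹ ^ 2 ≤ (1 + z⁻¹) ^ 2 := by gcongr; linarith
  have hA : ‖-deriv g u / g u ^ 2‖ ≤ M * z⁻¹ ^ 2 := by
    rw [norm_div, norm_neg, norm_pow, ← hzd, div_eq_mul_inv, ← inv_pow]
    gcongr
    linarith
  have hA2 : ‖-deriv g u / g u ^ 2‖ ^ 2 ≤ C0 * e * (z⁻¹ * z⁻¹ ^ 2) := by
    have : ‖-deriv g u / g u ^ 2‖ ^ 2 = ‖deriv g u‖ ^ 2 * z⁻¹ ^ 4 := by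
      rw [norm_div, norm_neg, norm_pow, ← hzd, div_pow, div_eq_mul_inv]
      congr 1
      rw [← pow_mul, ← inv_pow]
    rw [this]
    calc ‖deriv g u‖ ^ 2 * z⁻¹ ^ 4 ≤ (C0 * z * e) * z⁻¹ ^ 4 := by gcongr; exact k1.1
      _ = C0 * e * (z⁻¹ * z⁻¹ ^ 2) * (z * z⁻¹) := by ring
      _ = C0 * e * (z⁻¹ * z⁻¹ ^ 2) := by rw [mul_inv_cancel₀ hz0.ne', mul_one]
  have hB : ‖-deriv (deriv g) u / g u ^ 2 + 2 * deriv g u ^ 2 / g u ^ 3‖ ≤
      (M + 2 * C0 * e) * z⁻¹ ^ 2 := by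
    refine (norm_add_le _ _).trans ?_
    have t1 : ‖-deriv (deriv g) u / g u ^ 2‖ ≤ M * z⁻¹ ^ 2 := by
      rw [norm_div, norm_neg, norm_pow, ← hzd, div_eq_mul_inv, ← inv_pow]
      gcongr
      linarith
    have t2 : ‖2 * deriv g u ^ 2 / g u ^ 3‖ ≤ 2 * C0 * e * z⁻¹ ^ 2 := by
      rw [norm_div, norm_mul, norm_pow, norm_pow, ← hzd, div_eq_mul_inv, ← inv_pow,
        RCLike.norm_ofNat]
      calc 2 * ‖deriv g u‖ ^ 2 * z⁻¹ ^ 3 ≤ 2 * (C0 * z * e) * z⁻¹ ^ 3 := by gcongr; exact k1.1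
        _ = 2 * C0 * e * z⁻¹ ^ 2 * (z * z⁻¹) := by ring
        _ = 2 * C0 * e * z⁻¹ ^ 2 := by rw [mul_inv_cancel₀ hz0.ne', mul_one]
    calc _ ≤ M * z⁻¹ ^ 2 + 2 * C0 * e * z⁻¹ ^ 2 := add_le_add t1 t2
      _ = _ := by ring
  have hy0 : 0 < y := by linarith
  refine ⟨?_, ?_, ?_⟩
  · calc L * ‖-deriv g u / g u ^ 2‖ ≤ ((2 + C0) * y) * (M * z⁻¹ ^ 2) :=
          mul_le_mul hL hA (norm_nonneg _) (by positivity)
      _ = (2 + C0) * M * (z⁻¹ ^ 2 * (y * 1)) := by ring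
      _ ≤ (2 + C0) * (M + 3 * C0) * ((1 + z⁻¹) ^ 2 * (y * e)) := by gcongr; linarith
  · calc L * ‖-deriv (deriv g) u / g u ^ 2 + 2 * deriv g u ^ 2 / g u ^ 3‖
        ≤ ((2 + C0) * y) * ((M + 2 * C0 * e) * z⁻¹ ^ 2) :=
          mul_le_mul hL hB (norm_nonneg _) (by positivity)
      _ ≤ ((2 + C0) * y) * (((M + 3 * C0) * e) * z⁻¹ ^ 2) := by
          gcongr
          nlinarith
      _ = (2 + C0) * (M + 3 * C0) * (z⁻¹ ^ 2 * (y * e)) := by ring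
      _ ≤ (2 + C0) * (M + 3 * C0) * ((1 + z⁻¹) ^ 2 * (y * e)) := by gcongr
  · calc L * ‖-deriv g u / g u ^ 2‖ ^ 2 ≤ ((2 + C0) * y) * (C0 * e * (z⁻¹ * z⁻¹ ^ 2)) :=
          mul_le_mul hL hA2 (by positivity) (by positivity)
      _ = (2 + C0) * C0 * (z⁻¹ * z⁻¹ ^ 2 * (y * e)) := by ring
      _ ≤ (2 + C0) * (M + 3 * C0) * (z⁻¹ * (1 + z⁻¹) ^ 2 * (y * e)) := by gcongr; linarith

/-! ### the structure -/

variable [Lt]

/-- a doubly periodic meromorphic function without multiple `1`-points; `S` contains the zeros, the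
poles and the `1`-points -/
structure Ell (F : ℂ → ℂ) (S : Set ℂ) : Prop where
  per : Per F
  meas : Measurable F
  cnt : S.Countable
  off : ∀ u, u ∉ S → AnalyticAt ℂ F u ∧ F u ≠ 0 ∧ F u ≠ 1
  iso : ∀ s, ∀ᶠ u in 𝓝[≠] s, u ∉ S
  loc : ∀ s, (∃ f, AnalyticAt ℂ f s ∧ F =ᶠ[𝓝[≠] s] f ∧ (f s = 1 → deriv f s ≠ 0)) ∨
    (∃ g, AnalyticAt ℂ g s ∧ g s = 0 ∧ F =ᶠ[𝓝[≠] s] fun u => (g u)⁻¹)

/-- `∂ (BW ∘ F)` -/
noncomputable def Lap_Q (F : ℂ → ℂ) (u : ℂ) : ℂ := D1 (F u) * deriv F u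

/-- `∂∂ (BW ∘ F)` -/
noncomputable def Lap_A (F : ℂ → ℂ) (u : ℂ) : ℂ :=
  D1 (F u) * deriv (deriv F) u + D2 (F u) * deriv F u ^ 2

/-- `∂̄∂ (BW ∘ F)` -/
noncomputable def Lap_B (F : ℂ → ℂ) (u : ℂ) : ℂ := D11 (F u) * (deriv F u * cj (deriv F u))

lemma Lap_wl (A B h : ℂ) : wl A B h = A * h + B * cj h := by
  simp only [wl, cj, _root_.add_apply, _root_.smul_apply,
    ContinuousLinearMap.id_apply, smul_eq_mul, ContinuousLinearEquiv.coe_coe,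
    Complex.conjCLE_apply]

lemma Lap_holo {f : ℂ → ℂ} {f' u : ℂ} (h : HasDerivAt f f' u) : HasFDerivAt f (wl f' 0) u := by
  refine h.complexToReal_fderiv.congr_fderiv ?_
  ext h
  · simp [Lap_wl]

lemma Lap_comp {G f : ℂ → ℂ} {A B f' u : ℂ} (hG : HasFDerivAt G (wl A B) (f u))
    (hf : HasDerivAt f f' u) :
    HasFDerivAt (fun w => G (f w)) (wl (A * f') (B * cj f')) u := by
  refine (hG.comp u (Lap_holo hf)).congr_fderiv ?_
  apply ContinuousLinearMap.ext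
  intro h
  rw [ContinuousLinearMap.comp_apply, Lap_wl, Lap_wl, Lap_wl, zero_mul, add_zero, cj_mul]
  ring

lemma Lap_mul {F G : ℂ → ℂ} {A B A' B' u : ℂ} (hF : HasFDerivAt F (wl A B) u)
    (hG : HasFDerivAt G (wl A' B') u) :
    HasFDerivAt (fun w => F w * G w) (wl (F u * A' + G u * A) (F u * B' + G u * B)) u := by
  refine (hF.mul hG).congr_fderiv ?_
  apply ContinuousLinearMap.ext
  intro h
  rw [Lap_wl]
  simp only [_root_.add_apply, _root_.smul_apply, smul_eq_mul, Lap_wl]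
  ring

lemma Lap_dF {F : ℂ → ℂ} {S : Set ℂ} (h : Ell F S) {u : ℂ} (hu : u ∉ S) :
    HasFDerivAt (fun w => (BW (F w) : ℂ)) (wl (Lap_Q F u) (cj (Lap_Q F u))) u := by
  obtain ⟨h1, h2, h3⟩ := h.off u hu
  have h4 := Lap_comp (G := fun w => (BW w : ℂ)) (f := F) (BW_deriv h2 h3)
    h1.differentiableAt.hasDerivAt
  rw [← cj_mul] at h4
  exact h4

lemma Lap_dQ {F : ℂ → ℂ} {S : Set ℂ} (h : Ell F S) {u : ℂ} (hu : u ∉ S) :
    HasFDerivAt (Lap_Q F) (wl (Lap_A F u) (Lap_B F u)) u := by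
  obtain ⟨h1, h2, h3⟩ := h.off u hu
  have k1 := Lap_comp (G := D1) (f := F) (D1_deriv h2 h3) h1.differentiableAt.hasDerivAt
  have k2 := Lap_holo h1.deriv.differentiableAt.hasDerivAt
  refine (Lap_mul k1 k2).congr_fderiv ?_
  congr 1
  · unfold Lap_A
    ring
  · unfold Lap_B
    ring

/-! ### periodicity and measurability -/

lemma Lap_per_deriv {F : ℂ → ℂ} (h : Per F) : Per (deriv F) := by
  intro u n
  have e : (fun w => F (w + xx n)) = F := funext fun w => h w n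
  have h2 := deriv_comp_add_const F (xx n) u
  rw [e] at h2
  exact h2.symm

lemma Lap_F_per {F : ℂ → ℂ} (h : Per F) : Per (fun u => (BW (F u) : ℂ)) := by
  intro u n
  simp only [h u n]

lemma Lap_Q_per {F : ℂ → ℂ} (h : Per F) : Per (Lap_Q F) := by
  intro u n
  unfold Lap_Q
  rw [h u n, Lap_per_deriv h u n]

lemma Lap_Qc_per {F : ℂ → ℂ} (h : Per F) : Per (fun u => cj (Lap_Q F u)) := by
  intro u n
  simp only [Lap_Q_per h u n]

lemma Lap_A_per {F : ℂ → ℂ} (h : Per F) : Per (Lap_A F) := by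
  intro u n
  unfold Lap_A
  rw [h u n, Lap_per_deriv h u n, Lap_per_deriv (Lap_per_deriv h) u n]

lemma Lap_B_per {F : ℂ → ℂ} (h : Per F) : Per (Lap_B F) := by
  intro u n
  unfold Lap_B
  rw [h u n, Lap_per_deriv h u n]

lemma Lap_cj_meas {f : ℂ → ℂ} (hf : Measurable f) : Measurable (fun u => cj (f u)) :=
  Complex.continuous_conj.measurable.comp hf

lemma Lap_Q_meas {F : ℂ → ℂ} (h : Measurable F) : Measurable (Lap_Q F) :=
  (D1_meas.comp h).mul (measurable_deriv F)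

lemma Lap_A_meas {F : ℂ → ℂ} (h : Measurable F) : Measurable (Lap_A F) :=
  ((D1_meas.comp h).mul (measurable_deriv _)).add
    ((D2_meas.comp h).mul ((measurable_deriv F).pow_const 2))

lemma Lap_B_meas {F : ℂ → ℂ} (h : Measurable F) : Measurable (Lap_B F) :=
  (D11_meas.comp h).mul ((measurable_deriv F).mul (Lap_cj_meas (measurable_deriv F)))

/-! ### the local bounds of the three derivatives -/

lemma Lap_T {F : ℂ → ℂ} {S : Set ℂ} (h : Ell F S) (s : ℂ) :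
    ∃ C : ℝ, 0 ≤ C ∧ ∀ᶠ u in 𝓝[≠] s,
      (1 + |Real.log ‖F u‖| + 1 / ‖1 - F u‖) * ‖deriv F u‖ ≤
        C * ((1 + ‖F u‖) ^ 2 * ‖u - s‖ ^ (-(3 / 2) : ℝ)) ∧
      (1 + |Real.log ‖F u‖| + 1 / ‖1 - F u‖) * ‖deriv (deriv F) u‖ ≤
        C * ((1 + ‖F u‖) ^ 2 * ‖u - s‖ ^ (-(3 / 2) : ℝ)) ∧
      (1 + |Real.log ‖F u‖| + 1 / ‖1 - F u‖) * ‖deriv F u‖ ^ 2 ≤
        C * (‖F u‖ * (1 + ‖F u‖) ^ 2 * ‖u - s‖ ^ (-(3 / 2) : ℝ)) := by
  have hnz : ∀ᶠ u in 𝓝[≠] s, F u ≠ 0 := by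
    filter_upwards [h.iso s] with u hu
    exact (h.off u hu).2.1
  have key : ∀ f : ℂ → ℂ, F =ᶠ[𝓝[≠] s] f →
      (∃ C : ℝ, 0 ≤ C ∧ ∀ᶠ u in 𝓝[≠] s,
      (1 + |Real.log ‖f u‖| + 1 / ‖1 - f u‖) * ‖deriv f u‖ ≤
        C * ((1 + ‖f u‖) ^ 2 * ‖u - s‖ ^ (-(3 / 2) : ℝ)) ∧
      (1 + |Real.log ‖f u‖| + 1 / ‖1 - f u‖) * ‖deriv (deriv f) u‖ ≤
        C * ((1 + ‖f u‖) ^ 2 * ‖u - s‖ ^ (-(3 / 2) : ℝ)) ∧
      (1 + |Real.log ‖f u‖| + 1 / ‖1 - f u‖) * ‖deriv f u‖ ^ 2 ≤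
        C * (‖f u‖ * (1 + ‖f u‖) ^ 2 * ‖u - s‖ ^ (-(3 / 2) : ℝ))) →
      ∃ C : ℝ, 0 ≤ C ∧ ∀ᶠ u in 𝓝[≠] s,
      (1 + |Real.log ‖F u‖| + 1 / ‖1 - F u‖) * ‖deriv F u‖ ≤
        C * ((1 + ‖F u‖) ^ 2 * ‖u - s‖ ^ (-(3 / 2) : ℝ)) ∧
      (1 + |Real.log ‖F u‖| + 1 / ‖1 - F u‖) * ‖deriv (deriv F) u‖ ≤
        C * ((1 + ‖F u‖) ^ 2 * ‖u - s‖ ^ (-(3 / 2) : ℝ)) ∧
      (1 + |Real.log ‖F u‖| + 1 / ‖1 - F u‖) * ‖deriv F u‖ ^ 2 ≤
        C * (‖F u‖ * (1 + ‖F u‖) ^ 2 * ‖u - s‖ ^ (-(3 / 2) : ℝ)) := by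
    rintro f hf ⟨C, hC, hb⟩
    refine ⟨C, hC, ?_⟩
    filter_upwards [hb, Lap_nhds hf] with u hu hn
    have e0 : F u = f u := hn.eq_of_nhds
    have e1 : deriv F u = deriv f u := hn.deriv_eq
    have e2 : deriv (deriv F) u = deriv (deriv f) u := hn.deriv.deriv_eq
    rw [e0, e1, e2]
    exact hu
  rcases h.loc s with ⟨f, hf, he, h1⟩ | ⟨g, hg, hg0, he⟩
  · refine key f he (Lap_reg hf ?_ h1)
    filter_upwards [hnz, he] with u hu hu2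
    rwa [← hu2]
  · refine key _ he (Lap_pole hg hg0 ?_)
    filter_upwards [hnz, he] with u hu hu2
    intro h0
    apply hu
    rw [hu2, h0, inv_zero]

lemma Lap_bounds {F : ℂ → ℂ} {S : Set ℂ} (h : Ell F S) (s : ℂ) :
    ∃ C : ℝ, ∀ᶠ u in 𝓝[≠] s, ‖Lap_Q F u‖ ≤ C * ‖u - s‖ ^ (-(3 / 2) : ℝ) ∧
      ‖Lap_A F u‖ ≤ C * ‖u - s‖ ^ (-(3 / 2) : ℝ) ∧ ‖Lap_B F u‖ ≤ C * ‖u - s‖ ^ (-(3 / 2) : ℝ) := by
  obtain ⟨C, hC, hT⟩ := Lap_T h s
  obtain ⟨C1, hC1, d1⟩ := D1_bound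
  obtain ⟨C2, hC2, d2⟩ := D2_bound
  obtain ⟨C3, hC3, d3⟩ := D11_bound
  refine ⟨(C1 + C2 + C3) * C, ?_⟩
  filter_upwards [hT, h.iso s, Lap_ball s one_pos] with u hu hS hr
  obtain ⟨-, h0, h1⟩ := h.off u hS
  have b1 := d1 _ h0 h1
  have b2 := d2 _ h0 h1
  have b3 := d3 _ h0 h1
  obtain ⟨t1, t2, t3⟩ := hu
  set L : ℝ := 1 + |Real.log ‖F u‖| + 1 / ‖1 - F u‖ with hL
  have hL0 : 0 ≤ L := by positivity
  set w : ℝ := ‖u - s‖ ^ (-(3 / 2) : ℝ) with hw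
  have hw0 : 0 ≤ w := Real.rpow_nonneg (norm_nonneg _) _
  set x : ℝ := ‖F u‖ with hx
  have hx0 : 0 < x := norm_pos_iff.2 h0
  have hx1 : 0 < (1 + x) ^ 2 := by positivity
  set a : ℝ := ‖deriv F u‖ with ha
  set b : ℝ := ‖deriv (deriv F) u‖ with hb
  have ha0 : 0 ≤ a := norm_nonneg _
  have hb0 : 0 ≤ b := norm_nonneg _
  have q1 : ∀ c : ℝ, 0 ≤ c → L * c ≤ C * ((1 + x) ^ 2 * w) → ‖D1 (F u)‖ * c ≤ C1 * C * w := by
    intro c hc0 hc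
    have : ‖D1 (F u)‖ * c * (1 + x) ^ 2 ≤ C1 * C * w * (1 + x) ^ 2 := by
      calc ‖D1 (F u)‖ * c * (1 + x) ^ 2 = (‖D1 (F u)‖ * (1 + x) ^ 2) * c := by ring
        _ ≤ (C1 * L) * c := by gcongr
        _ = C1 * (L * c) := by ring
        _ ≤ C1 * (C * ((1 + x) ^ 2 * w)) := by gcongr
        _ = C1 * C * w * (1 + x) ^ 2 := by ring
    exact le_of_mul_le_mul_right this hx1
  have q2 : ∀ (D K : ℝ), 0 ≤ D → 0 ≤ K → D * x * (1 + x) ^ 2 ≤ K * L → D * a ^ 2 ≤ K * C * w := by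
    intro D K hD hK hb'
    have hxx : 0 < x * (1 + x) ^ 2 := by positivity
    have : D * a ^ 2 * (x * (1 + x) ^ 2) ≤ K * C * w * (x * (1 + x) ^ 2) := by
      calc D * a ^ 2 * (x * (1 + x) ^ 2) = (D * x * (1 + x) ^ 2) * a ^ 2 := by ring
        _ ≤ (K * L) * a ^ 2 := by gcongr
        _ = K * (L * a ^ 2) := by ring
        _ ≤ K * (C * (x * (1 + x) ^ 2 * w)) := by gcongr
        _ = K * C * w * (x * (1 + x) ^ 2) := by ring
    exact le_of_mul_le_mul_right this hxx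
  have r1 := q1 a ha0 t1
  have r2 := q1 b hb0 t2
  have r3 := q2 ‖D2 (F u)‖ C2 (norm_nonneg _) hC2 b2
  have r4 := q2 ‖D11 (F u)‖ C3 (norm_nonneg _) hC3 b3
  have hCw : 0 ≤ C * w := by positivity
  have w1 : C1 * C * w ≤ (C1 + C2 + C3) * C * w := by nlinarith [mul_nonneg hC2 hCw, mul_nonneg hC3 hCw]
  have w3 : C3 * C * w ≤ (C1 + C2 + C3) * C * w := by nlinarith [mul_nonneg hC1 hCw, mul_nonneg hC2 hCw]
  refine ⟨?_, ?_, ?_⟩
  · unfold Lap_Q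
    rw [norm_mul]
    exact r1.trans w1
  · unfold Lap_A
    refine (norm_add_le _ _).trans ?_
    rw [norm_mul, norm_mul, norm_pow]
    calc _ ≤ C1 * C * w + C2 * C * w := add_le_add r2 r3
      _ ≤ (C1 + C2 + C3) * C * w := by nlinarith [mul_nonneg hC3 hCw]
  · unfold Lap_B
    rw [norm_mul, norm_mul, norm_cj, ← sq]
    exact r4.trans w3

lemma Lap_int {G : ℂ → ℂ} (hP : Per G) (hm : Measurable G)
    (h : ∀ s : ℂ, ∃ C : ℝ, ∀ᶠ u in 𝓝[≠] s, ‖G u‖ ≤ C * ‖u - s‖ ^ (-(3 / 2) : ℝ)) :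
    Integrable (fun x : E => G (cu x)) := by
  refine int_of_local hP hm fun s => ?_
  obtain ⟨C, hC⟩ := h s
  rw [eventually_nhdsWithin_iff, Metric.eventually_nhds_iff] at hC
  obtain ⟨r, hr, h2⟩ := hC
  refine ⟨C, r, hr, fun u hu hur => h2 ?_ hu⟩
  rwa [dist_eq_norm]

theorem Lap_Q_int {F : ℂ → ℂ} {S : Set ℂ} (h : Ell F S) :
    Integrable (fun x : E => Lap_Q F (cu x)) :=
  Lap_int (Lap_Q_per h.per) (Lap_Q_meas h.meas) fun s => by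
    obtain ⟨C, hC⟩ := Lap_bounds h s
    exact ⟨C, hC.mono fun u hu => hu.1⟩

theorem Lap_A_int {F : ℂ → ℂ} {S : Set ℂ} (h : Ell F S) :
    Integrable (fun x : E => Lap_A F (cu x)) :=
  Lap_int (Lap_A_per h.per) (Lap_A_meas h.meas) fun s => by
    obtain ⟨C, hC⟩ := Lap_bounds h s
    exact ⟨C, hC.mono fun u hu => hu.2.1⟩

theorem Lap_B_int {F : ℂ → ℂ} {S : Set ℂ} (h : Ell F S) :
    Integrable (fun x : E => Lap_B F (cu x)) :=
  Lap_int (Lap_B_per h.per) (Lap_B_meas h.meas) fun s => by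
    obtain ⟨C, hC⟩ := Lap_bounds h s
    exact ⟨C, hC.mono fun u hu => hu.2.2⟩

theorem Lap_Qc_int {F : ℂ → ℂ} {S : Set ℂ} (h : Ell F S) :
    Integrable (fun x : E => cj (Lap_Q F (cu x))) :=
  Lap_int (G := fun u => cj (Lap_Q F u)) (Lap_Qc_per h.per) (Lap_cj_meas (Lap_Q_meas h.meas))
    fun s => by
    obtain ⟨C, hC⟩ := Lap_bounds h s
    exact ⟨C, hC.mono fun u hu => by rw [norm_cj]; exact hu.1⟩

lemma Lap_fin : IsFiniteMeasure (volume : Measure E) := by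
  rw [Measure.volume_eq_prod]
  infer_instance

theorem Lap_F_int {F : ℂ → ℂ} (h : Measurable F) :
    Integrable (fun x : E => (BW (F (cu x)) : ℂ)) := by
  have := Lap_fin
  obtain ⟨C, hC, hb⟩ := BW_bdd
  have hm : Measurable (fun u : ℂ => (BW (F u) : ℂ)) :=
    Complex.measurable_ofReal.comp (BW_cont.measurable.comp h)
  refine Integrable.mono' (integrable_const C) (hm.comp measurable_cu).aestronglyMeasurable
    (Eventually.of_forall fun x => ?_)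
  rw [Complex.norm_real, Real.norm_eq_abs]
  exact hb _

/-- the Laplace equation: Fourier coefficients -/
theorem lap_fc {F : ℂ → ℂ} {S : Set ℂ} (h : Ell F S) (n : ℤ × ℤ) :
    fc (Lap_B F) n = -((cc : ℂ) ^ 2 * (mm n * cj (mm n)) * fc (fun u => (BW (F u) : ℂ)) n) := by
  have h1 := (green_ch (Lap_F_per h.per) (Lap_Q_per h.per) (Lap_Qc_per h.per) h.cnt
    (fun u hu => Lap_dF h hu) (Lap_F_int h.meas) (Lap_Q_int h) (Lap_Qc_int h) n).1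
  have h2 := (green_ch (Lap_Q_per h.per) (Lap_A_per h.per) (Lap_B_per h.per) h.cnt
    (fun u hu => Lap_dQ h hu) (Lap_Q_int h) (Lap_A_int h) (Lap_B_int h) n).2
  rw [h2, h1]
  ring

/-- the form of `∂̄∂ (BW ∘ F)`: `A = dlog F`, `B = dlog (1 - F)` -/
theorem Lap_B_eq {F : ℂ → ℂ} {S : Set ℂ} (h : Ell F S) {u : ℂ} (hu : u ∉ S) {A B : ℂ}
    (hA : deriv F u = A * F u) (hB : deriv F u = -(B * (1 - F u))) :
    Lap_B F u = 1 / (4 * Complex.I) * (cj A * B - A * cj B) := by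
  obtain ⟨-, h0, h1⟩ := h.off u hu
  have hx1 : 1 - F u ≠ 0 := sub_ne_zero.2 (Ne.symm h1)
  have hy0 : cj (F u) ≠ 0 := fun h => h0 (cj_eq_zero.1 h)
  have hy1 : 1 - cj (F u) ≠ 0 := by
    intro h
    apply hx1
    rw [← cj_eq_zero, cj_sub, cj_one]
    exact h
  have eB : B = -(A * F u / (1 - F u)) := by
    rw [hA] at hB
    field_simp
    linear_combination hB
  have eBc : cj B = -(cj A * cj (F u) / (1 - cj (F u))) := by
    rw [eB, cj_neg, cj_div, cj_mul, cj_sub, cj_one]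
  rw [eBc, eB]
  unfold Lap_B EE7.D11
  rw [hA, cj_mul]
  generalize F u = x at *
  generalize cj x = y at *
  generalize cj A = b at *
  have hI := Complex.I_ne_zero
  field_simp
  ring

end UQO
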