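import Pool.Agent.K3R.LFunLattice

/-!
# UQO/Nv: nonvanishing of `Σ λ² / |λ|⁸`

For a lattice `ℤ + ℤ (x + i y)` with `2 x ∈ ℤ` and `y² ≥ 7/4` the sum `Σ λ² / |λ|⁸` over the nonzero
lattice points is not zero: the terms `λ = ±1` are `1` each, the others have absolute value
`|λ|⁻⁶`, and their sum is `< 2`.
-/

open LatL

namespace UQO

private noncomputable def Nv_A (k : ℕ) (a : ℤ) : ℝ := 1 / (a : ℝ) ^ k

private noncomputable def Nv_d (c a : ℤ) : ℝ := if a = c then 1 else 0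

private lemma Nv_A_sum {k : ℕ} (hk : Even k) (hk0 : k ≠ 0) {s : ℝ}
    (h : HasSum (fun n : ℕ => 1 / (n : ℝ) ^ k) s) : HasSum (Nv_A k) (s + s) := by
  have h1 : HasSum (fun n : ℕ => Nv_A k (n : ℤ)) s := by
    refine h.congr_fun ?_
    intro n
    simp [Nv_A]
  have h2 : HasSum (fun n : ℕ => Nv_A k (-((n : ℤ) + 1))) s := by
    have h3 : HasSum (fun n : ℕ => 1 / ((n + 1 : ℕ) : ℝ) ^ k) s := by
      have h4 := (hasSum_nat_add_iff' (f := fun n : ℕ => 1 / (n : ℝ) ^ k) 1).2 h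
      simpa [hk0] using h4
    refine h3.congr_fun ?_
    intro n
    simp only [Nv_A]
    push_cast
    rw [Even.neg_pow hk]
  exact h1.of_nat_of_neg_add_one h2

private lemma Nv_A2 : HasSum (Nv_A 2) (Real.pi ^ 2 / 6 + Real.pi ^ 2 / 6) :=
  Nv_A_sum (by decide) (by norm_num) hasSum_zeta_two

private lemma Nv_A4 : HasSum (Nv_A 4) (Real.pi ^ 4 / 90 + Real.pi ^ 4 / 90) :=
  Nv_A_sum (by decide) (by norm_num) hasSum_zeta_four

private lemma Nv_dsum (c : ℤ) : HasSum (Nv_d c) 1 := by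
  unfold Nv_d
  exact hasSum_ite_eq c 1

private lemma Nv_A_nonneg {k : ℕ} (hk : Even k) (a : ℤ) : 0 ≤ Nv_A k a := by
  unfold Nv_A
  have := hk.pow_nonneg (a : ℝ)
  positivity

private lemma Nv_d_nonneg (c a : ℤ) : 0 ≤ Nv_d c a := by
  unfold Nv_d
  split_ifs <;> norm_num

/-- the bound for the terms with `b ≠ 0`, in the coordinates `a = 2 p₁ + t p₂`, `b = p₂` -/
private noncomputable def Nv_h (p : ℤ × ℤ) : ℝ :=
  64 / 330 * (Nv_A 2 p.1 * Nv_A 4 p.2) + 64 / 343 * (Nv_d 0 p.1 * Nv_A 4 p.2)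

/-- the bound for the terms with `b = 0` -/
private noncomputable def Nv_g (p : ℤ × ℤ) : ℝ :=
    (1 / 4 * (Nv_A 4 p.1 * Nv_d 0 p.2) - 1 / 4 * (Nv_d 1 p.1 * Nv_d 0 p.2)
      - 1 / 4 * (Nv_d (-1) p.1 * Nv_d 0 p.2))

private lemma Nv_mul {f g : ℤ → ℝ} {s t : ℝ} (hf : HasSum f s) (hg : HasSum g t)
    (h1 : ∀ a, 0 ≤ f a) (h2 : ∀ a, 0 ≤ g a) :
    HasSum (fun p : ℤ × ℤ => f p.1 * g p.2) (s * t) :=
  hf.mul hg (hf.summable.mul_of_nonneg hg.summable h1 h2)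

private lemma e2 : Even 2 := by decide
private lemma e4 : Even 4 := by decide

private lemma Nv_hsum : HasSum Nv_h (64 / 330 * ((Real.pi ^ 2 / 6 + Real.pi ^ 2 / 6) *
    (Real.pi ^ 4 / 90 + Real.pi ^ 4 / 90)) +
      64 / 343 * (1 * (Real.pi ^ 4 / 90 + Real.pi ^ 4 / 90))) := by
  exact (((Nv_mul Nv_A2 Nv_A4 (Nv_A_nonneg e2) (Nv_A_nonneg e4)).mul_left (64 / 330)).add
    ((Nv_mul (Nv_dsum 0) Nv_A4 (Nv_d_nonneg 0) (Nv_A_nonneg e4)).mul_left (64 / 343)))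

private lemma Nv_h_nonneg (p : ℤ × ℤ) : 0 ≤ Nv_h p := by
  have h1 := Nv_A_nonneg e2 p.1
  have h2 := Nv_A_nonneg e4 p.2
  have h3 := Nv_d_nonneg 0 p.1
  unfold Nv_h
  positivity

private lemma Nv_gsum : HasSum Nv_g
    ((1 / 4 * ((Real.pi ^ 4 / 90 + Real.pi ^ 4 / 90) * 1) - 1 / 4 * (1 * 1) - 1 / 4 * (1 * 1))) := by
  exact ((((Nv_mul Nv_A4 (Nv_dsum 0) (Nv_A_nonneg e4) (Nv_d_nonneg 0)).mul_left (1 / 4)).sub
      ((Nv_mul (Nv_dsum 1) (Nv_dsum 0) (Nv_d_nonneg 1) (Nv_d_nonneg 0)).mul_left (1 / 4))).sub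
      ((Nv_mul (Nv_dsum (-1)) (Nv_dsum 0) (Nv_d_nonneg (-1)) (Nv_d_nonneg 0)).mul_left (1 / 4)))

/-- indicator of the two units -/
private noncomputable def Nv_u (p : ℤ × ℤ) : ℝ :=
  Nv_d 1 p.1 * Nv_d 0 p.2 + Nv_d (-1) p.1 * Nv_d 0 p.2

private lemma Nv_usum : HasSum Nv_u (1 * 1 + 1 * 1) :=
  (Nv_mul (Nv_dsum 1) (Nv_dsum 0) (Nv_d_nonneg 1) (Nv_d_nonneg 0)).add
    (Nv_mul (Nv_dsum (-1)) (Nv_dsum 0) (Nv_d_nonneg (-1)) (Nv_d_nonneg 0))

/-- the change of coordinates -/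
private def Nv_phi (t : ℤ) (p : ℤ × ℤ) : ℤ × ℤ := (2 * p.1 + t * p.2, p.2)

private lemma Nv_phi_inj (t : ℤ) : Function.Injective (Nv_phi t) := by
  rintro ⟨a, b⟩ ⟨c, d⟩ h
  simp only [Nv_phi, Prod.mk.injEq] at h
  obtain ⟨h1, h2⟩ := h
  subst h2
  have : a = c := by linarith
  rw [this]

private lemma Nv_bound {x y : ℝ} {t : ℤ} (hx : 2 * x = t) (hy : 7 / 4 ≤ y ^ 2) (p : ℤ × ℤ) :
    1 / (Q x y p) ^ 3 ≤ Nv_u p + (Nv_h (Nv_phi t p) + Nv_g p) := by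
  obtain ⟨a, b⟩ := p
  by_cases hb : b = 0
  · subst hb
    have hQ : Q x y (a, 0) = (a : ℝ) ^ 2 := by simp [Q]
    rw [hQ]
    by_cases h0 : a = 0
    · subst h0
      norm_num [Nv_u, Nv_g, Nv_h, Nv_phi, Nv_A, Nv_d]
    · by_cases h1 : a = 1
      · subst h1
        norm_num [Nv_u, Nv_g, Nv_h, Nv_phi, Nv_A, Nv_d]
      · by_cases h2 : a = -1
        · subst h2
          norm_num [Nv_u, Nv_g, Nv_h, Nv_phi, Nv_A, Nv_d]
        · have h3 : 4 ≤ a ^ 2 := by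
            have : 2 ≤ |a| := by
              rcases le_or_gt 0 a with h | h
              · rw [abs_of_nonneg h]; omega
              · rw [abs_of_neg h]; omega
            nlinarith [sq_abs a]
          have h4 : (4 : ℝ) ≤ (a : ℝ) ^ 2 := by exact_mod_cast h3
          have e1 : Nv_u (a, 0) + (Nv_h (Nv_phi t (a, 0)) + Nv_g (a, 0)) =
              1 / 4 * (1 / (a : ℝ) ^ 4) := by
            simp [Nv_u, Nv_g, Nv_h, Nv_phi, Nv_A, Nv_d, h0, h1, h2]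
          rw [e1]
          have h5 : ((a : ℝ) ^ 2) ^ 3 = (a : ℝ) ^ 4 * (a : ℝ) ^ 2 := by ring
          rw [h5]
          have h6 : 0 < (a : ℝ) ^ 4 := by
            have : (a : ℝ) ≠ 0 := by exact_mod_cast h0
            positivity
          rw [← one_div_mul_one_div, mul_comm]
          apply mul_le_mul_of_nonneg_right _ (by positivity)
          exact one_div_le_one_div_of_le (by norm_num) h4
  · have hbr : (b : ℝ) ≠ 0 := by exact_mod_cast hb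
    have hb1 : (1 : ℝ) ≤ (b : ℝ) ^ 2 := by
      have : 1 ≤ b ^ 2 := by
        have : 0 < b ^ 2 := by positivity
        omega
      exact_mod_cast this
    have e0 : Nv_u (a, b) + (Nv_h (Nv_phi t (a, b)) + Nv_g (a, b)) =
        Nv_h (2 * a + t * b, b) := by
      simp [Nv_u, Nv_g, Nv_phi, Nv_d, hb]
    rw [e0]
    have hQ : ((((2 * a + t * b : ℤ) : ℝ)) ^ 2 + 7 * (b : ℝ) ^ 2) / 4 ≤ Q x y (a, b) := by
      have h1 : Q x y (a, b) = ((((2 * a + t * b : ℤ) : ℝ)) ^ 2 + 4 * y ^ 2 * (b : ℝ) ^ 2) / 4 := by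
        push_cast
        rw [← hx, Q]
        ring
      rw [h1]
      nlinarith [sq_nonneg (b : ℝ)]
    generalize (2 * a + t * b) = c at hQ
    by_cases h0 : c = 0
    · subst h0
      have e1 : Nv_h (0, b) = 64 / 343 * (1 / (b : ℝ) ^ 4) := by
        simp [Nv_h, Nv_A, Nv_d]
      rw [e1]
      have h5 : 343 / 64 * (b : ℝ) ^ 4 ≤ (Q x y (a, b)) ^ 3 := by
        have h6 : 7 / 4 * (b : ℝ) ^ 2 ≤ Q x y (a, b) := by
          refine le_trans (le_of_eq ?_) hQ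
          push_cast
          ring
        calc 343 / 64 * (b : ℝ) ^ 4 ≤ (7 / 4 * (b : ℝ) ^ 2) ^ 3 := by
              have : (7 / 4 * (b : ℝ) ^ 2) ^ 3 = 343 / 64 * ((b : ℝ) ^ 4 * (b : ℝ) ^ 2) := by ring
              rw [this]
              have h7 : 0 < (b : ℝ) ^ 4 := by positivity
              nlinarith
          _ ≤ _ := pow_le_pow_left₀ (by positivity) h6 3
      calc 1 / (Q x y (a, b)) ^ 3 ≤ 1 / (343 / 64 * (b : ℝ) ^ 4) :=
            one_div_le_one_div_of_le (by positivity) h5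
        _ = 64 / 343 * (1 / (b : ℝ) ^ 4) := by field_simp
    · have hcr : (c : ℝ) ≠ 0 := by exact_mod_cast h0
      have e1 : Nv_h (c, b) = 64 / 330 * (1 / (c : ℝ) ^ 2 * (1 / (b : ℝ) ^ 4)) := by
        simp [Nv_h, Nv_A, Nv_d, h0]
      rw [e1]
      set u : ℝ := (c : ℝ) ^ 2 with hu
      set z : ℝ := (b : ℝ) ^ 2 with hz
      have hu0 : 0 < u := by positivity
      have hz0 : 0 < z := by positivity
      have hz4 : (b : ℝ) ^ 4 = z ^ 2 := by rw [hz]; ring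
      rw [hz4]
      have h7 : 330 / 64 * (u * z ^ 2) ≤ (Q x y (a, b)) ^ 3 := by
        have h8 : 330 / 64 * (u * z ^ 2) ≤ ((u + 7 * z) / 4) ^ 3 := by
          have h9 : 0 ≤ (u + 14 * z) * (2 * u - 7 * z) ^ 2 := by positivity
          nlinarith [mul_pos hu0 (pow_pos hz0 2)]
        exact h8.trans (pow_le_pow_left₀ (by positivity) hQ 3)
      calc 1 / (Q x y (a, b)) ^ 3 ≤ 1 / (330 / 64 * (u * z ^ 2)) :=
            one_div_le_one_div_of_le (by positivity) h7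
        _ = 64 / 330 * (1 / u * (1 / z ^ 2)) := by
            field_simp

private lemma Nv_norm (x y : ℝ) (p : ℤ × ℤ) :
    ‖lat x y p ^ 2 / ((Q x y p : ℝ) : ℂ) ^ 4‖ = 1 / (Q x y p) ^ 3 := by
  have h := Q_nonneg (x := x) (y := y) p
  rw [norm_div, norm_pow, norm_pow, ← Q_eq, Complex.norm_real, Real.norm_of_nonneg h]
  by_cases h0 : Q x y p = 0
  · rw [h0]; norm_num
  · field_simp

/-- `Σ λ² / |λ|⁸ ≠ 0` over the lattice `ℤ + ℤ (x + i y)`, `2 x ∈ ℤ`, `y² ≥ 7/4` -/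
theorem nv {x y : ℝ} {t : ℤ} (hx : 2 * x = t) (hy : 7 / 4 ≤ y ^ 2) {E : ℂ}
    (h : HasSum (fun p : ℤ × ℤ => lat x y p ^ 2 / ((Q x y p : ℝ) : ℂ) ^ 4) E) : E ≠ 0 := by
  have hsh : Summable (fun p : ℤ × ℤ => Nv_h (Nv_phi t p)) :=
    Nv_hsum.summable.comp_injective (Nv_phi_inj t)
  have hle : (∑' p : ℤ × ℤ, Nv_h (Nv_phi t p)) ≤ ∑' p : ℤ × ℤ, Nv_h p :=
    _root_.tsum_comp_le_tsum_of_inj Nv_hsum.summable Nv_h_nonneg (Nv_phi_inj t)
  rw [Nv_hsum.tsum_eq] at hle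
  have hG := hsh.hasSum.add Nv_gsum
  have h1 : HasSum (fun p : ℤ × ℤ => (lat x y p ^ 2 / ((Q x y p : ℝ) : ℂ) ^ 4).re) E.re :=
    Complex.hasSum_re h
  have h2 : ∀ p : ℤ × ℤ, Nv_u p - (Nv_h (Nv_phi t p) + Nv_g p) ≤
      (lat x y p ^ 2 / ((Q x y p : ℝ) : ℂ) ^ 4).re := by
    intro p
    by_cases hp : p = (1, 0) ∨ p = (-1, 0)
    · rcases hp with rfl | rfl
      · norm_num [Nv_u, Nv_g, Nv_h, Nv_phi, Nv_A, Nv_d, lat, Q]
      · norm_num [Nv_u, Nv_g, Nv_h, Nv_phi, Nv_A, Nv_d, lat, Q]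
    · push Not at hp
      have h3 := Nv_bound hx hy p
      rw [← Nv_norm] at h3
      have h4 : Nv_u p = 0 := by
        obtain ⟨a, b⟩ := p
        simp only [Nv_u, Nv_d]
        by_cases hb : b = 0
        · subst hb
          have ha : a ≠ 1 := fun h => hp.1 (by rw [h])
          have ha' : a ≠ -1 := fun h => hp.2 (by rw [h])
          simp [ha, ha']
        · simp [hb]
      rw [h4] at h3 ⊢
      have h5 := (abs_le.1 (Complex.abs_re_le_norm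
        (lat x y p ^ 2 / ((Q x y p : ℝ) : ℂ) ^ 4))).1
      linarith
  have h3 := hasSum_le h2 (Nv_usum.sub hG) h1
  have hpi : Real.pi ^ 2 ≤ 9.87 := by
    have := Real.pi_lt_d4
    have := Real.pi_pos
    nlinarith
  have hpi0 : 0 < Real.pi ^ 2 := by positivity
  have hpi4 : Real.pi ^ 4 ≤ 97.42 := by
    have : Real.pi ^ 4 = Real.pi ^ 2 * Real.pi ^ 2 := by ring
    rw [this]
    nlinarith
  have hpi40 : 0 < Real.pi ^ 4 := by positivity
  have hprod : Real.pi ^ 2 * Real.pi ^ 4 ≤ 9.87 * 97.42 :=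
    mul_le_mul hpi hpi4 hpi40.le (by norm_num)
  intro h0
  rw [h0, Complex.zero_re] at h3
  nlinarith

/-- the value at `4` of the continued lattice sum is not zero -/
theorem Z4_ne {x y : ℝ} (hy0 : 0 < y) {t : ℤ} (hx : 2 * x = t) (hy : 7 / 4 ≤ y ^ 2) :
    LatL.Z x hy0 4 ≠ 0 := by
  have h := hasSum_Z x hy0 (s := 4) (by norm_num)
  refine nv hx hy (h.congr_fun fun p => ?_)
  rw [show (4 : ℂ) = ((4 : ℕ) : ℂ) by norm_num, Complex.cpow_natCast]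

end UQO
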