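import Pool.Agent.UQO.NvMono
import Pool.Agent.UQO.Nv

/-!
# UQO/NvAll: `Σ λ² / |λ|⁸` vanishes exactly for the lattices with an extra unit

For `z` in the upper half plane and `Λ = ℤ + ℤ z` the sum `Σ_{λ ≠ 0} λ⁻² λ̄⁻⁴ = Σ λ² / |λ|⁸` is zero
if and only if some `u ≠ ±1` with `|u| = 1` satisfies `u Λ ⊆ Λ`.
-/

open Complex Filter Topology LatL
open scoped MatrixGroups UpperHalfPlane Modular

namespace UQO.NvA

noncomputable section

/-- the lattice point `p.1 + p.2 z` -/
def lz (z : ℂ) (p : ℤ × ℤ) : ℂ := p.1 + p.2 * z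

/-- the term `λ⁻² λ̄⁻⁴` -/
def tz (z : ℂ) (p : ℤ × ℤ) : ℂ := 1 / (lz z p ^ 2 * cj (lz z p) ^ 4)

/-- `Σ λ⁻² λ̄⁻⁴` -/
def FF (z : ℂ) : ℂ := ∑' p : ℤ × ℤ, tz z p

/-- the lattice has a unit different from `±1` -/
def Ext (z : ℂ) : Prop :=
  ∃ u : ℂ, ‖u‖ = 1 ∧ u ≠ 1 ∧ u ≠ -1 ∧ ∀ p : ℤ × ℤ, ∃ r : ℤ × ℤ, u * lz z p = lz z r

/-- unimodular change of coordinates -/
def me (a b c d : ℤ) (h : a * d - b * c = 1) : ℤ × ℤ ≃ ℤ × ℤ where
  toFun p := (p.1 * a + p.2 * c, p.1 * b + p.2 * d)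
  invFun p := (p.1 * d - p.2 * c, -(p.1 * b) + p.2 * a)
  left_inv := by
    rintro ⟨m, n⟩
    refine Prod.ext ?_ ?_
    · show (m * a + n * c) * d - (m * b + n * d) * c = m
      linear_combination m * h
    · show -((m * a + n * c) * b) + (m * b + n * d) * a = n
      linear_combination n * h
  right_inv := by
    rintro ⟨m, n⟩
    refine Prod.ext ?_ ?_
    · show (m * d - n * c) * a + (-(m * b) + n * a) * c = m
      linear_combination m * h
    · show (m * d - n * c) * b + (-(m * b) + n * a) * d = n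
      linear_combination n * h

lemma lz_me {z w k : ℂ} {a b c d : ℤ} (h : a * d - b * c = 1) (h1 : k = a + b * z)
    (h2 : k * w = c + d * z) (p : ℤ × ℤ) : k * lz w p = lz z (me a b c d h p) := by
  show k * (p.1 + p.2 * w) = ((p.1 * a + p.2 * c : ℤ) : ℂ) + ((p.1 * b + p.2 * d : ℤ) : ℂ) * z
  push_cast
  linear_combination (p.1 : ℂ) * h1 + (p.2 : ℂ) * h2

lemma FF_me {z w k : ℂ} (hk : k ≠ 0) {a b c d : ℤ} (h : a * d - b * c = 1) (h1 : k = a + b * z)
    (h2 : k * w = c + d * z) : FF w = k ^ 2 * cj k ^ 4 * FF z := by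
  have hk' : cj k ≠ 0 := (map_ne_zero _).2 hk
  have h3 : ∀ p, tz w p = k ^ 2 * cj k ^ 4 * tz z (me a b c d h p) := by
    intro p
    rw [tz, tz, ← lz_me h h1 h2 p]
    simp only [cj, map_mul] at hk' ⊢
    generalize lz w p = L
    by_cases hL : L = 0
    · rw [hL]; simp
    · have hL' : (starRingEnd ℂ) L ≠ 0 := (map_ne_zero _).2 hL
      field_simp
  rw [FF, FF, tsum_congr h3, tsum_mul_left]
  congr 1
  exact (me a b c d h).tsum_eq (tz z)

lemma lz_inj {z : ℂ} (hz : 0 < z.im) {p r : ℤ × ℤ} (h : lz z p = lz z r) : p = r := by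
  have h1 := congrArg Complex.im h
  simp only [lz, Complex.add_im, Complex.intCast_im, zero_add, Complex.mul_im, Complex.intCast_re,
    zero_mul, add_zero] at h1
  have h2 : (p.2 : ℝ) = r.2 := mul_right_cancel₀ hz.ne' h1
  have h3 := congrArg Complex.re h
  simp only [lz, Complex.add_re, Complex.intCast_re, Complex.mul_re, Complex.intCast_im, zero_mul,
    sub_zero, h2] at h3
  have h4 : (p.1 : ℝ) = r.1 := by linarith
  exact Prod.ext (by exact_mod_cast h4) (by exact_mod_cast h2)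

/-- a lattice with an extra unit has sum `0` -/
theorem FF_ext {z : ℂ} (hz : 0 < z.im) (h : Ext z) : FF z = 0 := by
  obtain ⟨u, hu, h1, h2, h3⟩ := h
  obtain ⟨⟨a, b⟩, hab⟩ := h3 (1, 0)
  obtain ⟨⟨c, d⟩, hcd⟩ := h3 (0, 1)
  have e1 : u = a + b * z := by simpa [lz] using hab
  have e2 : u * z = c + d * z := by simpa [lz] using hcd
  have hu0 : u ≠ 0 := by
    intro h0
    rw [h0, norm_zero] at hu
    exact zero_ne_one hu
  have hns : u.re * u.re + u.im * u.im = 1 := by
    rw [← Complex.normSq_apply, Complex.normSq_eq_norm_sq, hu]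
    norm_num
  have hdet : (a : ℝ) * d - b * c = 1 := by
    have f1 := congrArg Complex.re e1
    have f2 := congrArg Complex.im e1
    have f3 := congrArg Complex.re e2
    have f4 := congrArg Complex.im e2
    simp at f1 f2 f3 f4
    have h5 : (a * d - b * c) * z.im = (u.re * u.re + u.im * u.im) * z.im := by
      have g1 : (a : ℝ) = u.re - b * z.re := by linarith
      have g2 : (c : ℝ) = u.re * z.re - u.im * z.im - d * z.re := by linarith
      have g3 : (b : ℝ) * z.im = u.im := f2.symm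
      have g4 : (d : ℝ) * z.im = u.re * z.im + u.im * z.re := f4.symm
      calc (a * d - b * c) * z.im = a * (d * z.im) - (b * z.im) * c := by ring
        _ = (u.re - b * z.re) * (u.re * z.im + u.im * z.re) -
              u.im * (u.re * z.re - u.im * z.im - d * z.re) := by rw [g3, g4, g1, g2]
        _ = u.re * u.re * z.im + u.im * u.im * z.im - (b * z.im) * z.re * u.re
              - b * z.re * z.re * u.im + (d * z.re) * u.im := by ring
        _ = _ := by
            have g5 : z.im * ((d : ℝ) * z.re * u.im - b * z.re * z.re * u.im -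
              (b * z.im) * z.re * u.re) = 0 := by
              have : z.im * ((d : ℝ) * z.re * u.im - b * z.re * z.re * u.im -
                (b * z.im) * z.re * u.re) =
                z.re * (u.im * (d * z.im) - (b * z.im) * z.re * u.im - (b * z.im) * z.im * u.re) := by
                ring
              rw [this, g3, g4]
              ring
            have g6 := (mul_eq_zero.1 g5).resolve_left hz.ne'
            linear_combination g6
    have h6 := mul_right_cancel₀ hz.ne' h5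
    linarith
  have hdet' : a * d - b * c = 1 := by exact_mod_cast hdet
  have h4 := FF_me hu0 hdet' e1 e2
  have h5 : u * cj u = 1 := by
    rw [Complex.mul_conj, Complex.normSq_eq_norm_sq, hu]
    norm_num
  have h6 : u ^ 2 * cj u ^ 4 = cj u ^ 2 := by
    have : u ^ 2 * cj u ^ 4 = (u * cj u) ^ 2 * cj u ^ 2 := by ring
    rw [this, h5]
    ring
  rw [h6] at h4
  have h7 : (1 - cj u ^ 2) * FF z = 0 := by linear_combination h4
  refine (mul_eq_zero.1 h7).resolve_left fun h8 => ?_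
  have h9 : u ^ 2 = 1 := by
    have h10 : cj u ^ 2 = 1 := by linear_combination -h8
    calc u ^ 2 = u ^ 2 * cj u ^ 2 := by rw [h10, mul_one]
      _ = (u * cj u) ^ 2 := by ring
      _ = 1 := by rw [h5]; norm_num
  have h11 : (u - 1) * (u + 1) = 0 := by linear_combination h9
  rcases mul_eq_zero.1 h11 with h | h
  · exact h1 (sub_eq_zero.1 h)
  · exact h2 (eq_neg_of_add_eq_zero_left h)

lemma tz_tt (x y : ℝ) (p : ℤ × ℤ) :
    tz (tt x y) p = lat x y p ^ 2 / ((Q x y p : ℝ) : ℂ) ^ 4 := by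
  have h1 : lz (tt x y) p = p.2 * tt x y + p.1 := by rw [lz, add_comm]
  rw [term_eq, tz, rt, h1]

lemma FF_hasSum (x : ℝ) {y : ℝ} (hy : 0 < y) :
    HasSum (fun p : ℤ × ℤ => lat x y p ^ 2 / ((Q x y p : ℝ) : ℂ) ^ 4) (FF (tt x y)) := by
  have h := hasSum_Z x hy (s := 4) (by norm_num)
  have h1 : HasSum (fun p : ℤ × ℤ => lat x y p ^ 2 / ((Q x y p : ℝ) : ℂ) ^ 4)
      (LatL.Z x hy 4) := h.congr_fun fun p => by
    rw [show (4 : ℂ) = ((4 : ℕ) : ℂ) by norm_num, Complex.cpow_natCast]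
  have h2 : FF (tt x y) = LatL.Z x hy 4 := by
    rw [FF, ← h1.tsum_eq]
    exact tsum_congr fun p => tz_tt x y p
  rw [h2]
  exact h1

lemma ext_i : Ext (tt 0 1) := by
  have ht : tt 0 1 = I := by simp [tt]
  refine ⟨I, Complex.norm_I, fun h => ?_, fun h => ?_, fun p => ⟨(-p.2, p.1), ?_⟩⟩
  · have := congrArg Complex.im h
    simp at this
  · have := congrArg Complex.im h
    simp at this
  · rw [ht, lz, lz]
    push_cast
    linear_combination (p.2 : ℂ) * I_mul_I

lemma ext_rho {y : ℝ} (hy0 : 0 < y) (hy : y ^ 2 = 3 / 4) : Ext (tt (1 / 2) y) := by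
  have hc : ((y : ℂ)) ^ 2 = 3 / 4 := by
    have : ((y ^ 2 : ℝ) : ℂ) = ((3 / 4 : ℝ) : ℂ) := by rw [hy]
    push_cast at this
    exact this
  have hq : tt (1 / 2) y * tt (1 / 2) y = tt (1 / 2) y - 1 := by
    rw [tt]
    push_cast
    have hI := I_sq
    linear_combination (-1 : ℂ) * hc + (y : ℂ) ^ 2 * hI
  refine ⟨tt (1 / 2) y, ?_, fun h => ?_, fun h => ?_, fun p => ⟨(-p.2, p.1 + p.2), ?_⟩⟩
  · have h1 : ‖tt (1 / 2) y‖ ^ 2 = 1 := by
      rw [← Complex.normSq_eq_norm_sq, Complex.normSq_apply, tt_re, tt_im]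
      nlinarith
    exact (pow_eq_one_iff_of_nonneg (norm_nonneg _) (by norm_num)).1 h1
  · have := congrArg Complex.im h
    rw [tt_im, Complex.one_im] at this
    exact hy0.ne' this
  · have := congrArg Complex.im h
    rw [tt_im, Complex.neg_im, Complex.one_im, neg_zero] at this
    exact hy0.ne' this
  · rw [lz, lz]
    push_cast
    linear_combination (p.2 : ℂ) * hq

/-- the alternative for `0 ≤ x ≤ 1/2`, `x² + y² ≥ 1` -/
lemma alt1 {x y : ℝ} (hy : 0 < y) (hx : 0 ≤ x) (hx1 : x ≤ 1 / 2) (hn : 1 ≤ x ^ 2 + y ^ 2) :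
    FF (tt x y) ≠ 0 ∨ Ext (tt x y) := by
  have hy2 : 3 / 4 ≤ y ^ 2 := by nlinarith
  have hy45 : 4 / 5 ≤ y := by nlinarith
  rcases hx.eq_or_lt with h0 | h0
  · subst h0
    have hy1 : 1 ≤ y := by nlinarith
    rcases hy1.eq_or_lt with h1 | h1
    · right
      rw [← h1]
      exact ext_i
    · left
      have h2 : FF (tt 0 1) = 0 := FF_ext (by rw [tt_im]; norm_num) ext_i
      have h3 := mono (x := 0) (y0 := 1) (by norm_num) h1 (FF_hasSum 0 one_pos) (FF_hasSum 0 hy)
      rw [h2, Complex.zero_re, mul_zero] at h3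
      intro h4
      rw [h4, Complex.zero_re, mul_zero] at h3
      exact lt_irrefl _ h3
  · rcases hx1.eq_or_lt with h1 | h1
    · subst h1
      set y0 : ℝ := Real.sqrt (3 / 4) with hy0
      have hs : y0 ^ 2 = 3 / 4 := Real.sq_sqrt (by norm_num)
      have hp : 0 < y0 := Real.sqrt_pos.2 (by norm_num)
      have hle : y0 ≤ y := by
        rw [hy0]
        exact (Real.sqrt_le_left hy.le).2 hy2
      rcases hle.eq_or_lt with h2 | h2
      · right
        exact ext_rho hy (by rw [← h2]; exact hs)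
      · left
        have h3 : FF (tt (1 / 2) y0) = 0 := FF_ext (by rw [tt_im]; exact hp) (ext_rho hp hs)
        have h4 := mono (x := 1 / 2) (y0 := y0) (by nlinarith) h2 (FF_hasSum (1 / 2) hp)
          (FF_hasSum (1 / 2) hy)
        rw [h3, Complex.zero_re, mul_zero] at h4
        intro h5
        rw [h5, Complex.zero_re, mul_zero] at h4
        exact lt_irrefl _ h4
    · left
      intro h2
      have h3 := im_ne hy45 h0 h1 (FF_hasSum x hy)
      rw [h2] at h3
      exact h3 rfl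

lemma tt_eq (z : ℂ) : tt z.re z.im = z := by
  apply Complex.ext
  · rw [tt_re]
  · rw [tt_im]

lemma lz_conj (x y : ℝ) (p : ℤ × ℤ) : lz (tt (-x) y) p = cj (lz (tt x y) (p.1, -p.2)) := by
  simp only [lz, tt, cj, map_add, map_mul, map_intCast, Complex.conj_ofReal, Complex.conj_I]
  push_cast
  ring

lemma FF_conj (x y : ℝ) : FF (tt (-x) y) = cj (FF (tt x y)) := by
  have h1 : ∀ p : ℤ × ℤ, tz (tt (-x) y) p = cj (tz (tt x y) (p.1, -p.2)) := by
    intro p
    rw [tz, tz, lz_conj]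
    simp only [cj, map_div₀, map_mul, map_pow, map_one, Complex.conj_conj]
  rw [FF, tsum_congr h1]
  have h2 := ((Equiv.refl ℤ).prodCongr (Equiv.neg ℤ)).tsum_eq (fun p => cj (tz (tt x y) p))
  have h3 : cj (FF (tt x y)) = ∑' p : ℤ × ℤ, cj (tz (tt x y) p) := by
    rw [FF]
    exact Complex.conj_tsum _
  rw [h3, ← h2]
  rfl

lemma Ext_conj {x y : ℝ} (h : Ext (tt x y)) : Ext (tt (-x) y) := by
  obtain ⟨u, hu, h1, h2, h3⟩ := h
  refine ⟨cj u, by rw [cj, Complex.norm_conj]; exact hu, fun h => h1 ?_, fun h => h2 ?_, fun p => ?_⟩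
  · have := congrArg cj h
    simpa [cj] using this
  · have := congrArg cj h
    simpa [cj] using this
  · obtain ⟨r, hr⟩ := h3 (p.1, -p.2)
    refine ⟨(r.1, -r.2), ?_⟩
    rw [lz_conj, lz_conj, neg_neg, ← hr]
    simp only [cj, map_mul]

lemma alt2 {x y : ℝ} (hy : 0 < y) (hx1 : |x| ≤ 1 / 2) (hn : 1 ≤ x ^ 2 + y ^ 2) :
    FF (tt x y) ≠ 0 ∨ Ext (tt x y) := by
  rcases le_total 0 x with h | h
  · exact alt1 hy h (by rwa [abs_of_nonneg h] at hx1) hn
  · have h1 : -x ≤ 1 / 2 := by rwa [abs_of_nonpos h] at hx1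
    have h2 := alt1 hy (neg_nonneg.2 h) h1 (by rw [neg_sq]; exact hn)
    rcases h2 with h3 | h3
    · left
      rw [FF_conj] at h3
      intro h4
      rw [h4] at h3
      exact h3 (by simp [cj])
    · right
      have := Ext_conj h3
      rwa [neg_neg] at this

/-- **the alternative**: the sum is not zero or the lattice has an extra unit -/
theorem FF_alt {z : ℂ} (hz : 0 < z.im) : FF z ≠ 0 ∨ Ext z := by
  obtain ⟨g, hg⟩ := ModularGroup.exists_smul_mem_fd (⟨z, hz⟩ : ℍ)
  set w : ℂ := ((g • (⟨z, hz⟩ : ℍ) : ℍ) : ℂ) with hw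
  have hwim : 0 < w.im := (g • (⟨z, hz⟩ : ℍ)).im_pos
  have h1 : 1 ≤ w.re ^ 2 + w.im ^ 2 := by
    have := hg.1
    rw [Complex.normSq_apply] at this
    linarith [sq w.re, sq w.im]
  have h2 : |w.re| ≤ 1 / 2 := hg.2
  have h3 := alt2 hwim h2 h1
  rw [tt_eq] at h3
  have hdet : (g 1 1) * (g 0 0) - (g 1 0) * (g 0 1) = (1 : ℤ) := by
    have := g.det_coe
    rw [Matrix.det_fin_two] at this
    linarith
  set k : ℂ := (g 1 1 : ℤ) + (g 1 0 : ℤ) * z with hk
  have hk0 : k ≠ 0 := by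
    intro h0
    have f1 := congrArg Complex.im h0
    have f2 := congrArg Complex.re h0
    rw [hk] at f1 f2
    simp at f1 f2
    rcases f1 with f1 | f1
    · rw [f1] at f2 hdet
      simp at f2
      rw [f2] at hdet
      simp at hdet
    · exact hz.ne' f1
  have h4 : w = ((g 0 0 : ℤ) * z + (g 0 1 : ℤ)) / k := by
    rw [hw, UpperHalfPlane.coe_specialLinearGroup_apply, hk]
    simp
    congr 1
    ring
  have h5 : k * w = (g 0 1 : ℤ) + (g 0 0 : ℤ) * z := by
    rw [h4]
    field_simp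
    ring
  rcases h3 with h6 | ⟨u, hu, hu1, hu2, hu3⟩
  · left
    rw [FF_me hk0 hdet hk h5] at h6
    exact right_ne_zero_of_mul h6
  · right
    refine ⟨u, hu, hu1, hu2, fun p => ?_⟩
    obtain ⟨r, hr⟩ := hu3 ((me _ _ _ _ hdet).symm p)
    refine ⟨me _ _ _ _ hdet r, ?_⟩
    rw [← lz_me hdet hk h5 r, ← hr]
    have h7 := lz_me hdet hk h5 ((me _ _ _ _ hdet).symm p)
    rw [Equiv.apply_symm_apply] at h7
    rw [← h7]
    ring

/-- `Σ λ⁻² λ̄⁻⁴ = 0` exactly when the lattice has a unit different from `±1` -/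
theorem FF_iff {z : ℂ} (hz : 0 < z.im) : FF z = 0 ↔ Ext z :=
  ⟨fun h => (FF_alt hz).resolve_left fun h1 => h1 h, FF_ext hz⟩

end

end UQO.NvA
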