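import Pool.Agent.UQO.NvSum

/-!
# UQO/NvMono: `y⁵ Re f` increases, `Im f ≠ 0` for `0 < x < 1/2`
-/

open Complex Filter Topology LatL

namespace UQO.NvA

noncomputable section

lemma dbl {t : ℕ → ℕ → ℝ} {C r : ℝ} (hr0 : 0 ≤ r) (hr1 : r < 1)
    (ht : ∀ n j, |t n j| ≤ C * r ^ (n + j)) {c : ℕ → ℝ} (hc : ∀ n, 0 ≤ c n ∧ c n ≤ 1)
    (hc0 : c 0 = 1) {S : ℝ} (h : HasSum (fun n => c n * ∑' j, t n j) S) :
    |S - t 0 0| ≤ C * (1 / (1 - r) ^ 2 - 1) := by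
  have hr2 : 0 < 1 - r := by linarith
  have hC : 0 ≤ C := by
    have := (abs_nonneg _).trans (ht 0 0)
    simpa using this
  have hg : HasSum (fun j : ℕ => r ^ j) (1 - r)⁻¹ := hasSum_geometric_of_lt_one hr0 hr1
  have hs : ∀ n, Summable (t n) := fun n =>
    Summable.of_norm_bounded ((hg.mul_left (C * r ^ n)).summable) (fun j => by
      rw [Real.norm_eq_abs, mul_assoc, ← pow_add]
      exact ht n j)
  have hb : ∀ n, |∑' j, t n j| ≤ C * r ^ n * (1 - r)⁻¹ := fun n => by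
    rw [← Real.norm_eq_abs]
    refine tsum_of_norm_bounded (hg.mul_left (C * r ^ n)) (fun j => ?_)
    rw [Real.norm_eq_abs, mul_assoc, ← pow_add]
    exact ht n j
  have hb0 : |(∑' j, t 0 j) - t 0 0| ≤ C * r * (1 - r)⁻¹ := by
    have h1 := (hs 0).tsum_eq_zero_add
    rw [h1, add_sub_cancel_left, ← Real.norm_eq_abs]
    refine tsum_of_norm_bounded (hg.mul_left (C * r)) (fun j => ?_)
    have h2 := ht 0 (j + 1)
    rw [Real.norm_eq_abs]
    refine h2.trans (le_of_eq ?_)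
    rw [zero_add, pow_succ]
    ring
  have h2 := h.summable.tsum_eq_zero_add
  rw [h.tsum_eq, hc0, one_mul] at h2
  have h3 : |∑' n : ℕ, c (n + 1) * ∑' j, t (n + 1) j| ≤ C * r * (1 - r)⁻¹ * (1 - r)⁻¹ := by
    rw [← Real.norm_eq_abs]
    refine tsum_of_norm_bounded (hg.mul_left (C * r * (1 - r)⁻¹)) (fun n => ?_)
    rw [Real.norm_eq_abs, abs_mul, abs_of_nonneg (hc (n + 1)).1]
    have h4 := hb (n + 1)
    calc c (n + 1) * |∑' j, t (n + 1) j| ≤ 1 * |∑' j, t (n + 1) j| :=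
          mul_le_mul_of_nonneg_right (hc (n + 1)).2 (abs_nonneg _)
      _ ≤ C * r ^ (n + 1) * (1 - r)⁻¹ := by rw [one_mul]; exact h4
      _ = C * r * (1 - r)⁻¹ * r ^ n := by rw [pow_succ]; ring
  have h5 : S - t 0 0 = ((∑' j, t 0 j) - t 0 0) + ∑' n : ℕ, c (n + 1) * ∑' j, t (n + 1) j := by
    rw [h2]; ring
  rw [h5]
  refine (abs_add_le _ _).trans ((add_le_add hb0 h3).trans (le_of_eq ?_))
  field_simp
  ring

lemma dbl' {t : ℕ → ℕ → ℝ} {C r : ℝ} (hr0 : 0 ≤ r) (hr1 : r < 1)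
    (ht : ∀ n j, |t n j| ≤ C * r ^ (n + j)) {c : ℕ → ℝ} (hc : ∀ n, 0 ≤ c n ∧ c n ≤ 1)
    (hc0 : c 0 = 1) {S : ℝ} (h : HasSum (fun n => c n * ∑' j, t n j) S) :
    |S| ≤ C * (1 / (1 - r) ^ 2) := by
  have h1 := dbl hr0 hr1 ht hc hc0 h
  have h2 := ht 0 0
  simp only [add_zero, pow_zero, mul_one] at h2
  have h3 := abs_add_le (S - t 0 0) (t 0 0)
  rw [sub_add_cancel] at h3
  linarith

lemma four_le (k : ℕ) : ((k + 1 : ℕ) : ℝ) ^ 4 ≤ 16 ^ k := by
  have h : (k + 1) ^ 4 ≤ 16 ^ k := by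
    have h1 : k + 1 ≤ 2 ^ k := Nat.succ_le_of_lt Nat.lt_two_pow_self
    calc (k + 1) ^ 4 ≤ (2 ^ k) ^ 4 := Nat.pow_le_pow_left h1 4
      _ = 16 ^ k := by rw [← pow_mul, mul_comm, pow_mul]; norm_num
  exact_mod_cast h

lemma exp5 : Real.exp (-5) ≤ 1 / 148.4 := by
  have h1 : Real.exp 5 = Real.exp 1 ^ 5 := by rw [← Real.exp_nat_mul]; norm_num
  have h2 : (148.4 : ℝ) ≤ Real.exp 5 := by
    rw [h1]
    have h3 := Real.exp_one_gt_d9
    calc (148.4 : ℝ) ≤ 2.7182818283 ^ 5 := by norm_num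
      _ ≤ Real.exp 1 ^ 5 := pow_le_pow_left₀ (by norm_num) h3.le 5
  rw [Real.exp_neg, ← one_div]
  exact one_div_le_one_div_of_le (by norm_num) h2

/-- `N⁴ e^{-(N-1) w} ≤ r^{n+j}` for `w ≥ 5`, `N = (n+1)(j+1)`, `r = 0.108` -/
lemma pow_bd {w : ℝ} (hw : 5 ≤ w) (n j : ℕ) :
    (((n + 1) * (j + 1) : ℕ) : ℝ) ^ 4 * Real.exp (-((((n + 1) * (j + 1) : ℕ) : ℝ) - 1) * w) ≤
      (0.108 : ℝ) ^ (n + j) := by
  obtain ⟨k, hk⟩ : ∃ k, (n + 1) * (j + 1) = k + 1 := ⟨n * j + n + j, by ring⟩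
  have hk2 : n + j ≤ k := by nlinarith
  rw [hk]
  have h1 := four_le k
  have h2 : Real.exp (-(((k + 1 : ℕ) : ℝ) - 1) * w) ≤ (1 / 148.4) ^ k := by
    have h3 : -(((k + 1 : ℕ) : ℝ) - 1) * w = (k : ℝ) * (-w) := by push_cast; ring
    rw [h3, Real.exp_nat_mul]
    refine pow_le_pow_left₀ (Real.exp_pos _).le ?_ k
    refine le_trans (Real.exp_le_exp.2 ?_) exp5
    linarith
  calc ((k + 1 : ℕ) : ℝ) ^ 4 * Real.exp (-(((k + 1 : ℕ) : ℝ) - 1) * w)
      ≤ 16 ^ k * (1 / 148.4) ^ k := mul_le_mul h1 h2 (Real.exp_pos _).le (by positivity)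
    _ = (16 / 148.4) ^ k := by rw [← mul_pow]; congr 1; norm_num
    _ ≤ (0.108 : ℝ) ^ k := pow_le_pow_left₀ (by norm_num) (by norm_num) k
    _ ≤ (0.108 : ℝ) ^ (n + j) := pow_le_pow_of_le_one (by norm_num) (by norm_num) hk2

lemma decr {s t : ℝ} (hs : 3 ≤ s) (ht : s ≤ t) :
    Real.exp (-t) * t ^ 3 ≤ Real.exp (-s) * s ^ 3 := by
  have hs0 : 0 < s := by linarith
  have h1 : t / s ≤ Real.exp ((t - s) / 3) := by
    have h2 := Real.add_one_le_exp ((t - s) / 3)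
    refine le_trans ?_ h2
    rw [div_le_iff₀ hs0]
    nlinarith
  have h3 : (t / s) ^ 3 ≤ Real.exp (t - s) := by
    calc (t / s) ^ 3 ≤ Real.exp ((t - s) / 3) ^ 3 :=
          pow_le_pow_left₀ (div_nonneg (by linarith) hs0.le) h1 3
      _ = Real.exp (t - s) := by rw [← Real.exp_nat_mul]; congr 1; push_cast; ring
  have h4 : Real.exp (-s) = Real.exp (-t) * Real.exp (t - s) := by
    rw [← Real.exp_add]; congr 1; ring
  rw [h4, mul_assoc]
  refine mul_le_mul_of_nonneg_left ?_ (Real.exp_pos _).le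
  calc t ^ 3 = (t / s) ^ 3 * s ^ 3 := by field_simp
    _ ≤ Real.exp (t - s) * s ^ 3 := mul_le_mul_of_nonneg_right h3 (by positivity)

lemma ph_deriv (w : ℝ) : HasDerivAt ph (-(Real.exp (-w) * w ^ 3 / 3)) w := by
  have h1 : HasDerivAt (fun w : ℝ => Real.exp (-w)) (Real.exp (-w) * (-1)) w :=
    (hasDerivAt_neg w).exp
  have h2 : HasDerivAt (fun w : ℝ => 2 + 2 * w + w ^ 2 + w ^ 3 / 3) (2 + 2 * w + w ^ 2) w := by
    have := (((hasDerivAt_id w).const_mul 2).const_add 2).add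
      (((hasDerivAt_pow 2 w)).add ((hasDerivAt_pow 3 w).div_const 3))
    refine (this.congr_deriv ?_).congr_of_eventuallyEq (Filter.Eventually.of_forall fun v => ?_)
    · push_cast; ring
    · simp only [id, Pi.add_apply]; ring
  refine (h1.mul h2).congr_deriv ?_
  ring

lemma ph_diff {s t : ℝ} (hs : 3 ≤ s) (ht : s ≤ t) :
    |ph t - ph s| ≤ Real.exp (-s) * s ^ 3 / 3 * (t - s) := by
  have h := (convex_Ici s).norm_image_sub_le_of_norm_hasDerivWithin_le (f := ph)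
    (f' := fun w => -(Real.exp (-w) * w ^ 3 / 3)) (C := Real.exp (-s) * s ^ 3 / 3)
    (fun w _ => (ph_deriv w).hasDerivWithinAt) (fun w hw => by
      have hw' : s ≤ w := hw
      have h0 : 0 ≤ w := by linarith
      rw [norm_neg, Real.norm_of_nonneg (by positivity)]
      have := decr hs hw'
      linarith) (show s ∈ Set.Ici s from le_refl s) (show t ∈ Set.Ici s from ht)
  rwa [Real.norm_eq_abs, Real.norm_eq_abs, abs_of_nonneg (sub_nonneg.2 ht)] at h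

lemma two_pi_ge {y : ℝ} (hy : 4 / 5 ≤ y) : 5 ≤ 2 * Real.pi * y := by
  have := Real.pi_gt_d4
  nlinarith

lemma tre_bd {x y0 y : ℝ} (h0 : 4 / 5 ≤ y0) (hy : y0 ≤ y) (n j : ℕ) :
    |tre x y n j - tre x y0 n j| ≤ (2 * Real.pi * (y - y0) * 0.281) * (0.108 : ℝ) ^ (n + j) := by
  have hw := two_pi_ge h0
  have hpi := Real.pi_pos
  have hp := pow_bd hw n j
  have hN : (1 : ℝ) ≤ (((n + 1) * (j + 1) : ℕ) : ℝ) := by
    have : 1 ≤ (n + 1) * (j + 1) := Nat.mul_pos (Nat.succ_pos n) (Nat.succ_pos j)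
    exact_mod_cast this
  rw [tre, tre]
  generalize (((n + 1) * (j + 1) : ℕ) : ℝ) = N at *
  have hs : 3 ≤ 2 * Real.pi * N * y0 := by nlinarith
  have ht : 2 * Real.pi * N * y0 ≤ 2 * Real.pi * N * y :=
    mul_le_mul_of_nonneg_left hy (by positivity)
  have h1 := ph_diff hs ht
  have h2 : Real.cos (2 * Real.pi * N * x) * ph (2 * Real.pi * N * y) -
      Real.cos (2 * Real.pi * N * x) * ph (2 * Real.pi * N * y0) =
      Real.cos (2 * Real.pi * N * x) * (ph (2 * Real.pi * N * y) - ph (2 * Real.pi * N * y0)) := by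
    ring
  rw [h2, abs_mul]
  have h3 : Real.exp (-(2 * Real.pi * y0)) * (2 * Real.pi * y0) ^ 3 / 3 ≤ 0.281 := by
    have h4 := decr (s := 5) (by norm_num) hw
    have h5 := exp5
    nlinarith
  have h6 : Real.exp (-(2 * Real.pi * N * y0)) =
      Real.exp (-(N - 1) * (2 * Real.pi * y0)) * Real.exp (-(2 * Real.pi * y0)) := by
    rw [← Real.exp_add]; congr 1; ring
  have h7 : 0 ≤ 2 * Real.pi * (y - y0) := by
    have : 0 ≤ y - y0 := by linarith
    positivity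
  have h8 : 0 ≤ Real.exp (-(2 * Real.pi * y0)) * (2 * Real.pi * y0) ^ 3 / 3 := by
    have : 0 ≤ 2 * Real.pi * y0 := by linarith
    positivity
  calc |Real.cos (2 * Real.pi * N * x)| * |ph (2 * Real.pi * N * y) - ph (2 * Real.pi * N * y0)|
      ≤ 1 * (Real.exp (-(2 * Real.pi * N * y0)) * (2 * Real.pi * N * y0) ^ 3 / 3 *
          (2 * Real.pi * N * y - 2 * Real.pi * N * y0)) :=
        mul_le_mul (Real.abs_cos_le_one _) h1 (abs_nonneg _) (by norm_num)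
    _ = (2 * Real.pi * (y - y0) *
          (Real.exp (-(2 * Real.pi * y0)) * (2 * Real.pi * y0) ^ 3 / 3)) *
          (N ^ 4 * Real.exp (-(N - 1) * (2 * Real.pi * y0))) := by
        rw [h6]; ring
    _ ≤ (2 * Real.pi * (y - y0) * 0.281) * (0.108 : ℝ) ^ (n + j) :=
        mul_le_mul (mul_le_mul_of_nonneg_left h3 h7) hp (by positivity) (by positivity)

lemma c_bd (n : ℕ) : 0 ≤ 1 / ((n + 1 : ℕ) : ℝ) ^ 5 ∧ 1 / ((n + 1 : ℕ) : ℝ) ^ 5 ≤ 1 := by
  refine ⟨by positivity, ?_⟩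
  rw [div_le_one (by positivity)]
  have : (1 : ℝ) ≤ ((n + 1 : ℕ) : ℝ) := by
    have : 1 ≤ n + 1 := by omega
    exact_mod_cast this
  exact one_le_pow₀ this

theorem mono {x y0 y : ℝ} (h0 : 4 / 5 ≤ y0) (hy : y0 < y) {E0 E : ℂ}
    (hE0 : HasSum (fun p : ℤ × ℤ => lat x y0 p ^ 2 / ((Q x y0 p : ℝ) : ℂ) ^ 4) E0)
    (hE : HasSum (fun p : ℤ × ℤ => lat x y p ^ 2 / ((Q x y p : ℝ) : ℂ) ^ 4) E) :
    y0 ^ 5 * E0.re < y ^ 5 * E.re := by
  have hy0 : 0 < y0 := by linarith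
  have hy1 : 0 < y := by linarith
  have h1 := (re_sum hy1 hE).sub (re_sum hy0 hE0)
  have h2 : HasSum (fun n : ℕ => 1 / ((n + 1 : ℕ) : ℝ) ^ 5 *
      ∑' j : ℕ, (tre x y n j - tre x y0 n j))
      (2 * y ^ 5 / Real.pi * (Z6 - E.re) - 2 * y0 ^ 5 / Real.pi * (Z6 - E0.re)) := by
    refine h1.congr_fun fun n => ?_
    rw [(tre_sum hy1 n).tsum_sub (tre_sum hy0 n)]
    ring
  have h3 := dbl' (t := fun n j => tre x y n j - tre x y0 n j) (by norm_num) (by norm_num)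
    (tre_bd h0 hy.le) c_bd (by norm_num) h2
  have h4 := (abs_le.1 h3).2
  have hpi := Real.pi_pos
  have hpi2 : Real.pi ^ 2 ≤ 9.87 := by
    have := Real.pi_lt_d4
    nlinarith
  have hZ := Z6_ge
  have h5 : Z6 * (y ^ 5 - y0 ^ 5) - (y ^ 5 * E.re - y0 ^ 5 * E0.re) ≤
      Real.pi ^ 2 * (y - y0) * 0.281 * (1 / (1 - 0.108) ^ 2) := by
    have h6 : 2 * y ^ 5 / Real.pi * (Z6 - E.re) - 2 * y0 ^ 5 / Real.pi * (Z6 - E0.re) =
        2 / Real.pi * (Z6 * (y ^ 5 - y0 ^ 5) - (y ^ 5 * E.re - y0 ^ 5 * E0.re)) := by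
      field_simp
      ring
    rw [h6] at h4
    have h7 := mul_le_mul_of_nonneg_left h4 (show 0 ≤ Real.pi / 2 by positivity)
    calc Z6 * (y ^ 5 - y0 ^ 5) - (y ^ 5 * E.re - y0 ^ 5 * E0.re) =
        Real.pi / 2 * (2 / Real.pi * (Z6 * (y ^ 5 - y0 ^ 5) - (y ^ 5 * E.re - y0 ^ 5 * E0.re))) := by
          field_simp
      _ ≤ _ := h7
      _ = _ := by ring
  have h8 : 5 * y0 ^ 4 * (y - y0) ≤ y ^ 5 - y0 ^ 5 := by
    have h9 : y ^ 5 - y0 ^ 5 - 5 * y0 ^ 4 * (y - y0) =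
        (y - y0) ^ 2 * (y ^ 3 + 2 * y ^ 2 * y0 + 3 * y * y0 ^ 2 + 4 * y0 ^ 3) := by ring
    have h10 : 0 ≤ (y - y0) ^ 2 * (y ^ 3 + 2 * y ^ 2 * y0 + 3 * y * y0 ^ 2 + 4 * y0 ^ 3) := by
      positivity
    linarith
  have h11 : (0.4096 : ℝ) ≤ y0 ^ 4 := by
    calc (0.4096 : ℝ) = (4 / 5) ^ 4 := by norm_num
      _ ≤ y0 ^ 4 := pow_le_pow_left₀ (by norm_num) h0 4
  have hd : 0 < y - y0 := by linarith
  have h12 : 2 * (5 * 0.4096 * (y - y0)) ≤ Z6 * (y ^ 5 - y0 ^ 5) := by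
    have h13 : 5 * 0.4096 * (y - y0) ≤ y ^ 5 - y0 ^ 5 := by
      refine le_trans ?_ h8
      exact mul_le_mul_of_nonneg_right (by linarith) hd.le
    have h14 : 0 ≤ 5 * 0.4096 * (y - y0) := by positivity
    exact mul_le_mul hZ h13 h14 (by linarith)
  have h15 : Real.pi ^ 2 * (y - y0) * 0.281 * (1 / (1 - 0.108) ^ 2) ≤ 4 * (y - y0) := by
    have h16 : Real.pi ^ 2 * (y - y0) ≤ 9.87 * (y - y0) := mul_le_mul_of_nonneg_right hpi2 hd.le
    norm_num
    nlinarith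
  nlinarith

lemma sin_nat (a : ℝ) (N : ℕ) : |Real.sin ((N : ℝ) * a)| ≤ N * |Real.sin a| := by
  induction N with
  | zero => simp
  | succ k ih =>
    have h1 : ((k + 1 : ℕ) : ℝ) * a = k * a + a := by push_cast; ring
    rw [h1, Real.sin_add]
    calc |Real.sin (k * a) * Real.cos a + Real.cos (k * a) * Real.sin a|
        ≤ |Real.sin (k * a)| * |Real.cos a| + |Real.cos (k * a)| * |Real.sin a| := by
          rw [← abs_mul, ← abs_mul]; exact abs_add_le _ _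
      _ ≤ |Real.sin (k * a)| * 1 + 1 * |Real.sin a| :=
          add_le_add (mul_le_mul_of_nonneg_left (Real.abs_cos_le_one _) (abs_nonneg _))
            (mul_le_mul_of_nonneg_right (Real.abs_cos_le_one _) (abs_nonneg _))
      _ ≤ ((k + 1 : ℕ) : ℝ) * |Real.sin a| := by push_cast; linarith

lemma tim_bd {x y : ℝ} (hy : 4 / 5 ≤ y) (n j : ℕ) :
    |tim x y n j| ≤ (|Real.sin (2 * Real.pi * x)| * kp (2 * Real.pi * y)) *
      (0.108 : ℝ) ^ (n + j) := by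
  have hw := two_pi_ge hy
  have hp := pow_bd hw n j
  have hs := sin_nat (2 * Real.pi * x) ((n + 1) * (j + 1))
  have hN : (1 : ℝ) ≤ (((n + 1) * (j + 1) : ℕ) : ℝ) := by
    have : 1 ≤ (n + 1) * (j + 1) := Nat.mul_pos (Nat.succ_pos n) (Nat.succ_pos j)
    exact_mod_cast this
  rw [tim, abs_neg, abs_mul]
  generalize (((n + 1) * (j + 1) : ℕ) : ℝ) = N at *
  have e1 : 2 * Real.pi * N * x = N * (2 * Real.pi * x) := by ring
  have e2 : 2 * Real.pi * N * y = N * (2 * Real.pi * y) := by ring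
  rw [e1, e2]
  generalize 2 * Real.pi * x = a at *
  generalize 2 * Real.pi * y = w at *
  have hw0 : 0 < w := by linarith
  have hN0 : 0 < N := by linarith
  have h1 : |kp (N * w)| ≤ N ^ 3 * Real.exp (-(N - 1) * w) * kp w := by
    have h2 : 0 ≤ kp (N * w) := by unfold kp; positivity
    rw [abs_of_nonneg h2, kp, kp]
    have h3 : Real.exp (-(N * w)) = Real.exp (-(N - 1) * w) * Real.exp (-w) := by
      rw [← Real.exp_add]; congr 1; ring
    have h4 : N * w + (N * w) ^ 2 + (N * w) ^ 3 / 3 ≤ N ^ 3 * (w + w ^ 2 + w ^ 3 / 3) := by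
      have h5 : 0 ≤ (N ^ 3 - N) * w := by
        have : N ^ 3 - N = N * (N - 1) * (N + 1) := by ring
        rw [this]
        have : 0 ≤ N - 1 := by linarith
        positivity
      have h6 : 0 ≤ (N ^ 3 - N ^ 2) * w ^ 2 := by
        have : N ^ 3 - N ^ 2 = N ^ 2 * (N - 1) := by ring
        rw [this]
        have : 0 ≤ N - 1 := by linarith
        positivity
      nlinarith
    calc Real.exp (-(N * w)) * (N * w + (N * w) ^ 2 + (N * w) ^ 3 / 3)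
        ≤ Real.exp (-(N * w)) * (N ^ 3 * (w + w ^ 2 + w ^ 3 / 3)) :=
          mul_le_mul_of_nonneg_left h4 (Real.exp_pos _).le
      _ = _ := by rw [h3]; ring
  have h7 : 0 ≤ kp w := by unfold kp; positivity
  calc |Real.sin (N * a)| * |kp (N * w)|
      ≤ (N * |Real.sin a|) * (N ^ 3 * Real.exp (-(N - 1) * w) * kp w) :=
        mul_le_mul hs h1 (abs_nonneg _) (by positivity)
    _ = (|Real.sin a| * kp w) * (N ^ 4 * Real.exp (-(N - 1) * w)) := by ring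
    _ ≤ (|Real.sin a| * kp w) * (0.108 : ℝ) ^ (n + j) :=
        mul_le_mul_of_nonneg_left hp (by positivity)

theorem im_ne {x y : ℝ} (hy : 4 / 5 ≤ y) (hx0 : 0 < x) (hx1 : x < 1 / 2) {E : ℂ}
    (h : HasSum (fun p : ℤ × ℤ => lat x y p ^ 2 / ((Q x y p : ℝ) : ℂ) ^ 4) E) : E.im ≠ 0 := by
  have hy0 : 0 < y := by linarith
  have hpi := Real.pi_pos
  have h1 := dbl (t := tim x y) (by norm_num) (by norm_num) (tim_bd hy) c_bd (by norm_num)
    (im_sum hy0 h)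
  have hs : 0 < Real.sin (2 * Real.pi * x) :=
    Real.sin_pos_of_pos_of_lt_pi (by positivity) (by nlinarith)
  have hk : 0 < kp (2 * Real.pi * y) := by unfold kp; positivity
  have h2 : tim x y 0 0 = -(Real.sin (2 * Real.pi * x) * kp (2 * Real.pi * y)) := by
    simp [tim]
  rw [h2, abs_of_pos hs] at h1
  set C := Real.sin (2 * Real.pi * x) * kp (2 * Real.pi * y)
  have hC : 0 < C := mul_pos hs hk
  intro h0
  rw [h0, neg_zero, mul_zero, zero_sub, neg_neg, abs_of_pos hC] at h1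
  norm_num at h1
  nlinarith

end

end UQO.NvA
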