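import Pool.Agent.K3R.LFunLattice

/-!
# UQO/NvRow: the row sums of `Σ λ⁻² λ̄⁻⁴`

For `z = X + i b`, `b > 0`, `q = exp (2 π i z)`:
`Σ_m 1 / ((z+m)² (z̄+m)⁴) = -(π / (4 b⁵)) (1 + Σ_{j ≥ 1} (q^j (1 + w/2) + q̄^j (1 + 3w/2 + w² + w³/3)))`,
`w = 2 π j b`.
-/

open Complex Filter Topology
open scoped UpperHalfPlane Nat

namespace UQO.NvA

noncomputable section

/-- complex conjugation -/
abbrev cj (z : ℂ) : ℂ := (starRingEnd ℂ) z

/-- `q = exp (2 π i z)` -/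
def q (z : ℂ) : ℂ := cexp (2 * Real.pi * I * z)

lemma mem_ic {z : ℂ} (hz : z.im ≠ 0) : z ∈ integerComplement := by
  rintro ⟨n, hn⟩
  apply hz
  rw [← hn]
  simp

lemma add_ne {z : ℂ} (hz : z.im ≠ 0) (m : ℤ) : z + m ≠ 0 := by
  intro h
  apply hz
  have := congrArg Complex.im h
  simpa using this

lemma sum_sq (z : ℂ) {k : ℕ} (hk : 2 ≤ k) :
    Summable (fun m : ℤ => 1 / (z + m) ^ k) := by
  have h := EisensteinSeries.linear_right_summable z 1 (k := k) (by exact_mod_cast hk)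
  refine h.congr fun m => ?_
  simp

lemma cj_add (z : ℂ) (m : ℤ) : cj (z + m) = cj z + m := by
  simp [cj]

lemma g_eq {z : ℂ} (hz : z.im ≠ 0) (m : ℤ) :
    1 / (z + m) - 1 / (cj z + m) = (cj z - z) * (1 / ((z + m) * cj (z + m))) := by
  have h1 := add_ne hz m
  have h2 : cj z + m ≠ 0 := by
    rw [← cj_add]
    exact (map_ne_zero _).2 h1
  rw [cj_add]
  field_simp
  ring

lemma g_sum {z : ℂ} (hz : z.im ≠ 0) :
    Summable (fun m : ℤ => 1 / (z + m) - 1 / (cj z + m)) := by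
  have h := (sum_sq z (k := 2) le_rfl).norm.mul_left ‖cj z - z‖
  refine Summable.of_norm (h.congr fun m => ?_)
  rw [g_eq hz, norm_mul, norm_div, norm_div, norm_pow, norm_mul, Complex.norm_conj, sq]

lemma cot_sum {z : ℂ} (hz : z.im ≠ 0) :
    HasSum (fun m : ℤ => 1 / (z + m) - 1 / (cj z + m))
      (Real.pi * cot (Real.pi * z) - Real.pi * cot (Real.pi * cj z)) := by
  have hz' : (cj z).im ≠ 0 := by simpa [cj] using hz
  have h1 := cot_series_rep' (mem_ic hz)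
  have h2 := cot_series_rep' (mem_ic hz')
  have s1 := summable_cotTerm (mem_ic hz)
  have s2 := summable_cotTerm (mem_ic hz')
  have h3 := (g_sum hz).hasSum
  have h4 := h3.nat_add_neg
  have h5 : HasSum (fun n : ℕ => (1 / (z + ((n + 1 : ℕ) : ℤ)) - 1 / (cj z + ((n + 1 : ℕ) : ℤ))) +
      (1 / (z + (-((n + 1 : ℕ) : ℤ) : ℤ)) - 1 / (cj z + (-((n + 1 : ℕ) : ℤ) : ℤ))))
      ((∑' m : ℤ, (1 / (z + m) - 1 / (cj z + m))) + (1 / (z + (0 : ℤ)) - 1 / (cj z + (0 : ℤ))) -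
        ∑ i ∈ Finset.range 1, ((1 / (z + ((i : ℕ) : ℤ)) - 1 / (cj z + ((i : ℕ) : ℤ))) +
      (1 / (z + (-((i : ℕ) : ℤ) : ℤ)) - 1 / (cj z + (-((i : ℕ) : ℤ) : ℤ))))) :=
    (hasSum_nat_add_iff' (f := fun n : ℕ => (1 / (z + ((n : ℕ) : ℤ)) - 1 / (cj z + ((n : ℕ) : ℤ))) +
      (1 / (z + (-((n : ℕ) : ℤ) : ℤ)) - 1 / (cj z + (-((n : ℕ) : ℤ) : ℤ)))) 1).2 h4
  have h6 : HasSum (fun n : ℕ => cotTerm z n - cotTerm (cj z) n)
      ((Real.pi * cot (Real.pi * z) - 1 / z) - (Real.pi * cot (Real.pi * cj z) - 1 / (cj z))) := by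
    rw [h1, h2]
    exact s1.hasSum.sub s2.hasSum
  have h7 := h5.unique (h6.congr_fun fun n => by
    simp only [cotTerm]
    push_cast
    ring)
  simp only [Finset.range_one, Finset.sum_singleton, Int.cast_zero, add_zero, Nat.cast_zero,
    neg_zero] at h7
  have h8 : (∑' m : ℤ, (1 / (z + m) - 1 / (cj z + m))) =
      Real.pi * cot (Real.pi * z) - Real.pi * cot (Real.pi * cj z) := by
    linear_combination h7
  rw [← h8]
  exact h3

lemma q_norm (z : ℂ) : ‖q z‖ = Real.exp (-(2 * Real.pi * z.im)) := by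
  rw [q, Complex.norm_exp]
  congr 1
  simp

lemma q_norm_lt {z : ℂ} (hz : 0 < z.im) : ‖q z‖ < 1 := by
  rw [q_norm, Real.exp_lt_one_iff]
  have := Real.pi_pos
  nlinarith [mul_pos this hz]

/-- `Σ_j (j+1)^k q^(j+1)` -/
def aq (z : ℂ) (k : ℕ) : ℂ := ∑' j : ℕ, ((j + 1 : ℕ) : ℂ) ^ k * q z ^ (j + 1)

lemma aq_sum {z : ℂ} (hz : 0 < z.im) (k : ℕ) :
    HasSum (fun j : ℕ => ((j + 1 : ℕ) : ℂ) ^ k * q z ^ (j + 1)) (aq z k) := by
  have h := summable_pow_mul_cexp k 1 ⟨z, hz⟩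
  have h1 := (summable_nat_add_iff 1).2 h
  refine (h1.congr fun j => ?_).hasSum
  simp [q]

lemma cot_q {z : ℂ} (hz : 0 < z.im) :
    Real.pi * cot (Real.pi * z) = -(Real.pi * I) - 2 * Real.pi * I * aq z 0 := by
  have h := pi_mul_cot_pi_q_exp ⟨z, hz⟩
  have h1 : (∑' n : ℕ, cexp (2 * Real.pi * I * z) ^ n) = 1 + aq z 0 := by
    have h2 : Summable (fun n : ℕ => q z ^ n) := summable_geometric_of_norm_lt_one (q_norm_lt hz)
    have h3 := h2.tsum_eq_zero_add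
    simp only [q] at h3
    rw [h3, aq]
    simp [q]
  rw [h]
  have h2 : ((⟨z, hz⟩ : ℍ) : ℂ) = z := rfl
  rw [h2, h1]
  ring

lemma zk_sum {z : ℂ} (hz : 0 < z.im) {k : ℕ} (hk : 1 ≤ k) :
    HasSum (fun m : ℤ => 1 / (z + m) ^ (k + 1))
      ((-2 * Real.pi * I) ^ (k + 1) / k ! * aq z k) := by
  have h := EisensteinSeries.qExpansion_identity hk ⟨z, hz⟩
  have h2 : ((⟨z, hz⟩ : ℍ) : ℂ) = z := rfl
  rw [h2] at h
  have h3 : (∑' n : ℕ, (n : ℂ) ^ k * cexp (2 * Real.pi * I * z) ^ n) = aq z k := by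
    have h4 := summable_pow_mul_cexp k 1 ⟨z, hz⟩
    rw [h2] at h4
    have h5 : Summable (fun n : ℕ => (n : ℂ) ^ k * cexp (2 * Real.pi * I * z) ^ n) := by
      refine h4.congr fun n => ?_
      simp
    have h6 := h5.tsum_eq_zero_add
    rw [h6, aq]
    have hk0 : k ≠ 0 := by omega
    simp [q, hk0]
  rw [h3] at h
  rw [← h]
  exact (sum_sq z (by omega)).hasSum

/-- the term of the row formula -/
def Tq (z : ℂ) (j : ℕ) : ℂ :=
  q z ^ (j + 1) * (1 + (2 * Real.pi * (j + 1 : ℕ) * z.im : ℝ) / 2) +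
  cj (q z) ^ (j + 1) * (1 + 3 * (2 * Real.pi * (j + 1 : ℕ) * z.im : ℝ) / 2 +
    (2 * Real.pi * (j + 1 : ℕ) * z.im : ℝ) ^ 2 + (2 * Real.pi * (j + 1 : ℕ) * z.im : ℝ) ^ 3 / 3)

lemma Tq_sum {z : ℂ} (hz : 0 < z.im) :
    HasSum (Tq z) (aq z 0 + Real.pi * z.im * aq z 1 + cj (aq z 0) +
      3 * Real.pi * z.im * cj (aq z 1) + 4 * Real.pi ^ 2 * z.im ^ 2 * cj (aq z 2) +
      8 * Real.pi ^ 3 * z.im ^ 3 / 3 * cj (aq z 3)) := by
  have hc : ∀ k : ℕ, HasSum (fun j : ℕ => cj (((j + 1 : ℕ) : ℂ) ^ k * q z ^ (j + 1)))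
      (cj (aq z k)) := fun k => Complex.hasSum_conj.2 (by simpa [cj] using aq_sum hz k)
  have h := (((((aq_sum hz 0).add ((aq_sum hz 1).mul_left ((Real.pi : ℂ) * z.im))).add (hc 0)).add
    ((hc 1).mul_left (3 * (Real.pi : ℂ) * z.im))).add
    ((hc 2).mul_left (4 * (Real.pi : ℂ) ^ 2 * z.im ^ 2))).add
    ((hc 3).mul_left (8 * (Real.pi : ℂ) ^ 3 * z.im ^ 3 / 3))
  refine h.congr_fun fun j => ?_
  simp only [Tq, cj, map_mul, map_pow, map_natCast]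
  push_cast
  ring

/-- the term of the row -/
def rt (z : ℂ) (m : ℤ) : ℂ := 1 / ((z + m) ^ 2 * cj (z + m) ^ 4)

/-- the sum of a row -/
def Rw (z : ℂ) : ℂ := -(Real.pi / (4 * z.im ^ 5)) * (1 + ∑' j : ℕ, Tq z j)

lemma pf {u v c : ℂ} (hu : u ≠ 0) (hv : v ≠ 0) (hc : c ≠ 0) (h : u = v + c) :
    1 / (u ^ 2 * v ^ 4) = 4 / c ^ 5 * (1 / u - 1 / v) + 1 / c ^ 4 * (1 / u ^ 2) +
      3 / c ^ 4 * (1 / v ^ 2) - 2 / c ^ 3 * (1 / v ^ 3) + 1 / c ^ 2 * (1 / v ^ 4) := by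
  subst h
  field_simp
  ring

theorem row {z : ℂ} (hz : 0 < z.im) : HasSum (rt z) (Rw z) := by
  have hb : (z.im : ℂ) ≠ 0 := by exact_mod_cast hz.ne'
  have hc : ∀ k : ℕ, 1 ≤ k → HasSum (fun m : ℤ => 1 / (cj z + m) ^ (k + 1))
      (cj ((-2 * Real.pi * I) ^ (k + 1) / k ! * aq z k)) := by
    intro k hk
    have h := zk_sum hz hk
    have h1 : HasSum (fun m : ℤ => cj (1 / (z + m) ^ (k + 1)))
      (cj ((-2 * Real.pi * I) ^ (k + 1) / k ! * aq z k)) :=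
      Complex.hasSum_conj.2 (by simpa [cj] using h)
    refine h1.congr_fun fun m => ?_
    simp [cj]
  have h0 := cot_sum hz.ne'
  have hcc : Real.pi * cot (Real.pi * cj z) = cj (Real.pi * cot (Real.pi * z)) := by
    simp only [cj, map_mul, Complex.conj_ofReal, ← Complex.cot_conj]
  rw [hcc, cot_q hz] at h0
  have h := ((((h0.mul_left (4 / (2 * I * z.im) ^ 5)).add
    ((zk_sum hz (k := 1) le_rfl).mul_left (1 / (2 * I * z.im) ^ 4))).add
    ((hc 1 le_rfl).mul_left (3 / (2 * I * z.im) ^ 4))).sub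
    ((hc 2 (by norm_num)).mul_left (2 / (2 * I * z.im) ^ 3))).add
    ((hc 3 (by norm_num)).mul_left (1 / (2 * I * z.im) ^ 2))
  have hT := (Tq_sum hz).tsum_eq
  have hv : Rw z = 4 / (2 * I * z.im) ^ 5 * (-(Real.pi * I) - 2 * Real.pi * I * aq z 0 -
        cj (-(Real.pi * I) - 2 * Real.pi * I * aq z 0)) +
      1 / (2 * I * z.im) ^ 4 * ((-2 * Real.pi * I) ^ (1 + 1) / (1 : ℕ)! * aq z 1) +
      3 / (2 * I * z.im) ^ 4 * cj ((-2 * Real.pi * I) ^ (1 + 1) / (1 : ℕ)! * aq z 1) -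
      2 / (2 * I * z.im) ^ 3 * cj ((-2 * Real.pi * I) ^ (2 + 1) / (2 : ℕ)! * aq z 2) +
      1 / (2 * I * z.im) ^ 2 * cj ((-2 * Real.pi * I) ^ (3 + 1) / (3 : ℕ)! * aq z 3) := by
    rw [Rw, hT]
    simp only [cj, map_mul, map_sub, map_neg, map_div₀, map_pow, Complex.conj_ofReal, Complex.conj_I,
      map_ofNat, Nat.factorial, map_natCast]
    have hI2 : I ^ 2 = -1 := I_sq
    have hI4 : I ^ 4 = 1 := I_pow_four
    have hI6 : I ^ 6 = -1 := by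
      have : I ^ 6 = I ^ 4 * I ^ 2 := by ring
      rw [this, hI4, hI2]; ring
    push_cast
    field_simp
    ring_nf
    simp only [hI2, hI4, hI6]
    ring_nf
  rw [hv]
  refine h.congr_fun fun m => ?_
  have h1 := add_ne hz.ne' m
  have h2 : cj (z + m) ≠ 0 := (map_ne_zero _).2 h1
  have h3 : z + m = cj (z + m) + 2 * I * z.im := by
    apply Complex.ext
    · simp [cj]
    · simp [cj]
      ring
  have h4 : 2 * I * (z.im : ℂ) ≠ 0 := by
    simp [hb]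
  rw [rt, pf h1 h2 h4 h3, cj_add]

end

end UQO.NvA
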