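import Pool.Agent.UQO.NvRow

/-!
# UQO/NvSum: `Σ λ² / |λ|⁸` as a sum of rows, real and imaginary parts
-/

open Complex Filter Topology LatL

namespace UQO.NvA

noncomputable section

/-- `τ = x + i y` -/
def tt (x y : ℝ) : ℂ := x + y * I

lemma tt_re (x y : ℝ) : (tt x y).re = x := by simp [tt]
lemma tt_im (x y : ℝ) : (tt x y).im = y := by simp [tt]

lemma lat_eq (x y : ℝ) (p : ℤ × ℤ) : lat x y p = p.2 * tt x y + p.1 := by
  rw [lat, tt]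
  push_cast
  ring

lemma term_eq (x y : ℝ) (p : ℤ × ℤ) :
    lat x y p ^ 2 / ((Q x y p : ℝ) : ℂ) ^ 4 = rt (p.2 * tt x y) p.1 := by
  have h1 : ((Q x y p : ℝ) : ℂ) = lat x y p * cj (lat x y p) := by
    rw [Complex.mul_conj, Q_eq, Complex.normSq_eq_norm_sq]
  rw [h1, rt, ← lat_eq]
  by_cases h0 : lat x y p = 0
  · rw [h0]; simp
  · have h2 : cj (lat x y p) ≠ 0 := (map_ne_zero _).2 h0
    field_simp

lemma rt_neg (z : ℂ) (m : ℤ) : rt (-z) m = rt z (-m) := by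
  have h : -z + (m : ℂ) = -(z + ((-m : ℤ) : ℂ)) := by push_cast; ring
  rw [rt, rt, h]
  simp only [cj, map_neg]
  ring

/-- `Σ_{m ≠ 0} m⁻⁶` -/
def Z6 : ℝ := ∑' m : ℤ, 1 / (m : ℝ) ^ 6

lemma Z6_sum : HasSum (fun m : ℤ => 1 / (m : ℝ) ^ 6) Z6 :=
  (Real.summable_one_div_int_pow.2 (by norm_num)).hasSum

lemma Z6_ge : 2 ≤ Z6 := by
  have h := sum_le_hasSum ({1, -1} : Finset ℤ) (fun m _ => by positivity) Z6_sum
  norm_num at h
  exact h

lemma row0 : HasSum (rt 0) (Z6 : ℂ) := by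
  have h := Complex.hasSum_ofReal.2 Z6_sum
  refine h.congr_fun fun m => ?_
  simp only [rt, cj, zero_add, map_intCast]
  push_cast
  ring

/-- the sum of the row `n` -/
def rr (x y : ℝ) (n : ℤ) : ℂ := if n = 0 then (Z6 : ℂ) else Rw (|n| * tt x y)

lemma row_n {x y : ℝ} (hy : 0 < y) (n : ℤ) : HasSum (rt (n * tt x y)) (rr x y n) := by
  rcases lt_trichotomy n 0 with h | h | h
  · have h1 : 0 < (((|n| : ℤ) : ℂ) * tt x y).im := by
      have : (0 : ℝ) < (|n| : ℤ) := by exact_mod_cast abs_pos.2 h.ne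
      have h2 : (((|n| : ℤ) : ℂ) * tt x y).im = ((|n| : ℤ) : ℝ) * y := by
        simp [tt]
      rw [h2]
      positivity
    have h2 := row h1
    have h3 := (Equiv.neg ℤ).hasSum_iff.2 h2
    rw [rr, if_neg h.ne]
    refine h3.congr_fun fun m => ?_
    have h4 : (n : ℂ) * tt x y = -(((|n| : ℤ) : ℂ) * tt x y) := by
      rw [abs_of_neg h]; push_cast; ring
    rw [h4, rt_neg]
    rfl
  · subst h
    rw [rr, if_pos rfl]
    simpa using row0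
  · rw [rr, if_neg h.ne', abs_of_pos h]
    refine row ?_
    have : (0 : ℝ) < n := by exact_mod_cast h
    have h2 : ((n : ℂ) * tt x y).im = (n : ℝ) * y := by
      simp [tt]
    rw [h2]
    positivity

lemma rr_sum {x y : ℝ} (hy : 0 < y) {E : ℂ}
    (h : HasSum (fun p : ℤ × ℤ => lat x y p ^ 2 / ((Q x y p : ℝ) : ℂ) ^ 4) E) :
    HasSum (rr x y) E := by
  have h1 := (Equiv.prodComm ℤ ℤ).hasSum_iff.2 h
  refine h1.prod_fiberwise fun n => ?_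
  refine (row_n hy n).congr_fun fun m => ?_
  simp only [Function.comp_apply, Equiv.prodComm_apply, Prod.swap_prod_mk]
  exact term_eq x y (m, n)

lemma Rw_sum {x y : ℝ} (hy : 0 < y) {E : ℂ}
    (h : HasSum (fun p : ℤ × ℤ => lat x y p ^ 2 / ((Q x y p : ℝ) : ℂ) ^ 4) E) :
    HasSum (fun n : ℕ => 2 * Rw (((n + 1 : ℕ) : ℂ) * tt x y)) (E - Z6) := by
  have h1 := (rr_sum hy h).nat_add_neg
  have h2 := (hasSum_nat_add_iff' (f := fun n : ℕ => rr x y (n : ℤ) + rr x y (-(n : ℤ))) 1).2 h1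
  have h3 : rr x y 0 = Z6 := by rw [rr, if_pos rfl]
  simp only [Finset.range_one, Finset.sum_singleton, Nat.cast_zero, neg_zero, h3] at h2
  have h4 : E + (Z6 : ℂ) - (Z6 + Z6) = E - Z6 := by ring
  rw [h4] at h2
  refine h2.congr_fun fun n => ?_
  have h5 : ((n + 1 : ℕ) : ℤ) ≠ 0 := by omega
  rw [rr, rr, if_neg h5, if_neg (neg_ne_zero.2 h5), abs_neg, abs_of_nonneg (by positivity)]
  push_cast
  ring

lemma im_n (x y : ℝ) (n : ℕ) : ((((n + 1 : ℕ) : ℂ)) * tt x y).im = ((n + 1 : ℕ) : ℝ) * y := by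
  simp [tt]

lemma re_n (x y : ℝ) (n : ℕ) : ((((n + 1 : ℕ) : ℂ)) * tt x y).re = ((n + 1 : ℕ) : ℝ) * x := by
  simp [tt]

theorem main_sum {x y : ℝ} (hy : 0 < y) {E : ℂ}
    (h : HasSum (fun p : ℤ × ℤ => lat x y p ^ 2 / ((Q x y p : ℝ) : ℂ) ^ 4) E) :
    HasSum (fun n : ℕ => ((1 / ((n + 1 : ℕ) : ℝ) ^ 5 : ℝ) : ℂ) *
      (1 + ∑' j : ℕ, Tq (((n + 1 : ℕ) : ℂ) * tt x y) j))
      (((2 * y ^ 5 / Real.pi : ℝ) : ℂ) * (Z6 - E)) := by
  have h1 := (Rw_sum hy h).mul_left (((-(2 * y ^ 5 / Real.pi) : ℝ)) : ℂ)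
  have h2 : (((-(2 * y ^ 5 / Real.pi) : ℝ)) : ℂ) * (E - Z6) =
      ((2 * y ^ 5 / Real.pi : ℝ) : ℂ) * (Z6 - E) := by
    push_cast
    ring
  rw [h2] at h1
  refine h1.congr_fun fun n => ?_
  rw [Rw, im_n]
  have hpi : (Real.pi : ℂ) ≠ 0 := by exact_mod_cast Real.pi_ne_zero
  have hyc : (y : ℂ) ≠ 0 := by exact_mod_cast hy.ne'
  have hn : (((n + 1 : ℕ) : ℝ) : ℂ) ≠ 0 := by
    have : ((n + 1 : ℕ) : ℝ) ≠ 0 := by positivity
    exact_mod_cast this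
  generalize (1 + ∑' j : ℕ, Tq (((n + 1 : ℕ) : ℂ) * tt x y) j) = S
  generalize (n + 1 : ℕ) = k at hn
  push_cast at hn ⊢
  field_simp
  norm_num

/-- `e^{-w} (2 + 2 w + w² + w³/3)` -/
def ph (w : ℝ) : ℝ := Real.exp (-w) * (2 + 2 * w + w ^ 2 + w ^ 3 / 3)

/-- `e^{-w} (w + w² + w³/3)` -/
def kp (w : ℝ) : ℝ := Real.exp (-w) * (w + w ^ 2 + w ^ 3 / 3)

lemma q_pow (z : ℂ) (j : ℕ) : q z ^ (j + 1) =
    ((Real.exp (-(2 * Real.pi * (j + 1 : ℕ) * z.im)) *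
      Real.cos (2 * Real.pi * (j + 1 : ℕ) * z.re) : ℝ) : ℂ) +
    ((Real.exp (-(2 * Real.pi * (j + 1 : ℕ) * z.im)) *
      Real.sin (2 * Real.pi * (j + 1 : ℕ) * z.re) : ℝ) : ℂ) * I := by
  have h : ((j + 1 : ℕ) : ℂ) * (2 * Real.pi * I * z) =
      ((-(2 * Real.pi * (j + 1 : ℕ) * z.im) : ℝ) : ℂ) +
      ((2 * Real.pi * (j + 1 : ℕ) * z.re : ℝ) : ℂ) * I := by
    apply Complex.ext
    · simp
      ring
    · simp
      ring
  rw [q, ← Complex.exp_nat_mul, h, Complex.exp_add, Complex.exp_mul_I, ← Complex.ofReal_exp,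
    ← Complex.ofReal_cos, ← Complex.ofReal_sin]
  push_cast
  ring

lemma Tq_eq (z : ℂ) (j : ℕ) : Tq z j =
    ((Real.cos (2 * Real.pi * (j + 1 : ℕ) * z.re) * ph (2 * Real.pi * (j + 1 : ℕ) * z.im) : ℝ) : ℂ) +
    ((-(Real.sin (2 * Real.pi * (j + 1 : ℕ) * z.re) *
      kp (2 * Real.pi * (j + 1 : ℕ) * z.im)) : ℝ) : ℂ) * I := by
  have h1 : cj (q z) ^ (j + 1) = cj (q z ^ (j + 1)) := by simp only [cj, map_pow]
  rw [Tq, h1, q_pow]
  generalize 2 * Real.pi * (j + 1 : ℕ) * z.re = t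
  generalize 2 * Real.pi * (j + 1 : ℕ) * z.im = w
  rw [ph, kp]
  simp only [cj, map_add, map_mul, Complex.conj_ofReal, Complex.conj_I]
  push_cast
  ring

lemma Tq_re (z : ℂ) (j : ℕ) : (Tq z j).re =
    Real.cos (2 * Real.pi * (j + 1 : ℕ) * z.re) * ph (2 * Real.pi * (j + 1 : ℕ) * z.im) := by
  rw [Tq_eq, Complex.add_re, Complex.ofReal_re, Complex.re_ofReal_mul, Complex.I_re]
  ring

lemma Tq_im (z : ℂ) (j : ℕ) : (Tq z j).im =
    -(Real.sin (2 * Real.pi * (j + 1 : ℕ) * z.re) * kp (2 * Real.pi * (j + 1 : ℕ) * z.im)) := by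
  rw [Tq_eq, Complex.add_im, Complex.ofReal_im, Complex.im_ofReal_mul, Complex.I_im]
  ring

/-- the real part of the terms -/
def tre (x y : ℝ) (n j : ℕ) : ℝ :=
  Real.cos (2 * Real.pi * (((n + 1) * (j + 1) : ℕ) : ℝ) * x) *
    ph (2 * Real.pi * (((n + 1) * (j + 1) : ℕ) : ℝ) * y)

/-- the imaginary part of the terms -/
def tim (x y : ℝ) (n j : ℕ) : ℝ :=
  -(Real.sin (2 * Real.pi * (((n + 1) * (j + 1) : ℕ) : ℝ) * x) *
    kp (2 * Real.pi * (((n + 1) * (j + 1) : ℕ) : ℝ) * y))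

lemma tre_eq (x y : ℝ) (n j : ℕ) : (Tq (((n + 1 : ℕ) : ℂ) * tt x y) j).re = tre x y n j := by
  rw [Tq_re, im_n, re_n, tre]
  push_cast
  congr 2 <;> ring

lemma tim_eq (x y : ℝ) (n j : ℕ) : (Tq (((n + 1 : ℕ) : ℂ) * tt x y) j).im = tim x y n j := by
  rw [Tq_im, im_n, re_n, tim]
  push_cast
  congr 3 <;> ring

lemma pos_n {x y : ℝ} (hy : 0 < y) (n : ℕ) : 0 < (((n + 1 : ℕ) : ℂ) * tt x y).im := by
  rw [im_n]
  positivity

lemma tre_sum {x y : ℝ} (hy : 0 < y) (n : ℕ) : Summable (tre x y n) :=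
  (Complex.hasSum_re (Tq_sum (pos_n (x := x) hy n))).summable.congr fun j => (tre_eq x y n j)

lemma tim_sum {x y : ℝ} (hy : 0 < y) (n : ℕ) : Summable (tim x y n) :=
  (Complex.hasSum_im (Tq_sum (pos_n (x := x) hy n))).summable.congr fun j => (tim_eq x y n j)

theorem re_sum {x y : ℝ} (hy : 0 < y) {E : ℂ}
    (h : HasSum (fun p : ℤ × ℤ => lat x y p ^ 2 / ((Q x y p : ℝ) : ℂ) ^ 4) E) :
    HasSum (fun n : ℕ => 1 / ((n + 1 : ℕ) : ℝ) ^ 5 * (1 + ∑' j : ℕ, tre x y n j))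
      (2 * y ^ 5 / Real.pi * (Z6 - E.re)) := by
  have h1 := Complex.hasSum_re (main_sum hy h)
  rw [Complex.re_ofReal_mul, Complex.sub_re, Complex.ofReal_re] at h1
  refine h1.congr_fun fun n => ?_
  rw [Complex.re_ofReal_mul, Complex.add_re, Complex.one_re,
    Complex.re_tsum (Tq_sum (pos_n (x := x) hy n)).summable]
  simp only [tre_eq]

theorem im_sum {x y : ℝ} (hy : 0 < y) {E : ℂ}
    (h : HasSum (fun p : ℤ × ℤ => lat x y p ^ 2 / ((Q x y p : ℝ) : ℂ) ^ 4) E) :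
    HasSum (fun n : ℕ => 1 / ((n + 1 : ℕ) : ℝ) ^ 5 * (∑' j : ℕ, tim x y n j))
      (2 * y ^ 5 / Real.pi * (-E.im)) := by
  have h1 := Complex.hasSum_im (main_sum hy h)
  rw [Complex.im_ofReal_mul, Complex.sub_im, Complex.ofReal_im, zero_sub] at h1
  refine h1.congr_fun fun n => ?_
  rw [Complex.im_ofReal_mul, Complex.add_im, Complex.one_im, zero_add,
    Complex.im_tsum (Tq_sum (pos_n (x := x) hy n)).summable]
  simp only [tim_eq]

end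

end UQO.NvA
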